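import Mathlib

/-!
Binomial sums.
-/

namespace Pool.Agent.MP_867aae_co.H75

open Finset

/-- number of subsets of size at most `k` of an `N`-element set -/
def Ball (N k : ℕ) : ℕ := ∑ j ∈ range (k + 1), N.choose j

lemma Ball_zero (N : ℕ) : Ball N 0 = 1 := by simp [Ball]

lemma Ball_succ_right (N k : ℕ) : Ball N (k + 1) = Ball N k + N.choose (k + 1) := by
  unfold Ball
  rw [sum_range_succ]

lemma Ball_succ_left (N k : ℕ) : Ball (N + 1) (k + 1) = Ball N k + Ball N (k + 1) := by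
  unfold Ball
  rw [sum_range_succ', sum_range_succ' (fun j => N.choose j) (k + 1)]
  simp only [Nat.choose_succ_succ, sum_add_distrib, Nat.choose_zero_right]
  ring

lemma Ball_zero_left (N : ℕ) : Ball (N + 1) 0 = Ball N 0 := by simp [Ball]

lemma choose_le_Ball (N k : ℕ) : N.choose k ≤ Ball N k := by
  unfold Ball
  exact single_le_sum (f := fun j => N.choose j) (fun _ _ => Nat.zero_le _) (by simp)

lemma tail_aux (t a : ℕ) : ∀ k, k ≤ a →
    (t + 1) * Ball (t + 2 * a) k ≤ (t + a + 1) * (t + 2 * a).choose k := by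
  intro k
  induction k with
  | zero =>
    intro _
    rw [Ball_zero, Nat.choose_zero_right]
    omega
  | succ k ih =>
    intro hk
    have h1 := ih (by omega)
    have h2 : (t + a + 1) * (t + 2 * a).choose k ≤ a * (t + 2 * a).choose (k + 1) := by
      have h3 : (t + 2 * a).choose (k + 1) * (k + 1) = (t + 2 * a).choose k * (t + 2 * a - k) :=
        Nat.choose_succ_right_eq _ _
      have h4 : t + a + 1 ≤ t + 2 * a - k := by omega
      calc (t + a + 1) * (t + 2 * a).choose k ≤ (t + 2 * a - k) * (t + 2 * a).choose k :=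
            Nat.mul_le_mul_right _ h4
        _ = (t + 2 * a).choose (k + 1) * (k + 1) := by rw [h3]; ring
        _ ≤ (t + 2 * a).choose (k + 1) * a := Nat.mul_le_mul_left _ hk
        _ = a * (t + 2 * a).choose (k + 1) := by ring
    rw [Ball_succ_right]
    have e : (t + a + 1) * (t + 2 * a).choose (k + 1) =
        (t + 1) * (t + 2 * a).choose (k + 1) + a * (t + 2 * a).choose (k + 1) := by ring
    rw [e, mul_add]
    linarith

lemma tail (t a : ℕ) : (t + 1) * Ball (t + 2 * a) a ≤ (t + a + 1) * (t + 2 * a).choose a :=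
  tail_aux t a a le_rfl

/-- the overlap inequality in real numbers -/
lemma overlap_real {X Y A A' B B' t a s b : ℝ} (hX : 0 ≤ X) (hY : 0 ≤ Y) (hA : 0 ≤ A)
    (hA' : 0 ≤ A') (hB : 0 ≤ B) (hB' : 0 ≤ B') (ht : 0 ≤ t) (hs : 0 ≤ s) (ha : 0 ≤ a) (hb : 0 ≤ b)
    (h1 : (t + 1) * X ≤ 2 * (t + a + 1) * A) (h2 : (s + 1) * Y ≤ 2 * (s + b + 1) * B)
    (h3 : A' * (a + 1) = A * (t + a)) (h4 : B' * (b + 1) = B * (s + b)) :
    Y * (A' - A) ≤ A' * B + A * B' ∨ X * (B' - B) ≤ A' * B + A * B' := by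
  by_contra hcon
  push Not at hcon
  obtain ⟨g1, g2⟩ := hcon
  have p0 : 0 ≤ A' * B + A * B' := by positivity
  have hYp : 0 < Y * (A' - A) := lt_of_le_of_lt p0 g1
  have hXp : 0 < X * (B' - B) := lt_of_le_of_lt p0 g2
  have hdA : 0 < A' - A := by
    rcases hY.eq_or_lt with h | h
    · rw [← h] at hYp; simp at hYp
    · exact (mul_pos_iff_of_pos_left h).1 hYp
  have hdB : 0 < B' - B := by
    rcases hX.eq_or_lt with h | h
    · rw [← h] at hXp; simp at hXp
    · exact (mul_pos_iff_of_pos_left h).1 hXp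
  -- multiply
  have m1 : (A' * B + A * B') * (A' * B + A * B') < (Y * (A' - A)) * (X * (B' - B)) :=
    mul_lt_mul'' g1 g2 p0 p0
  have m2 : 4 * (A' * B) * (A * B') ≤ (A' * B + A * B') * (A' * B + A * B') := by
    nlinarith [sq_nonneg (A' * B - A * B')]
  -- (t+1)(s+1) X Y ≤ 4 (t+a+1)(s+b+1) A B
  have m3 : ((t + 1) * X) * ((s + 1) * Y) ≤ (2 * (t + a + 1) * A) * (2 * (s + b + 1) * B) :=
    mul_le_mul h1 h2 (by positivity) (by positivity)
  have m4 : (t + a + 1) * (A' - A) ≤ (t + 1) * A' := by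
    have : a * A' ≤ (t + a + 1) * A := by
      have h5 : (a + 1) * (a * A') ≤ (a + 1) * ((t + a + 1) * A) := by
        have : (a + 1) * (a * A') = a * (A * (t + a)) := by rw [← h3]; ring
        rw [this]
        nlinarith [mul_nonneg hA ht, mul_nonneg hA ha, mul_nonneg (mul_nonneg hA ht) ha,
          mul_nonneg (mul_nonneg hA ha) ha]
      exact le_of_mul_le_mul_left h5 (by linarith)
    nlinarith
  have m5 : (s + b + 1) * (B' - B) ≤ (s + 1) * B' := by
    have : b * B' ≤ (s + b + 1) * B := by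
      have h5 : (b + 1) * (b * B') ≤ (b + 1) * ((s + b + 1) * B) := by
        have : (b + 1) * (b * B') = b * (B * (s + b)) := by rw [← h4]; ring
        rw [this]
        nlinarith [mul_nonneg hB hs, mul_nonneg hB hb, mul_nonneg (mul_nonneg hB hs) hb,
          mul_nonneg (mul_nonneg hB hb) hb]
      exact le_of_mul_le_mul_left h5 (by linarith)
    nlinarith
  have m6 : ((t + a + 1) * (A' - A)) * ((s + b + 1) * (B' - B)) ≤
      ((t + 1) * A') * ((s + 1) * B') :=
    mul_le_mul m4 m5 (by positivity) (by positivity)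
  -- combine
  have c1 : (t + 1) * (s + 1) * (4 * (A' * B) * (A * B')) <
      (t + 1) * (s + 1) * ((Y * (A' - A)) * (X * (B' - B))) :=
    mul_lt_mul_of_pos_left (lt_of_le_of_lt m2 m1) (by positivity)
  have c2 : (t + 1) * (s + 1) * ((Y * (A' - A)) * (X * (B' - B))) =
      (((t + 1) * X) * ((s + 1) * Y)) * ((A' - A) * (B' - B)) := by ring
  have c3 : (((t + 1) * X) * ((s + 1) * Y)) * ((A' - A) * (B' - B)) ≤
      ((2 * (t + a + 1) * A) * (2 * (s + b + 1) * B)) * ((A' - A) * (B' - B)) :=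
    mul_le_mul_of_nonneg_right m3 (by positivity)
  have c4 : ((2 * (t + a + 1) * A) * (2 * (s + b + 1) * B)) * ((A' - A) * (B' - B)) =
      4 * (A * B) * (((t + a + 1) * (A' - A)) * ((s + b + 1) * (B' - B))) := by ring
  have c5 : 4 * (A * B) * (((t + a + 1) * (A' - A)) * ((s + b + 1) * (B' - B))) ≤
      4 * (A * B) * (((t + 1) * A') * ((s + 1) * B')) :=
    mul_le_mul_of_nonneg_left m6 (by positivity)
  have c6 : 4 * (A * B) * (((t + 1) * A') * ((s + 1) * B')) =
      (t + 1) * (s + 1) * (4 * (A' * B) * (A * B')) := by ring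
  linarith

/-- single overlap is not better than one of the two products -/
lemma overlap (t a s b : ℕ) :
    Ball (t + 2 * a + 1) (a + 1) * Ball (s + 2 * b + 1) b +
        Ball (t + 2 * a + 1) a * Ball (s + 2 * b + 1) (b + 1) ≤
      Ball (t + 2 * a) a * (2 * Ball (s + 2 * (b + 1)) (b + 1)) ∨
    Ball (t + 2 * a + 1) (a + 1) * Ball (s + 2 * b + 1) b +
        Ball (t + 2 * a + 1) a * Ball (s + 2 * b + 1) (b + 1) ≤
      Ball (t + 2 * (a + 1)) (a + 1) * (2 * Ball (s + 2 * b) b) := by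
  -- one step identities
  have up : ∀ u c : ℕ, Ball (u + 2 * c + 1) (c + 1) = 2 * Ball (u + 2 * c) c +
      (u + 2 * c).choose (c + 1) := by
    intro u c
    rw [Ball_succ_left, Ball_succ_right]; ring
  have dn : ∀ u c : ℕ, Ball (u + 2 * c + 1) c + (u + 2 * c).choose c = 2 * Ball (u + 2 * c) c := by
    intro u c
    rcases c with _ | c
    · simp [Ball_zero]
    · rw [Ball_succ_left, Ball_succ_right]; ring
  have two : ∀ u c : ℕ, Ball (u + 2 * (c + 1)) (c + 1) =
      Ball (u + 2 * c + 1) c + Ball (u + 2 * c + 1) (c + 1) := by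
    intro u c
    have : u + 2 * (c + 1) = (u + 2 * c + 1) + 1 := by ring
    rw [this, Ball_succ_left]
  have ch : ∀ u c : ℕ, (u + 2 * c).choose (c + 1) * (c + 1) = (u + 2 * c).choose c * (u + c) := by
    intro u c
    rw [Nat.choose_succ_right_eq]
    congr 1
    omega
  set X : ℝ := 2 * (Ball (t + 2 * a) a : ℝ) with hX
  set Y : ℝ := 2 * (Ball (s + 2 * b) b : ℝ) with hY
  set A : ℝ := ((t + 2 * a).choose a : ℝ) with hA
  set A' : ℝ := ((t + 2 * a).choose (a + 1) : ℝ) with hA'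
  set B : ℝ := ((s + 2 * b).choose b : ℝ) with hB
  set B' : ℝ := ((s + 2 * b).choose (b + 1) : ℝ) with hB'
  have u1 : (Ball (t + 2 * a + 1) (a + 1) : ℝ) = X + A' := by
    rw [up]; push_cast; rw [hX, hA']
  have u0 : (Ball (t + 2 * a + 1) a : ℝ) = X - A := by
    have := dn t a
    have h' : ((Ball (t + 2 * a + 1) a : ℝ)) + ((t + 2 * a).choose a : ℝ) =
        2 * (Ball (t + 2 * a) a : ℝ) := by exact_mod_cast this
    rw [hX, hA]; linarith
  have d1 : (Ball (s + 2 * b + 1) (b + 1) : ℝ) = Y + B' := by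
    rw [up]; push_cast; rw [hY, hB']
  have d0 : (Ball (s + 2 * b + 1) b : ℝ) = Y - B := by
    have := dn s b
    have h' : ((Ball (s + 2 * b + 1) b : ℝ)) + ((s + 2 * b).choose b : ℝ) =
        2 * (Ball (s + 2 * b) b : ℝ) := by exact_mod_cast this
    rw [hY, hB]; linarith
  have q1 : (Ball (t + 2 * (a + 1)) (a + 1) : ℝ) = 2 * X + A' - A := by
    rw [two]; push_cast; rw [u1, u0]; ring
  have q2 : (Ball (s + 2 * (b + 1)) (b + 1) : ℝ) = 2 * Y + B' - B := by
    rw [two]; push_cast; rw [d1, d0]; ring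
  have t1 : ((t : ℝ) + 1) * X ≤ 2 * (t + a + 1) * A := by
    have h' : ((t : ℝ) + 1) * (Ball (t + 2 * a) a : ℝ) ≤ (t + a + 1) * ((t + 2 * a).choose a : ℝ) := by
      exact_mod_cast tail t a
    rw [hX, hA]; linarith
  have t2 : ((s : ℝ) + 1) * Y ≤ 2 * (s + b + 1) * B := by
    have h' : ((s : ℝ) + 1) * (Ball (s + 2 * b) b : ℝ) ≤ (s + b + 1) * ((s + 2 * b).choose b : ℝ) := by
      exact_mod_cast tail s b
    rw [hY, hB]; linarith
  have c1 : A' * ((a : ℝ) + 1) = A * (t + a) := by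
    have := ch t a
    rw [hA, hA']
    exact_mod_cast this
  have c2 : B' * ((b : ℝ) + 1) = B * (s + b) := by
    have := ch s b
    rw [hB, hB']
    exact_mod_cast this
  have key := overlap_real (X := X) (Y := Y) (A := A) (A' := A') (B := B) (B' := B') (t := t)
    (a := a) (s := s) (b := b) (by positivity) (by positivity) (by positivity) (by positivity)
    (by positivity) (by positivity) (by positivity) (by positivity) (by positivity)
    (by positivity) t1 t2 c1 c2
  rcases key with h | h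
  · left
    have : ((Ball (t + 2 * a + 1) (a + 1) * Ball (s + 2 * b + 1) b +
        Ball (t + 2 * a + 1) a * Ball (s + 2 * b + 1) (b + 1) : ℕ) : ℝ) ≤
        ((Ball (t + 2 * a) a * (2 * Ball (s + 2 * (b + 1)) (b + 1)) : ℕ) : ℝ) := by
      push_cast
      rw [u1, u0, d1, d0, q2]
      have e : (Ball (t + 2 * a) a : ℝ) = X / 2 := by rw [hX]; ring
      rw [e]
      nlinarith
    exact_mod_cast this
  · right
    have : ((Ball (t + 2 * a + 1) (a + 1) * Ball (s + 2 * b + 1) b +
        Ball (t + 2 * a + 1) a * Ball (s + 2 * b + 1) (b + 1) : ℕ) : ℝ) ≤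
        ((Ball (t + 2 * (a + 1)) (a + 1) * (2 * Ball (s + 2 * b) b) : ℕ) : ℝ) := by
      push_cast
      rw [u1, u0, d1, d0, q1]
      have e : 2 * (Ball (s + 2 * b) b : ℝ) = Y := by rw [hY]
      rw [e]
      nlinarith
    exact_mod_cast this

/-- the largest product of two binomials with lower indices adding to `c` -/
def Mx (t s c : ℕ) : ℕ := (range (c + 1)).sup (fun i => t.choose i * s.choose (c - i))

lemma le_Mx {t s c i j : ℕ} (h : i + j = c) : t.choose i * s.choose j ≤ Mx t s c := by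
  have : j = c - i := by omega
  rw [this]
  exact le_sup (f := fun i => t.choose i * s.choose (c - i)) (mem_range.2 (by omega))

lemma exists_Mx (t s c : ℕ) : ∃ i j, i + j = c ∧ Mx t s c = t.choose i * s.choose j := by
  obtain ⟨i, hi, h⟩ := exists_mem_eq_sup (range (c + 1)) ⟨0, by simp⟩
    (fun i => t.choose i * s.choose (c - i))
  exact ⟨i, c - i, by rw [mem_range] at hi; omega, h⟩

lemma Mx_step {t s c : ℕ} (hc : c ≤ t + s) : (t + s - c) * Mx t s c ≤ (c + 2) * Mx t s (c + 1) := by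
  obtain ⟨i, j, hij, hM⟩ := exists_Mx t s c
  rw [hM]
  rcases Nat.eq_zero_or_pos (t.choose i * s.choose j) with h0 | hpos
  · rw [h0]; simp
  have hi : i ≤ t := by
    by_contra h
    rw [Nat.choose_eq_zero_of_lt (by omega)] at hpos
    simp at hpos
  have hj : j ≤ s := by
    by_contra h
    rw [Nat.choose_eq_zero_of_lt (n := s) (by omega)] at hpos
    simp at hpos
  have h1 := Nat.choose_succ_right_eq t i
  have h2 := Nat.choose_succ_right_eq s j
  have h3 : t.choose (i + 1) * s.choose j ≤ Mx t s (c + 1) := le_Mx (by omega)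
  have h4 : t.choose i * s.choose (j + 1) ≤ Mx t s (c + 1) := le_Mx (by omega)
  have e1 : t + s - c = (t - i) + (s - j) := by omega
  have e2 : c + 2 = (i + 1) + (j + 1) := by omega
  calc (t + s - c) * (t.choose i * s.choose j)
      = (t.choose i * (t - i)) * s.choose j + t.choose i * (s.choose j * (s - j)) := by
        rw [e1]; ring
    _ = (i + 1) * (t.choose (i + 1) * s.choose j) + (j + 1) * (t.choose i * s.choose (j + 1)) := by
        rw [← h1, ← h2]; ring
    _ ≤ (i + 1) * Mx t s (c + 1) + (j + 1) * Mx t s (c + 1) :=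
        Nat.add_le_add (Nat.mul_le_mul_left _ h3) (Nat.mul_le_mul_left _ h4)
    _ = (c + 2) * Mx t s (c + 1) := by rw [e2]; ring

/-- geometric decay of `Mx` below level `h` -/
lemma Mx_decay {t s h D : ℕ} (hT : D * (h + 1) + h ≤ t + s) : ∀ e, e ≤ h →
    D ^ e * Mx t s (h - e) ≤ Mx t s h := by
  intro e
  induction e with
  | zero => intro _; simp
  | succ e ih =>
    intro he
    have h1 := ih (by omega)
    have h2 := Mx_step (t := t) (s := s) (c := h - (e + 1)) (by omega)
    have e1 : h - (e + 1) + 1 = h - e := by omega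
    rw [e1] at h2
    have h3 : (h + 1) * (D * Mx t s (h - (e + 1))) ≤ (h + 1) * Mx t s (h - e) := by
      calc (h + 1) * (D * Mx t s (h - (e + 1))) = (D * (h + 1)) * Mx t s (h - (e + 1)) := by ring
        _ ≤ (t + s - (h - (e + 1))) * Mx t s (h - (e + 1)) :=
            Nat.mul_le_mul_right _ (by omega)
        _ ≤ (h - (e + 1) + 2) * Mx t s (h - e) := h2
        _ ≤ (h + 1) * Mx t s (h - e) := Nat.mul_le_mul_right _ (by omega)
    have h4 : D * Mx t s (h - (e + 1)) ≤ Mx t s (h - e) := Nat.le_of_mul_le_mul_left h3 (by omega)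
    calc D ^ (e + 1) * Mx t s (h - (e + 1)) = D ^ e * (D * Mx t s (h - (e + 1))) := by ring
      _ ≤ D ^ e * Mx t s (h - e) := Nat.mul_le_mul_left _ h4
      _ ≤ Mx t s h := h1

/-- summation of the lower levels -/
lemma level_sum {M : ℕ} {N : ℕ → ℕ} : ∀ k : ℕ,
    (∀ e, 1 ≤ e → e ≤ k → 10 ^ e * N e ≤ 4 * (e + 1) * M) →
    (∑ e ∈ Icc 1 k, (N e : ℚ)) ≤ M * (1 - (k + 2) / (2 * 10 ^ k)) := by
  intro k
  induction k with
  | zero => intro _; simp
  | succ k ih =>
    intro h
    have h1 := ih (fun e h1 h2 => h e h1 (by omega))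
    rw [sum_Icc_succ_top (by omega)]
    have h2 := h (k + 1) (by omega) le_rfl
    have h3 : (10 : ℚ) ^ (k + 1) * (N (k + 1) : ℚ) ≤ 4 * ((k : ℚ) + 1 + 1) * M := by
      exact_mod_cast h2
    have h4 : (N (k + 1) : ℚ) ≤ M * (4 * ((k : ℚ) + 2) / 10 ^ (k + 1)) := by
      rw [← mul_div_assoc, le_div_iff₀ (by positivity)]
      linarith
    have h5 : (4 * ((k : ℚ) + 2) / 10 ^ (k + 1)) ≤
        ((k : ℚ) + 2) / (2 * 10 ^ k) - ((k : ℚ) + 1 + 2) / (2 * 10 ^ (k + 1)) := by
      have e1 : ((k : ℚ) + 2) / (2 * 10 ^ k) - ((k : ℚ) + 1 + 2) / (2 * 10 ^ (k + 1)) =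
          (10 * (k + 2) - (k + 3)) / 2 / 10 ^ (k + 1) := by
        rw [pow_succ]
        field_simp
        ring
      rw [e1]
      apply div_le_div_of_nonneg_right _ (by positivity)
      linarith
    push_cast
    have h6 : (M : ℚ) * (4 * ((k : ℚ) + 2) / 10 ^ (k + 1)) ≤
        M * (((k : ℚ) + 2) / (2 * 10 ^ k) - ((k : ℚ) + 1 + 2) / (2 * 10 ^ (k + 1))) :=
      mul_le_mul_of_nonneg_left h5 (by positivity)
    have e2 : (M : ℚ) * (1 - ((k : ℚ) + 1 + 2) / (2 * 10 ^ (k + 1))) =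
        M * (1 - ((k : ℚ) + 2) / (2 * 10 ^ k)) +
        M * (((k : ℚ) + 2) / (2 * 10 ^ k) - ((k : ℚ) + 1 + 2) / (2 * 10 ^ (k + 1))) := by ring
    rw [e2]
    linarith

lemma level_sum' {M k : ℕ} {N : ℕ → ℕ}
    (h : ∀ e, 1 ≤ e → e ≤ k → 10 ^ e * N e ≤ 4 * (e + 1) * M) : ∑ e ∈ Icc 1 k, N e ≤ M := by
  have h1 := level_sum k h
  have h2 : (M : ℚ) * (1 - ((k : ℚ) + 2) / (2 * 10 ^ k)) ≤ M := by
    have : 0 ≤ (M : ℚ) * (((k : ℚ) + 2) / (2 * 10 ^ k)) := by positivity
    linarith
  have h3 : (∑ e ∈ Icc 1 k, (N e : ℚ)) ≤ M := h1.trans h2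
  exact_mod_cast h3

end Pool.Agent.MP_867aae_co.H75
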