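import Mathlib

/-!
Left compressions for families that are t-intersecting and s-union.
-/

namespace Pool.Agent.MP_867aae_co.H75

open Finset

/-- family of subsets of `X`, any two members meet in at least `t` points and their union misses
at least `s` points of `X` (the second condition is written with inclusion-exclusion). -/
def Fam (F : Finset (Finset ℕ)) (X : Finset ℕ) (t s : ℕ) : Prop :=
  (∀ A ∈ F, A ⊆ X) ∧
    ∀ A ∈ F, ∀ B ∈ F, t ≤ (A ∩ B).card ∧ A.card + B.card + s ≤ X.card + (A ∩ B).card

/-- left compressed inside `X` -/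
def Sh (F : Finset (Finset ℕ)) (X : Finset ℕ) : Prop :=
  ∀ i ∈ X, ∀ j ∈ X, i < j → ∀ A ∈ F, j ∈ A → i ∉ A → insert i (A.erase j) ∈ F

lemma swap_inter {A B : Finset ℕ} {i j : ℕ} (hj : j ∈ A) (hi : i ∉ A) :
    (insert i (A.erase j) ∩ B).card + (if j ∈ B then 1 else 0) =
      (A ∩ B).card + (if i ∈ B then 1 else 0) := by
  have h1 : (A.erase j ∩ B).card + (if j ∈ B then 1 else 0) = (A ∩ B).card := by
    rw [erase_inter]
    split_ifs with h
    · rw [card_erase_add_one]
      exact mem_inter.2 ⟨hj, h⟩
    · rw [erase_eq_of_notMem]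
      · rfl
      · simp [h]
  have h2 : (insert i (A.erase j) ∩ B).card = (A.erase j ∩ B).card + (if i ∈ B then 1 else 0) := by
    by_cases h : i ∈ B
    · rw [insert_inter_of_mem h, card_insert_of_notMem]
      · simp [h]
      · simp [hi]
    · rw [insert_inter_of_notMem h]
      simp [h]
  omega

lemma swap_card {A : Finset ℕ} {i j : ℕ} (hj : j ∈ A) (hi : i ∉ A) :
    (insert i (A.erase j)).card = A.card := by
  rw [card_insert_of_notMem, card_erase_add_one hj]
  simp [hi]

/-- the compression map -/
def cm (F : Finset (Finset ℕ)) (i j : ℕ) (A : Finset ℕ) : Finset ℕ :=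
  if j ∈ A ∧ i ∉ A ∧ insert i (A.erase j) ∉ F then insert i (A.erase j) else A

lemma swap_back {A : Finset ℕ} {i j : ℕ} (hj : j ∈ A) (hi : i ∉ A) :
    insert j ((insert i (A.erase j)).erase i) = A := by
  rw [erase_insert, insert_erase hj]
  simp [hi]

lemma cm_inj (F : Finset (Finset ℕ)) (i j : ℕ) : Set.InjOn (cm F i j) (F : Set (Finset ℕ)) := by
  intro A hA B hB h
  have hA' : A ∈ F := hA
  have hB' : B ∈ F := hB
  unfold cm at h
  split_ifs at h with h1 h2 h2
  · rw [← swap_back h1.1 h1.2.1, ← swap_back h2.1 h2.2.1, h]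
  · rw [h] at h1
    exact absurd hB' h1.2.2
  · rw [← h] at h2
    exact absurd hA' h2.2.2
  · exact h

lemma cm_card {F : Finset (Finset ℕ)} {i j : ℕ} (A : Finset ℕ) : (cm F i j A).card = A.card := by
  unfold cm
  split_ifs with h
  · exact swap_card h.1 h.2.1
  · rfl

lemma cm_fam {F : Finset (Finset ℕ)} {X : Finset ℕ} {t s i j : ℕ} (hF : Fam F X t s)
    (hi : i ∈ X) : Fam (F.image (cm F i j)) X t s := by
  have key : ∀ A ∈ F, ∀ B ∈ F, ∃ A' ∈ F, ∃ B' ∈ F, A'.card = A.card ∧ B'.card = B.card ∧
      (A' ∩ B').card ≤ (cm F i j A ∩ cm F i j B).card := by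
    intro A hA B hB
    by_cases hmA : j ∈ A ∧ i ∉ A ∧ insert i (A.erase j) ∉ F
    · have eA : cm F i j A = insert i (A.erase j) := if_pos hmA
      by_cases hmB : j ∈ B ∧ i ∉ B ∧ insert i (B.erase j) ∉ F
      · have eB : cm F i j B = insert i (B.erase j) := if_pos hmB
        refine ⟨A, hA, B, hB, rfl, rfl, ?_⟩
        rw [eA, eB]
        have h1 := swap_inter (B := insert i (B.erase j)) hmA.1 hmA.2.1
        have h2 := swap_inter (B := A) hmB.1 hmB.2.1
        rw [inter_comm _ A, inter_comm B A] at h2
        have hij : i ≠ j := by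
          rintro rfl
          exact hmA.2.1 hmA.1
        have e1 : j ∉ insert i (B.erase j) := by
          simp [hij.symm]
        have e2 : i ∈ insert i (B.erase j) := mem_insert_self _ _
        rw [if_neg e1, if_pos e2] at h1
        rw [if_pos hmA.1, if_neg hmA.2.1] at h2
        omega
      · have eB : cm F i j B = B := if_neg hmB
        by_cases hc : j ∈ B ∧ i ∉ B
        · have hB2 : insert i (B.erase j) ∈ F := by
            by_contra h
            exact hmB ⟨hc.1, hc.2, h⟩
          refine ⟨A, hA, _, hB2, rfl, swap_card hc.1 hc.2, ?_⟩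
          rw [eA, eB]
          have h1 := swap_inter (B := B) hmA.1 hmA.2.1
          have h2 := swap_inter (B := A) hc.1 hc.2
          rw [inter_comm _ A, inter_comm B A] at h2
          rw [if_pos hc.1, if_neg hc.2] at h1
          rw [if_pos hmA.1, if_neg hmA.2.1] at h2
          omega
        · refine ⟨A, hA, B, hB, rfl, rfl, ?_⟩
          rw [eA, eB]
          have h1 := swap_inter (B := B) hmA.1 hmA.2.1
          by_cases hjB : j ∈ B
          · have : i ∈ B := by
              by_contra h
              exact hc ⟨hjB, h⟩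
            rw [if_pos hjB, if_pos this] at h1
            omega
          · rw [if_neg hjB] at h1
            omega
    · have eA : cm F i j A = A := if_neg hmA
      by_cases hmB : j ∈ B ∧ i ∉ B ∧ insert i (B.erase j) ∉ F
      · have eB : cm F i j B = insert i (B.erase j) := if_pos hmB
        by_cases hc : j ∈ A ∧ i ∉ A
        · have hA2 : insert i (A.erase j) ∈ F := by
            by_contra h
            exact hmA ⟨hc.1, hc.2, h⟩
          refine ⟨_, hA2, B, hB, swap_card hc.1 hc.2, rfl, ?_⟩
          rw [eA, eB]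
          have h1 := swap_inter (B := A) hmB.1 hmB.2.1
          have h2 := swap_inter (B := B) hc.1 hc.2
          rw [inter_comm _ A, inter_comm B A] at h1
          rw [if_pos hc.1, if_neg hc.2] at h1
          rw [if_pos hmB.1, if_neg hmB.2.1] at h2
          omega
        · refine ⟨A, hA, B, hB, rfl, rfl, ?_⟩
          rw [eA, eB]
          have h1 := swap_inter (B := A) hmB.1 hmB.2.1
          rw [inter_comm _ A, inter_comm B A] at h1
          by_cases hjA : j ∈ A
          · have : i ∈ A := by
              by_contra h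
              exact hc ⟨hjA, h⟩
            rw [if_pos hjA, if_pos this] at h1
            omega
          · rw [if_neg hjA] at h1
            omega
      · have eB : cm F i j B = B := if_neg hmB
        exact ⟨A, hA, B, hB, rfl, rfl, by rw [eA, eB]⟩
  constructor
  · intro A hA
    obtain ⟨B, hB, rfl⟩ := mem_image.1 hA
    unfold cm
    split_ifs with h
    · intro x hx
      rcases mem_insert.1 hx with rfl | hx
      · exact hi
      · exact hF.1 B hB (mem_of_mem_erase hx)
    · exact hF.1 B hB
  · intro A hA B hB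
    obtain ⟨A0, hA0, rfl⟩ := mem_image.1 hA
    obtain ⟨B0, hB0, rfl⟩ := mem_image.1 hB
    obtain ⟨A', hA', B', hB', e1, e2, e3⟩ := key A0 hA0 B0 hB0
    obtain ⟨g1, g2⟩ := hF.2 A' hA' B' hB'
    rw [cm_card, cm_card]
    omega

/-- total weight -/
def wt (F : Finset (Finset ℕ)) : ℕ := ∑ A ∈ F, ∑ x ∈ A, x

lemma swap_sum {A : Finset ℕ} {i j : ℕ} (hj : j ∈ A) (hi : i ∉ A) :
    ∑ x ∈ insert i (A.erase j), x + j = ∑ x ∈ A, x + i := by
  rw [sum_insert (by simp [hi])]
  have := add_sum_erase A (fun x => x) hj
  omega

lemma exists_shifted {X : Finset ℕ} {t s : ℕ} : ∀ (w : ℕ) (F : Finset (Finset ℕ)), wt F = w →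
    Fam F X t s → ∃ F', Fam F' X t s ∧ Sh F' X ∧ F'.card = F.card := by
  intro w
  induction w using Nat.strong_induction_on with
  | _ w ih =>
    intro F hw hF
    by_cases hs : Sh F X
    · exact ⟨F, hF, hs, rfl⟩
    · unfold Sh at hs
      push Not at hs
      obtain ⟨i, hi, j, hj, hij, A, hA, hjA, hiA, hn⟩ := hs
      have hcard : (F.image (cm F i j)).card = F.card := card_image_of_injOn (cm_inj F i j)
      have hlt : wt (F.image (cm F i j)) < wt F := by
        unfold wt
        rw [sum_image (cm_inj F i j)]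
        apply sum_lt_sum
        · intro B hB
          unfold cm
          split_ifs with h
          · have := swap_sum h.1 h.2.1
            omega
          · exact le_refl _
        · refine ⟨A, hA, ?_⟩
          have : cm F i j A = insert i (A.erase j) := if_pos ⟨hjA, hiA, hn⟩
          rw [this]
          have := swap_sum hjA hiA
          omega
      obtain ⟨F', h1, h2, h3⟩ := ih _ (hw ▸ hlt) _ rfl (cm_fam (i := i) (j := j) hF hi)
      exact ⟨F', h1, h2, h3.trans hcard⟩

/-- block compression -/
lemma block {F : Finset (Finset ℕ)} {X : Finset ℕ} (hs : Sh F X) (hX : ∀ A ∈ F, A ⊆ X) :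
    ∀ (k : ℕ) (A K K' : Finset ℕ), K.card = k → K'.card = k → A ∈ F → K ⊆ A → K' ⊆ X →
      Disjoint K' A → (∀ x ∈ K', ∀ y ∈ K, x < y) → (A \ K) ∪ K' ∈ F := by
  intro k
  induction k with
  | zero =>
    intro A K K' h1 h2 hA _ _ _ _
    rw [card_eq_zero] at h1 h2
    subst h1 h2
    simpa using hA
  | succ k ih =>
    intro A K K' h1 h2 hA hK hK' hd hlt
    obtain ⟨y, hy⟩ : K.Nonempty := by
      rw [← card_pos]; omega
    obtain ⟨x, hx⟩ : K'.Nonempty := by
      rw [← card_pos]; omega
    have hyA : y ∈ A := hK hy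
    have hxA : x ∉ A := fun h => disjoint_left.1 hd hx h
    have hxy : x ≠ y := (hlt x hx y hy).ne
    have hA1 : insert x (A.erase y) ∈ F :=
      hs x (hK' hx) y (hX A hA hyA) (hlt x hx y hy) A hA hyA hxA
    have := ih (insert x (A.erase y)) (K.erase y) (K'.erase x)
      (by rw [card_erase_of_mem hy]; omega) (by rw [card_erase_of_mem hx]; omega) hA1
      (by
        intro z hz
        rw [mem_erase] at hz
        exact mem_insert_of_mem (mem_erase.2 ⟨hz.1, hK hz.2⟩))
      (fun z hz => hK' (mem_of_mem_erase hz))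
      (by
        rw [disjoint_left]
        intro z hz hz2
        rw [mem_erase] at hz
        rcases mem_insert.1 hz2 with rfl | h
        · exact hz.1 rfl
        · exact disjoint_left.1 hd hz.2 (mem_of_mem_erase h))
      (fun a ha b hb => hlt a (mem_of_mem_erase ha) b (mem_of_mem_erase hb))
    convert this using 1
    ext z
    have hxK : x ∉ K := fun h => hxA (hK h)
    have hyK' : y ∉ K' := fun h => disjoint_left.1 hd h hyA
    simp only [mem_union, mem_sdiff, mem_insert, mem_erase]
    by_cases hzx : z = x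
    · subst hzx
      simp [hx, hxK]
    · by_cases hzy : z = y
      · subst hzy
        simp [hy, hyK', hzx]
      · simp [hzx, hzy]

end Pool.Agent.MP_867aae_co.H75
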