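import Mathlib
import Pool.Agent.MP_867aae_co.H75.Shift

/-!
Structure of compressed families relative to the first `t` and the last `s` points.
-/

namespace Pool.Agent.MP_867aae_co.H75

open Finset

/-- `X = L ∪ Z ∪ R`, consecutive blocks, `|L| = t`, `|R| = s`. -/
structure Blk (X L Z R : Finset ℕ) (t s : ℕ) : Prop where
  hX : X = L ∪ Z ∪ R
  LZ : ∀ x ∈ L, ∀ y ∈ Z, x < y
  LR : ∀ x ∈ L, ∀ y ∈ R, x < y
  ZR : ∀ x ∈ Z, ∀ y ∈ R, x < y
  cL : L.card = t
  cR : R.card = s

variable {F : Finset (Finset ℕ)} {X L Z R : Finset ℕ} {t s : ℕ}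

lemma Blk.dLZ (b : Blk X L Z R t s) : Disjoint L Z :=
  disjoint_left.2 fun x hx hy => lt_irrefl _ (b.LZ x hx x hy)

lemma Blk.dLR (b : Blk X L Z R t s) : Disjoint L R :=
  disjoint_left.2 fun x hx hy => lt_irrefl _ (b.LR x hx x hy)

lemma Blk.dZR (b : Blk X L Z R t s) : Disjoint Z R :=
  disjoint_left.2 fun x hx hy => lt_irrefl _ (b.ZR x hx x hy)

/-- a subset of `X` splits into its three parts -/
lemma Blk.split (b : Blk X L Z R t s) {A : Finset ℕ} (hA : A ⊆ X) :
    A.card = (A ∩ L).card + (A ∩ Z).card + (A ∩ R).card := by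
  have h : A = (A ∩ L) ∪ (A ∩ Z) ∪ (A ∩ R) := by
    rw [← inter_union_distrib_left, ← inter_union_distrib_left, ← b.hX]
    exact (inter_eq_left.2 hA).symm
  conv_lhs => rw [h]
  rw [card_union_of_disjoint, card_union_of_disjoint]
  · exact b.dLZ.mono inter_subset_right inter_subset_right
  · rw [← inter_union_distrib_left]
    exact Disjoint.mono inter_subset_right inter_subset_right
      (disjoint_union_left.2 ⟨b.dLR, b.dZR⟩)

lemma Blk.cX (b : Blk X L Z R t s) : X.card = t + Z.card + s := by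
  have := b.split (Subset.refl X)
  have h1 : X ∩ L = L := inter_eq_right.2 (by rw [b.hX]; exact subset_union_left.trans subset_union_left)
  have h2 : X ∩ Z = Z := inter_eq_right.2 (by rw [b.hX]; exact subset_union_right.trans subset_union_left)
  have h3 : X ∩ R = R := inter_eq_right.2 (by rw [b.hX]; exact subset_union_right)
  rw [h1, h2, h3, b.cL, b.cR] at this
  exact this

lemma Blk.LX (b : Blk X L Z R t s) : L ⊆ X := by
  rw [b.hX]; exact subset_union_left.trans subset_union_left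
lemma Blk.ZX (b : Blk X L Z R t s) : Z ⊆ X := by
  rw [b.hX]; exact subset_union_right.trans subset_union_left
lemma Blk.RX (b : Blk X L Z R t s) : R ⊆ X := by
  rw [b.hX]; exact subset_union_right

lemma card_ie (P A B : Finset ℕ) :
    (P \ (A ∪ B)).card + (P ∩ A).card + (P ∩ B).card = P.card + (P ∩ (A ∩ B)).card := by
  have h1 : (P \ (A ∪ B)).card + (P ∩ (A ∪ B)).card = P.card := by
    rw [add_comm]; exact card_inter_add_card_sdiff _ _
  have h2 := card_union_add_card_inter (P ∩ A) (P ∩ B)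
  rw [← inter_union_distrib_left, ← inter_inter_distrib_left] at h2
  omega

/-- (1): two members meet in `t` points outside `R` -/
lemma one (b : Blk X L Z R t s) (hF : Fam F X t s) (hs : Sh F X) {A B : Finset ℕ} (hA : A ∈ F)
    (hB : B ∈ F) : t ≤ ((A ∩ B) ∩ L).card + ((A ∩ B) ∩ Z).card := by
  obtain ⟨hX, hp⟩ := hF
  -- K = A ∩ B ∩ R, K' in the common complement outside R
  set K := (A ∩ B) ∩ R with hK
  have h1 := hp A hA B hB
  have hAX := hX A hA
  have hBX := hX B hB
  have hc := card_ie X A B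
  rw [inter_eq_right.2 hAX, inter_eq_right.2 hBX,
    inter_eq_right.2 (inter_subset_left.trans hAX)] at hc
  have hcR := card_ie R A B
  have hsp := b.split (A := X \ (A ∪ B)) sdiff_subset
  have hR1 : (X \ (A ∪ B)) ∩ R = R \ (A ∪ B) := by
    ext z
    simp only [mem_inter, mem_sdiff]
    constructor
    · rintro ⟨⟨_, h⟩, h'⟩; exact ⟨h', h⟩
    · rintro ⟨h, h'⟩; exact ⟨⟨b.RX h, h'⟩, h⟩
  rw [hR1] at hsp
  have hRA : (R ∩ (A ∩ B)).card ≤ (R ∩ A).card :=
    card_le_card (inter_subset_inter_left inter_subset_left)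
  have hRB : (R ∩ (A ∩ B)).card ≤ (R ∩ B).card :=
    card_le_card (inter_subset_inter_left inter_subset_right)
  have hKc : K.card = (R ∩ (A ∩ B)).card := by rw [hK, inter_comm]
  have hcR' := b.cR
  have hbig : K.card ≤ ((X \ (A ∪ B)) \ R).card := by
    have : ((X \ (A ∪ B)) \ R).card + ((X \ (A ∪ B)) ∩ R).card = (X \ (A ∪ B)).card := by
      rw [add_comm]; exact card_inter_add_card_sdiff _ _
    rw [hR1] at this
    omega
  obtain ⟨K', hK'1, hK'2⟩ := exists_subset_card_eq hbig
  have hA' : (A \ K) ∪ K' ∈ F := by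
    refine block hs hX K.card A K K' rfl hK'2 hA ?_ ?_ ?_ ?_
    · rw [hK]; exact inter_subset_left.trans inter_subset_left
    · exact hK'1.trans (sdiff_subset.trans sdiff_subset)
    · rw [disjoint_left]
      intro x hx hxA
      have := hK'1 hx
      simp only [mem_sdiff, mem_union, not_or] at this
      exact this.1.2.1 hxA
    · intro x hx y hy
      have h2 := hK'1 hx
      simp only [mem_sdiff, mem_union, not_or] at h2
      have h3 : x ∈ L ∪ Z ∪ R := by rw [← b.hX]; exact h2.1.1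
      have hyR : y ∈ R := by rw [hK] at hy; exact (mem_inter.1 hy).2
      simp only [mem_union] at h3
      rcases h3 with (h3 | h3) | h3
      · exact b.LR x h3 y hyR
      · exact b.ZR x h3 y hyR
      · exact absurd h3 h2.2
  have h4 := (hp _ hA' B hB).1
  have h5 : ((A \ K) ∪ K') ∩ B ⊆ ((A ∩ B) ∩ L) ∪ ((A ∩ B) ∩ Z) := by
    intro z hz
    simp only [mem_inter, mem_union, mem_sdiff] at hz
    obtain ⟨hz1, hzB⟩ := hz
    rcases hz1 with ⟨hzA, hzK⟩ | hzK'
    · have h6 : z ∈ L ∪ Z ∪ R := by rw [← b.hX]; exact hAX hzA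
      simp only [mem_union] at h6
      have : z ∉ R := fun h => hzK (by rw [hK]; simp [hzA, hzB, h])
      simp only [mem_union, mem_inter]
      rcases h6 with (h6 | h6) | h6
      · exact Or.inl ⟨⟨hzA, hzB⟩, h6⟩
      · exact Or.inr ⟨⟨hzA, hzB⟩, h6⟩
      · exact absurd h6 this
    · have := hK'1 hzK'
      simp only [mem_sdiff, mem_union, not_or] at this
      exact absurd hzB this.1.2.2
  exact h4.trans ((card_le_card h5).trans (card_union_le _ _))

/-- (1'): two members have `s` common missing points outside `L` -/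
lemma one' (b : Blk X L Z R t s) (hF : Fam F X t s) (hs : Sh F X) {A B : Finset ℕ} (hA : A ∈ F)
    (hB : B ∈ F) : s ≤ (Z \ (A ∪ B)).card + (R \ (A ∪ B)).card := by
  obtain ⟨hX, hp⟩ := hF
  set K' := L \ (A ∪ B) with hK'
  have hkk : K'.card = (L \ (A ∪ B)).card := by rw [hK']
  have h1 := hp A hA B hB
  have hAX := hX A hA
  have hBX := hX B hB
  have hcL := card_ie L A B
  have hLA : (L ∩ (A ∩ B)).card ≤ (L ∩ A).card :=
    card_le_card (inter_subset_inter_left inter_subset_left)
  have hLA' : (L ∩ A).card ≤ L.card := card_le_card inter_subset_left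
  have hLB : (L ∩ B).card ≤ L.card := card_le_card inter_subset_left
  have hLB' : (L ∩ (A ∩ B)).card ≤ (L ∩ B).card :=
    card_le_card (inter_subset_inter_left inter_subset_right)
  have hcL' := b.cL
  have hbig : K'.card ≤ ((A ∩ B) \ L).card := by
    have : ((A ∩ B) \ L).card + ((A ∩ B) ∩ L).card = (A ∩ B).card := by
      rw [add_comm]; exact card_inter_add_card_sdiff _ _
    rw [inter_comm (A ∩ B) L] at this
    omega
  obtain ⟨K, hK1, hK2⟩ := exists_subset_card_eq hbig
  have hA' : (A \ K) ∪ K' ∈ F := by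
    refine block hs hX K'.card A K K' hK2 rfl hA ?_ ?_ ?_ ?_
    · exact hK1.trans (sdiff_subset.trans inter_subset_left)
    · exact sdiff_subset.trans b.LX
    · rw [disjoint_left]
      intro x hx hxA
      rw [hK'] at hx
      simp only [mem_sdiff, mem_union, not_or] at hx
      exact hx.2.1 hxA
    · intro x hx y hy
      have h2 := hK1 hy
      rw [hK'] at hx
      simp only [mem_sdiff, mem_inter] at h2 hx
      have h3 : y ∈ L ∪ Z ∪ R := by rw [← b.hX]; exact hAX h2.1.1
      simp only [mem_union] at h3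
      rcases h3 with (h3 | h3) | h3
      · exact absurd h3 h2.2
      · exact b.LZ x hx.1 y h3
      · exact b.LR x hx.1 y h3
  have h4 := (hp _ hA' B hB).2
  have h4X := hX _ hA'
  have hc := card_ie X ((A \ K) ∪ K') B
  rw [inter_eq_right.2 h4X, inter_eq_right.2 hBX,
    inter_eq_right.2 (inter_subset_left.trans h4X)] at hc
  have h5 : X \ (((A \ K) ∪ K') ∪ B) ⊆ (Z \ (A ∪ B)) ∪ (R \ (A ∪ B)) := by
    intro z hz
    simp only [mem_sdiff, mem_union, not_or, not_and, not_not] at hz
    obtain ⟨hzX, ⟨hz1, hz2⟩, hz3⟩ := hz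
    have hzA : z ∉ A := by
      intro h
      have := hK1 (hz1 h)
      simp only [mem_sdiff, mem_inter] at this
      exact hz3 this.1.2
    have h6 : z ∈ L ∪ Z ∪ R := by rw [← b.hX]; exact hzX
    simp only [mem_union, mem_sdiff, not_or] at h6 ⊢
    rcases h6 with (h6 | h6) | h6
    · exact absurd (by rw [hK']; simp [h6, hzA, hz3]) hz2
    · exact Or.inl ⟨h6, hzA, hz3⟩
    · exact Or.inr ⟨h6, hzA, hz3⟩
  have h7 := (card_le_card h5).trans (card_union_le _ _)
  omega

/-- (2) -/
lemma two (b : Blk X L Z R t s) (hF : Fam F X t s) (hs : Sh F X) {A B : Finset ℕ} (hA : A ∈ F)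
    (hB : B ∈ F) : (L \ A).card + (L \ B).card ≤ ((A ∩ B) ∩ Z).card := by
  obtain ⟨hX, hp⟩ := hF
  have h1 := one b ⟨hX, hp⟩ hs hA hB
  have hAX := hX A hA
  set K' := L \ (A ∪ B) with hK'
  have hkk : K'.card = (L \ (A ∪ B)).card := by rw [hK']
  have hcL := card_ie L A B
  have hLA : (L ∩ A).card + (L \ A).card = L.card := card_inter_add_card_sdiff _ _
  have hLB : (L ∩ B).card + (L \ B).card = L.card := card_inter_add_card_sdiff _ _
  have hLAB : (L ∩ (A ∩ B)).card ≤ (L ∩ A).card :=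
    card_le_card (inter_subset_inter_left inter_subset_left)
  have hLAB' : (L ∩ (A ∩ B)).card ≤ (L ∩ B).card :=
    card_le_card (inter_subset_inter_left inter_subset_right)
  have hcL' := b.cL
  rw [inter_comm (A ∩ B) L] at h1
  have hbig : K'.card ≤ ((A ∩ B) ∩ Z).card := by omega
  obtain ⟨K, hK1, hK2⟩ := exists_subset_card_eq hbig
  have hA' : (A \ K) ∪ K' ∈ F := by
    refine block hs hX K'.card A K K' hK2 rfl hA ?_ ?_ ?_ ?_
    · exact hK1.trans (inter_subset_left.trans inter_subset_left)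
    · exact sdiff_subset.trans b.LX
    · rw [disjoint_left]
      intro x hx hxA
      rw [hK'] at hx
      simp only [mem_sdiff, mem_union, not_or] at hx
      exact hx.2.1 hxA
    · intro x hx y hy
      have h2 := hK1 hy
      rw [hK'] at hx
      simp only [mem_sdiff, mem_inter] at h2 hx
      exact b.LZ x hx.1 y h2.2
  have h4 := one b ⟨hX, hp⟩ hs hA' hB
  have e1 : (((A \ K) ∪ K') ∩ B) ∩ L ⊆ L ∩ (A ∩ B) := by
    intro z hz
    simp only [mem_inter, mem_union, mem_sdiff] at hz ⊢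
    obtain ⟨⟨hz1, hzB⟩, hzL⟩ := hz
    rcases hz1 with h | h
    · exact ⟨hzL, h.1, hzB⟩
    · rw [hK'] at h
      simp only [mem_sdiff, mem_union, not_or] at h
      exact absurd hzB h.2.2
  have e2 : (((A \ K) ∪ K') ∩ B) ∩ Z ⊆ ((A ∩ B) ∩ Z) \ K := by
    intro z hz
    simp only [mem_inter, mem_union, mem_sdiff] at hz ⊢
    obtain ⟨⟨hz1, hzB⟩, hzL⟩ := hz
    rcases hz1 with h | h
    · exact ⟨⟨⟨h.1, hzB⟩, hzL⟩, h.2⟩
    · rw [hK'] at h
      simp only [mem_sdiff, mem_union, not_or] at h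
      exact absurd hzB h.2.2
  have e3 : (((A ∩ B) ∩ Z) \ K).card + K.card = ((A ∩ B) ∩ Z).card := card_sdiff_add_card_eq_card hK1
  have e4 := card_le_card e1
  have e5 := card_le_card e2
  omega

/-- (2') -/
lemma two' (b : Blk X L Z R t s) (hF : Fam F X t s) (hs : Sh F X) {A B : Finset ℕ} (hA : A ∈ F)
    (hB : B ∈ F) : (R ∩ A).card + (R ∩ B).card ≤ (Z \ (A ∪ B)).card := by
  obtain ⟨hX, hp⟩ := hF
  have h1 := one' b ⟨hX, hp⟩ hs hA hB
  have hAX := hX A hA
  set K := R ∩ (A ∩ B) with hK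
  have hkk : K.card = (R ∩ (A ∩ B)).card := by rw [hK]
  have hcR := card_ie R A B
  have hRA : (R ∩ (A ∩ B)).card ≤ (R ∩ A).card :=
    card_le_card (inter_subset_inter_left inter_subset_left)
  have hRB : (R ∩ (A ∩ B)).card ≤ (R ∩ B).card :=
    card_le_card (inter_subset_inter_left inter_subset_right)
  have hcR' := b.cR
  have hbig : K.card ≤ (Z \ (A ∪ B)).card := by omega
  obtain ⟨K', hK1, hK2⟩ := exists_subset_card_eq hbig
  have hA' : (A \ K) ∪ K' ∈ F := by
    refine block hs hX K.card A K K' rfl hK2 hA ?_ ?_ ?_ ?_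
    · exact inter_subset_right.trans inter_subset_left
    · exact hK1.trans (sdiff_subset.trans b.ZX)
    · rw [disjoint_left]
      intro x hx hxA
      have := hK1 hx
      simp only [mem_sdiff, mem_union, not_or] at this
      exact this.2.1 hxA
    · intro x hx y hy
      have h2 := hK1 hx
      rw [hK] at hy
      exact b.ZR x (mem_sdiff.1 h2).1 y (mem_inter.1 hy).1
  have h4 := one' b ⟨hX, hp⟩ hs hA' hB
  have e1 : Z \ (((A \ K) ∪ K') ∪ B) ⊆ (Z \ (A ∪ B)) \ K' := by
    intro z hz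
    simp only [mem_sdiff, mem_union, not_or, not_and, not_not] at hz ⊢
    obtain ⟨hzZ, ⟨hz1, hz2⟩, hz3⟩ := hz
    refine ⟨⟨hzZ, ?_, hz3⟩, hz2⟩
    intro h
    have := hz1 h
    rw [hK] at this
    exact hz3 (mem_inter.1 (mem_inter.1 this).2).2
  have e2 : R \ (((A \ K) ∪ K') ∪ B) ⊆ R \ (A ∪ B) := by
    intro z hz
    simp only [mem_sdiff, mem_union, not_or, not_and, not_not] at hz ⊢
    obtain ⟨hzZ, ⟨hz1, hz2⟩, hz3⟩ := hz
    refine ⟨hzZ, ?_, hz3⟩
    intro h
    have := hz1 h
    rw [hK] at this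
    exact hz3 (mem_inter.1 (mem_inter.1 this).2).2
  have e3 : ((Z \ (A ∪ B)) \ K').card + K'.card = (Z \ (A ∪ B)).card := card_sdiff_add_card_eq_card hK1
  have e4 := card_le_card e1
  have e5 := card_le_card e2
  omega

end Pool.Agent.MP_867aae_co.H75
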