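import Mathlib
import Pool.Agent.MP_867aae_co.H75.Core

/-!
A simple upper bound for t-intersecting and s-union families (Wang's recursion).
-/

namespace Pool.Agent.MP_867aae_co.H75

open Finset

lemma compl_fam {G : Finset (Finset ℕ)} {Z : Finset ℕ} {t s : ℕ} (hG : Fam G Z t s) :
    Fam (G.image (fun A => Z \ A)) Z s t ∧ (G.image (fun A => Z \ A)).card = G.card := by
  constructor
  · constructor
    · intro A hA
      obtain ⟨B, _, rfl⟩ := mem_image.1 hA
      exact sdiff_subset
    · intro A hA B hB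
      obtain ⟨A0, hA0, rfl⟩ := mem_image.1 hA
      obtain ⟨B0, hB0, rfl⟩ := mem_image.1 hB
      have h1 := hG.2 A0 hA0 B0 hB0
      have hAX := hG.1 A0 hA0
      have hBX := hG.1 B0 hB0
      have hc := card_ie Z A0 B0
      rw [inter_eq_right.2 hAX, inter_eq_right.2 hBX,
        inter_eq_right.2 (inter_subset_left.trans hAX)] at hc
      have e1 : (Z \ A0) ∩ (Z \ B0) = Z \ (A0 ∪ B0) := by
        ext z
        simp only [mem_inter, mem_sdiff, mem_union]
        tauto
      have e2 : (Z \ A0).card + A0.card = Z.card := card_sdiff_add_card_eq_card hAX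
      have e3 : (Z \ B0).card + B0.card = Z.card := card_sdiff_add_card_eq_card hBX
      rw [e1]
      omega
  · apply card_image_of_injOn
    intro A hA B hB h
    have hAX := hG.1 A hA
    have hBX := hG.1 B hB
    simp only at h
    rw [← Finset.sdiff_sdiff_eq_self hAX, ← Finset.sdiff_sdiff_eq_self hBX, h]

lemma fam_empty {G : Finset (Finset ℕ)} {Z : Finset ℕ} {t s : ℕ} (hG : Fam G Z t s)
    (h : Z.card < t + s) : G = ∅ := by
  by_contra hne
  obtain ⟨A, hA⟩ := nonempty_iff_ne_empty.2 hne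
  have := hG.2 A hA A hA
  rw [inter_self] at this
  omega

lemma wang_aux (n : ℕ)
    (ih : ∀ (t s N : ℕ) (G : Finset (Finset ℕ)) (Z : Finset ℕ), Z.card = n → Fam G Z t s →
      n = t + s + N → G.card ≤ 2 ^ (N % 2) * (n + 2) ^ (N / 2))
    (t s N : ℕ) (G : Finset (Finset ℕ)) (Z : Finset ℕ) (hZ : Z.card = n + 1)
    (hG : Fam G Z (t + 1) s) (hn : n + 1 = (t + 1) + s + N) :
    G.card ≤ 2 ^ (N % 2) * (n + 3) ^ (N / 2) := by
  obtain ⟨G', hG', hs, hc⟩ := exists_shifted _ G rfl hG
  rw [← hc]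
  clear hc hG G
  have hne : Z.Nonempty := by rw [← card_pos]; omega
  set z := Z.min' hne with hz
  have hzZ : z ∈ Z := min'_mem _ _
  have hmin : ∀ x ∈ Z, x ≠ z → z < x := fun x hx hxz =>
    lt_of_le_of_ne (min'_le _ _ hx) (Ne.symm hxz)
  set G1 := (G'.filter (fun A => z ∈ A)).image (fun A => A.erase z) with hG1
  set G0 := G'.filter (fun A => z ∉ A) with hG0
  have hcard : G'.card = G1.card + G0.card := by
    rw [hG1, card_image_of_injOn, hG0, card_filter_add_card_filter_not]
    intro A hA B hB h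
    have hA' : z ∈ A := (mem_filter.1 (mem_coe.1 hA)).2
    have hB' : z ∈ B := (mem_filter.1 (mem_coe.1 hB)).2
    rw [← insert_erase hA', ← insert_erase hB']
    simp only at h
    rw [h]
  have hZ' : (Z.erase z).card = n := by rw [card_erase_of_mem hzZ]; omega
  have f1 : Fam G1 (Z.erase z) t s := by
    constructor
    · intro A hA
      obtain ⟨B, hB, rfl⟩ := mem_image.1 hA
      exact erase_subset_erase _ (hG'.1 B (mem_filter.1 hB).1)
    · intro A hA B hB
      obtain ⟨A0, hA0, rfl⟩ := mem_image.1 hA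
      obtain ⟨B0, hB0, rfl⟩ := mem_image.1 hB
      rw [mem_filter] at hA0 hB0
      have h1 := hG'.2 A0 hA0.1 B0 hB0.1
      have e1 : A0.erase z ∩ B0.erase z = (A0 ∩ B0).erase z := by
        ext y; simp only [mem_inter, mem_erase]; tauto
      rw [e1, card_erase_of_mem (mem_inter.2 ⟨hA0.2, hB0.2⟩), card_erase_of_mem hA0.2,
        card_erase_of_mem hB0.2, hZ']
      have : 0 < A0.card := card_pos.2 ⟨z, hA0.2⟩
      have : 0 < B0.card := card_pos.2 ⟨z, hB0.2⟩
      have : 0 < (A0 ∩ B0).card := card_pos.2 ⟨z, mem_inter.2 ⟨hA0.2, hB0.2⟩⟩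
      omega
  have f0 : Fam G0 (Z.erase z) (t + 2) s := by
    constructor
    · intro A hA
      rw [hG0, mem_filter] at hA
      intro y hy
      exact mem_erase.2 ⟨fun h => hA.2 (h ▸ hy), hG'.1 A hA.1 hy⟩
    · intro A hA B hB
      rw [hG0, mem_filter] at hA hB
      have h1 := hG'.2 A hA.1 B hB.1
      obtain ⟨c, hcm⟩ : (A ∩ B).Nonempty := by rw [← card_pos]; omega
      rw [mem_inter] at hcm
      have hcz : c ≠ z := fun h => hA.2 (h ▸ hcm.1)
      have hcZ : c ∈ Z := hG'.1 A hA.1 hcm.1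
      have hm := hs z hzZ c hcZ (hmin c hcZ hcz) A hA.1 hcm.1 hA.2
      have h2 := hG'.2 _ hm B hB.1
      have h3 := swap_inter (B := B) hcm.1 hA.2
      have h4 := swap_card hcm.1 hA.2
      rw [if_pos hcm.2, if_neg hB.2] at h3
      rw [hZ']
      omega
  have b1 := ih t s N G1 _ hZ' f1 (by omega)
  rcases lt_or_ge N 2 with hN | hN
  · have : G0 = ∅ := fam_empty f0 (by omega)
    rw [hcard, this, card_empty]
    have h0 : N / 2 = 0 := by omega
    rw [h0, pow_zero] at b1 ⊢
    omega
  · have b0 := ih (t + 2) s (N - 2) G0 _ hZ' f0 (by omega)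
    have e1 : (N - 2) % 2 = N % 2 := by omega
    obtain ⟨e, he⟩ : ∃ e, N / 2 = e + 1 := ⟨N / 2 - 1, by omega⟩
    have e2 : (N - 2) / 2 = e := by omega
    rw [e1, e2] at b0
    rw [he] at b1 ⊢
    rw [hcard]
    calc G1.card + G0.card ≤ 2 ^ (N % 2) * (n + 2) ^ (e + 1) + 2 ^ (N % 2) * (n + 2) ^ e :=
          Nat.add_le_add b1 b0
      _ = 2 ^ (N % 2) * ((n + 2) ^ e * (n + 3)) := by ring
      _ ≤ 2 ^ (N % 2) * ((n + 3) ^ e * (n + 3)) := by
          apply Nat.mul_le_mul_left
          apply Nat.mul_le_mul_right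
          exact Nat.pow_le_pow_left (by omega) e
      _ = 2 ^ (N % 2) * (n + 3) ^ (e + 1) := by ring

lemma wang (n : ℕ) : ∀ (t s N : ℕ) (G : Finset (Finset ℕ)) (Z : Finset ℕ), Z.card = n →
    Fam G Z t s → n = t + s + N → G.card ≤ 2 ^ (N % 2) * (n + 2) ^ (N / 2) := by
  have base : ∀ (N : ℕ) (G : Finset (Finset ℕ)) (Z : Finset ℕ), Z.card = N → Fam G Z 0 0 →
      G.card ≤ 2 ^ (N % 2) * (N + 2) ^ (N / 2) := by
    intro N G Z hZ hG
    have h1 : G ⊆ Z.powerset := fun A hA => mem_powerset.2 (hG.1 A hA)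
    have h2 := card_le_card h1
    rw [card_powerset, hZ] at h2
    refine h2.trans ?_
    have h3 : 2 ^ N = 2 ^ (N % 2) * 4 ^ (N / 2) := by
      have : (4 : ℕ) = 2 ^ 2 := by norm_num
      rw [this, ← pow_mul, ← pow_add]
      congr 1
      omega
    rw [h3]
    apply Nat.mul_le_mul_left
    rcases Nat.eq_zero_or_pos (N / 2) with h | h
    · rw [h]; simp
    · exact Nat.pow_le_pow_left (by omega) _
  induction n with
  | zero =>
    intro t s N G Z hZ hG hn
    have ht : t = 0 := by omega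
    have hs : s = 0 := by omega
    have hN : N = 0 := by omega
    subst ht hs hN
    simpa using base 0 G Z hZ hG
  | succ n ih =>
    intro t s N G Z hZ hG hn
    rcases t with _ | t
    · rcases s with _ | s
      · have hN : N = n + 1 := by omega
        subst hN
        exact base _ G Z hZ hG
      · obtain ⟨h1, h2⟩ := compl_fam hG
        rw [← h2]
        exact wang_aux n ih s 0 N _ Z hZ h1 (by omega)
    · exact wang_aux n ih t s N G Z hZ hG hn

end Pool.Agent.MP_867aae_co.H75
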