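import Mathlib
import Pool.Agent.MP_867aae_co.H75.Wang
import Pool.Agent.MP_867aae_co.H75.Binom

/-!
Counting members of a compressed family by type.
-/

namespace Pool.Agent.MP_867aae_co.H75

open Finset

variable {F : Finset (Finset ℕ)} {X L Z R : Finset ℕ} {t s : ℕ}

/-- number of small subsets -/
lemma card_small (Q : Finset ℕ) (b : ℕ) :
    (Q.powerset.filter (fun A => A.card ≤ b)).card = Ball Q.card b := by
  unfold Ball
  rw [card_eq_sum_card_fiberwise (f := fun A => A.card) (t := range (b + 1))]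
  · apply sum_congr rfl
    intro j hj
    rw [mem_range] at hj
    rw [← card_powersetCard]
    congr 1
    ext A
    simp only [mem_filter, mem_powerset, mem_powersetCard]
    constructor
    · rintro ⟨⟨h1, _⟩, h2⟩; exact ⟨h1, h2⟩
    · rintro ⟨h1, h2⟩; exact ⟨⟨h1, by omega⟩, h2⟩
  · intro A hA
    simp only [coe_filter, mem_powerset, Set.mem_ofPred_eq] at hA
    simp only [coe_range, Set.mem_Iio]
    omega

lemma prod_bound {G : Finset (Finset ℕ)} {P Q : Finset ℕ} {a b : ℕ}
    (hinj : ∀ B ∈ G, ∀ C ∈ G, P \ B = P \ C → Q ∩ B = Q ∩ C → B = C)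
    (hP : ∀ B ∈ G, (P \ B).card ≤ a) (hQ : ∀ B ∈ G, (Q ∩ B).card ≤ b) :
    G.card ≤ Ball P.card a * Ball Q.card b := by
  rw [← card_small P a, ← card_small Q b, ← card_product]
  apply card_le_card_of_injOn (fun B => (P \ B, Q ∩ B))
  · intro B hB
    simp only [coe_product, Set.mem_prod, mem_coe, mem_filter, mem_powerset]
    exact ⟨⟨sdiff_subset, hP B hB⟩, ⟨inter_subset_left, hQ B hB⟩⟩
  · intro B hB C hC h
    simp only [Prod.mk.injEq] at h
    exact hinj B hB C hC h.1 h.2

lemma cover_inj {P Q B C : Finset ℕ} (hB : B ⊆ P ∪ Q) (hC : C ⊆ P ∪ Q) (h1 : P \ B = P \ C)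
    (h2 : Q ∩ B = Q ∩ C) : B = C := by
  have key : ∀ {B C : Finset ℕ}, B ⊆ P ∪ Q → P \ B = P \ C → Q ∩ B = Q ∩ C → B ⊆ C := by
    intro B C hB h1 h2 x hx
    rcases mem_union.1 (hB hx) with h | h
    · by_contra hc
      have : x ∈ P \ C := mem_sdiff.2 ⟨h, hc⟩
      rw [← h1] at this
      exact (mem_sdiff.1 this).2 hx
    · have : x ∈ Q ∩ B := mem_inter.2 ⟨h, hx⟩
      rw [h2] at this
      exact (mem_inter.1 this).2
  exact Subset.antisymm (key hB h1 h2) (key hC h1.symm h2.symm)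

lemma cover_inj_f {P Q B C : Finset ℕ} {f : ℕ} (hB : B ⊆ insert f (P ∪ Q))
    (hC : C ⊆ insert f (P ∪ Q)) (hf : f ∈ B ↔ f ∈ C) (h1 : P \ B = P \ C)
    (h2 : Q ∩ B = Q ∩ C) : B = C := by
  have key : ∀ {B C : Finset ℕ}, B ⊆ insert f (P ∪ Q) → (f ∈ B ↔ f ∈ C) → P \ B = P \ C →
      Q ∩ B = Q ∩ C → B ⊆ C := by
    intro B C hB hf h1 h2 x hx
    rcases mem_insert.1 (hB hx) with h | h
    · subst h; exact hf.1 hx
    rcases mem_union.1 h with h | h
    · by_contra hc
      have : x ∈ P \ C := mem_sdiff.2 ⟨h, hc⟩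
      rw [← h1] at this
      exact (mem_sdiff.1 this).2 hx
    · have : x ∈ Q ∩ B := mem_inter.2 ⟨h, hx⟩
      rw [h2] at this
      exact (mem_inter.1 this).2
  exact Subset.antisymm (key hB hf h1 h2) (key hC hf.symm h1.symm h2.symm)

/-- the part of `F` of type `(i, j)` -/
def Ty (F : Finset (Finset ℕ)) (L R : Finset ℕ) (i j : ℕ) : Finset (Finset ℕ) :=
  F.filter (fun A => (L \ A).card = i ∧ (R ∩ A).card = j)

/-- its cores -/
def Co (F : Finset (Finset ℕ)) (L Z R : Finset ℕ) (i j : ℕ) : Finset (Finset ℕ) :=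
  (Ty F L R i j).image (fun A => Z ∩ A)

lemma card_Ty_le (b : Blk X L Z R t s) (hX : ∀ A ∈ F, A ⊆ X) (i j : ℕ) :
    (Ty F L R i j).card ≤ t.choose i * s.choose j * (Co F L Z R i j).card := by
  rw [← b.cL, ← b.cR, ← card_powersetCard, ← card_powersetCard, ← card_product, ← card_product]
  apply card_le_card_of_injOn (fun A => ((L \ A, R ∩ A), Z ∩ A))
  · intro A hA
    have hA' := hA
    simp only [Ty, coe_filter, Set.mem_ofPred_eq] at hA
    simp only [coe_product, Set.mem_prod, mem_coe, mem_powersetCard]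
    refine ⟨⟨⟨sdiff_subset, hA.2.1⟩, ⟨inter_subset_left, hA.2.2⟩⟩, ?_⟩
    exact mem_image.2 ⟨A, hA', rfl⟩
  · intro A hA B hB h
    simp only [Ty, coe_filter, Set.mem_ofPred_eq] at hA hB
    simp only [Prod.mk.injEq] at h
    apply cover_inj (P := L) (Q := Z ∪ R)
    · rw [← union_assoc, ← b.hX]; exact hX A hA.1
    · rw [← union_assoc, ← b.hX]; exact hX B hB.1
    · exact h.1.1
    · rw [union_inter_distrib_right, union_inter_distrib_right, h.2, h.1.2]

lemma two_ie (A B Z : Finset ℕ) : ((Z ∩ A) ∩ (Z ∩ B)).card = ((A ∩ B) ∩ Z).card := by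
  congr 1
  ext x
  simp only [mem_inter]
  tauto

lemma Co_fam (b : Blk X L Z R t s) (hF : Fam F X t s) (hs : Sh F X) (i j : ℕ) :
    Fam (Co F L Z R i j) Z (2 * i) (2 * j) := by
  constructor
  · intro A hA
    obtain ⟨B, _, rfl⟩ := mem_image.1 hA
    exact inter_subset_left
  · intro A hA B hB
    obtain ⟨A0, hA0, rfl⟩ := mem_image.1 hA
    obtain ⟨B0, hB0, rfl⟩ := mem_image.1 hB
    simp only [Ty, mem_filter] at hA0 hB0
    have h1 := two b hF hs hA0.1 hB0.1
    have h2 := two' b hF hs hA0.1 hB0.1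
    rw [hA0.2.1, hB0.2.1] at h1
    rw [hA0.2.2, hB0.2.2] at h2
    have h3 := card_ie Z A0 B0
    have h4 := two_ie A0 B0 Z
    rw [inter_comm Z (A0 ∩ B0)] at h3
    rw [h4]
    omega

lemma self_ineq (b : Blk X L Z R t s) (hF : Fam F X t s) (hs : Sh F X) {A : Finset ℕ}
    (hA : A ∈ F) : 2 * (L \ A).card ≤ (Z ∩ A).card ∧ (Z ∩ A).card + 2 * (R ∩ A).card ≤ Z.card := by
  have h1 := two b hF hs hA hA
  have h2 := two' b hF hs hA hA
  rw [inter_self, inter_comm A Z] at h1
  rw [union_self] at h2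
  have h3 : (Z ∩ A).card + (Z \ A).card = Z.card := card_inter_add_card_sdiff _ _
  omega

lemma level_bound (b : Blk X L Z R t s) (hF : Fam F X t s) (hs : Sh F X) {c e ε : ℕ}
    (hm : Z.card = 2 * c + (2 * e + ε)) (hε : ε ≤ 1) :
    (F.filter (fun A => (L \ A).card + (R ∩ A).card = c)).card ≤
      (2 * e + ε + 1) * (2 ^ ε * (Z.card + 2) ^ e * Mx t s c) := by
  set G := F.filter (fun A => (L \ A).card + (R ∩ A).card = c) with hG
  set I := G.image (fun A => (L \ A).card) with hI
  have hIc : I.card ≤ 2 * e + ε + 1 := by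
    rcases I.eq_empty_or_nonempty with h | h
    · rw [h]; simp
    · set i0 := I.min' h with hi0
      have h1 : i0 ∈ I := min'_mem _ _
      obtain ⟨A, hA, hAi⟩ := mem_image.1 h1
      rw [hG, mem_filter] at hA
      have h2 : I ⊆ Icc i0 (i0 + (2 * e + ε)) := by
        intro i hi
        rw [mem_Icc]
        refine ⟨min'_le _ _ hi, ?_⟩
        obtain ⟨B, hB, hBi⟩ := mem_image.1 hi
        rw [hG, mem_filter] at hB
        have h3 := two b hF hs hA.1 hB.1
        have h4 := self_ineq b hF hs hA.1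
        have h5 : ((A ∩ B) ∩ Z).card ≤ (Z ∩ A).card := by
          apply card_le_card
          intro x hx
          simp only [mem_inter] at hx ⊢
          exact ⟨hx.2, hx.1.1⟩
        omega
      have h3 := card_le_card h2
      rw [Nat.card_Icc] at h3
      omega
  have h1 : G = I.biUnion (fun i => Ty F L R i (c - i)) := by
    ext A
    simp only [mem_biUnion, Ty, mem_filter]
    constructor
    · intro hA
      have hA' := hA
      rw [hG, mem_filter] at hA
      exact ⟨(L \ A).card, mem_image.2 ⟨A, hA', rfl⟩, hA.1, rfl, by omega⟩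
    · rintro ⟨i, hi, hA, h2, h3⟩
      rw [hG, mem_filter]
      obtain ⟨B, hB, hBi⟩ := mem_image.1 hi
      rw [hG, mem_filter] at hB
      exact ⟨hA, by omega⟩
  have h2 : ∀ i ∈ I, (Ty F L R i (c - i)).card ≤ 2 ^ ε * (Z.card + 2) ^ e * Mx t s c := by
    intro i hi
    obtain ⟨B, hB, hBi⟩ := mem_image.1 hi
    rw [hG, mem_filter] at hB
    have h3 := card_Ty_le b hF.1 i (c - i)
    have h4 := wang Z.card (2 * i) (2 * (c - i)) (2 * e + ε) _ Z rfl
      (Co_fam b hF hs i (c - i)) (by omega)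
    have e1 : (2 * e + ε) % 2 = ε := by omega
    have e2 : (2 * e + ε) / 2 = e := by omega
    rw [e1, e2] at h4
    have h5 : t.choose i * s.choose (c - i) ≤ Mx t s c := le_Mx (by omega)
    calc (Ty F L R i (c - i)).card ≤ t.choose i * s.choose (c - i) * (Co F L Z R i (c - i)).card := h3
      _ ≤ Mx t s c * (2 ^ ε * (Z.card + 2) ^ e) := Nat.mul_le_mul h5 h4
      _ = _ := by ring
  rw [h1]
  refine card_biUnion_le.trans ((sum_le_card_nsmul _ _ _ h2).trans ?_)
  rw [smul_eq_mul]
  exact Nat.mul_le_mul_right _ hIc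

/-- all the members below the top level -/
lemma low_bound (b : Blk X L Z R t s) (hF : Fam F X t s) (hs : Sh F X) {h ε : ℕ}
    (hm : Z.card = 2 * h + ε) (hε : ε ≤ 1) (hT : 10 * (Z.card + 2) * (h + 1) + h ≤ t + s) :
    F.card ≤ (F.filter (fun A => (L \ A).card + (R ∩ A).card = h)).card + Mx t s h := by
  set N : ℕ → ℕ := fun e => (F.filter (fun A => (L \ A).card + (R ∩ A).card = h - e)).card with hN
  have hsum : F.card = ∑ e ∈ range (h + 1), N e := by
    rw [card_eq_sum_card_fiberwise (f := fun A => (L \ A).card + (R ∩ A).card)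
      (t := range (h + 1))]
    · rw [← sum_range_reflect]
      apply sum_congr rfl
      intro e he
      rw [mem_range] at he
      have : h + 1 - 1 - e = h - e := by omega
      rw [this]
    · intro A hA
      have := self_ineq b hF hs (mem_coe.1 hA)
      simp only [coe_range, Set.mem_Iio]
      omega
  have hconv : ∀ k : ℕ, ∑ e ∈ range (k + 1), N e = N 0 + ∑ e ∈ Icc 1 k, N e := by
    intro k
    induction k with
    | zero => simp
    | succ k ih => rw [sum_range_succ, ih, sum_Icc_succ_top (by omega)]; ring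
  rw [hsum, hconv]
  have h0 : N 0 = (F.filter (fun A => (L \ A).card + (R ∩ A).card = h)).card := by
    rw [hN]; simp
  rw [h0]
  apply Nat.add_le_add_left
  apply level_sum'
  intro e he1 he2
  have h1 := level_bound b hF hs (c := h - e) (e := e) (ε := ε) (by omega) hε
  have h2 := Mx_decay (D := 10 * (Z.card + 2)) hT e he2
  have h3 : (2 * e + ε + 1) * 2 ^ ε ≤ 4 * (e + 1) := by
    interval_cases ε
    · simp; omega
    · simp; omega
  calc 10 ^ e * N e ≤ 10 ^ e * ((2 * e + ε + 1) * (2 ^ ε * (Z.card + 2) ^ e * Mx t s (h - e))) :=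
        Nat.mul_le_mul_left _ h1
    _ = ((2 * e + ε + 1) * 2 ^ ε) * ((10 * (Z.card + 2)) ^ e * Mx t s (h - e)) := by
        rw [mul_pow]; ring
    _ ≤ 4 * (e + 1) * Mx t s h := Nat.mul_le_mul h3 h2

end Pool.Agent.MP_867aae_co.H75
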