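import Mathlib
import Pool.Agent.MP_867aae_co.H75.Binom

/-!
Binomial coefficients and balls with integer lower index.
-/

namespace Pool.Agent.MP_867aae_co.H75

open Finset

/-- binomial coefficient with integer lower index -/
def cz (p : ℕ) (k : ℤ) : ℤ := if 0 ≤ k then (p.choose k.toNat : ℤ) else 0

/-- volume of the ball of integer radius `k` -/
def bz (p : ℕ) (k : ℤ) : ℤ := if 0 ≤ k then (Ball p k.toNat : ℤ) else 0

lemma cz_neg {p : ℕ} {k : ℤ} (h : k < 0) : cz p k = 0 := if_neg (by omega)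

lemma bz_neg {p : ℕ} {k : ℤ} (h : k < 0) : bz p k = 0 := if_neg (by omega)

lemma cz_nat (p k : ℕ) : cz p k = p.choose k := by simp [cz]

lemma bz_nat (p k : ℕ) : bz p k = Ball p k := by simp [bz]

lemma cz_nonneg (p : ℕ) (k : ℤ) : 0 ≤ cz p k := by
  unfold cz; split_ifs <;> positivity

lemma bz_nonneg (p : ℕ) (k : ℤ) : 0 ≤ bz p k := by
  unfold bz; split_ifs <;> positivity

lemma bz_succ (p : ℕ) (k : ℤ) : bz p (k + 1) = bz p k + cz p (k + 1) := by
  rcases lt_trichotomy k (-1) with h | h | h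
  · rw [bz_neg (by omega), bz_neg (by omega), cz_neg (by omega)]; rfl
  · subst h
    simp [bz, cz, Ball_zero]
  · obtain ⟨n, rfl⟩ := Int.eq_ofNat_of_zero_le (show 0 ≤ k by omega)
    have : ((n : ℤ) + 1) = ((n + 1 : ℕ) : ℤ) := by push_cast; ring
    rw [this, bz_nat, bz_nat, cz_nat, Ball_succ_right]
    push_cast; ring

lemma bz_pred (p : ℕ) (k : ℤ) : bz p k = bz p (k - 1) + cz p k := by
  have := bz_succ p (k - 1)
  rw [sub_add_cancel] at this
  exact this

lemma cz_rec (p : ℕ) (k : ℤ) : cz (p + 1) k = cz p k + cz p (k - 1) := by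
  rcases lt_trichotomy k 0 with h | h | h
  · rw [cz_neg h, cz_neg h, cz_neg (by omega)]; rfl
  · subst h
    rw [cz_neg (show (0 : ℤ) - 1 < 0 by omega)]
    simp [cz]
  · obtain ⟨n, rfl⟩ := Int.eq_ofNat_of_zero_le h.le
    obtain ⟨m, rfl⟩ : ∃ m, n = m + 1 := ⟨n - 1, by omega⟩
    have : (((m + 1 : ℕ) : ℤ) - 1) = ((m : ℕ) : ℤ) := by push_cast; ring
    rw [this, cz_nat, cz_nat, cz_nat, Nat.choose_succ_succ]
    push_cast; ring

lemma bz_rec (p : ℕ) (k : ℤ) : bz (p + 1) k = bz p k + bz p (k - 1) := by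
  rcases lt_trichotomy k 0 with h | h | h
  · rw [bz_neg h, bz_neg h, bz_neg (by omega)]; rfl
  · subst h
    rw [bz_neg (show (0 : ℤ) - 1 < 0 by omega)]
    simp [bz, Ball_zero]
  · obtain ⟨n, rfl⟩ := Int.eq_ofNat_of_zero_le h.le
    obtain ⟨m, rfl⟩ : ∃ m, n = m + 1 := ⟨n - 1, by omega⟩
    have : (((m + 1 : ℕ) : ℤ) - 1) = ((m : ℕ) : ℤ) := by push_cast; ring
    rw [this, bz_nat, bz_nat, bz_nat, Ball_succ_left]
    push_cast; ring

lemma bz_mono (p : ℕ) : Monotone (bz p) := by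
  apply monotone_int_of_le_succ
  intro n
  rw [bz_succ]
  have := cz_nonneg p (n + 1)
  omega

lemma cz_big {p : ℕ} {k : ℤ} (h : (p : ℤ) < k) : cz p k = 0 := by
  obtain ⟨n, rfl⟩ := Int.eq_ofNat_of_zero_le (show 0 ≤ k by omega)
  rw [cz_nat, Nat.choose_eq_zero_of_lt (by omega)]
  rfl

lemma cz_symm (p : ℕ) (k : ℤ) : cz p (p - k) = cz p k := by
  by_cases h1 : k < 0
  · rw [cz_neg h1, cz_big (by omega)]
  · by_cases h2 : (p : ℤ) < k
    · rw [cz_big h2, cz_neg (by omega)]
    · obtain ⟨n, rfl⟩ := Int.eq_ofNat_of_zero_le (show 0 ≤ k by omega)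
      have h3 : n ≤ p := by omega
      have : ((p : ℤ) - n) = ((p - n : ℕ) : ℤ) := by push_cast [h3]; ring
      rw [this, cz_nat, cz_nat, Nat.choose_symm h3]

/-- `C(p, k+1) (k+1) = C(p, k) (p - k)` -/
lemma cz_step (p : ℕ) (k : ℤ) : cz p (k + 1) * (k + 1) = cz p k * (p - k) := by
  by_cases h1 : k < -1
  · rw [cz_neg (by omega), cz_neg (by omega)]; ring
  · by_cases h2 : k = -1
    · subst h2
      rw [cz_neg (show (-1 : ℤ) < 0 by omega)]; ring
    · by_cases h3 : (p : ℤ) < k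
      · rw [cz_big h3, cz_big (by omega)]; ring
      · obtain ⟨n, rfl⟩ := Int.eq_ofNat_of_zero_le (show 0 ≤ k by omega)
        have h3 : n ≤ p := by omega
        have e : ((n : ℤ) + 1) = ((n + 1 : ℕ) : ℤ) := by push_cast; ring
        have e2 : ((p : ℤ) - n) = ((p - n : ℕ) : ℤ) := by push_cast [h3]; ring
        rw [e, cz_nat, cz_nat, e2]
        exact_mod_cast Nat.choose_succ_right_eq p n

/-- increasing up to the middle -/
lemma cz_incr {p : ℕ} {m : ℤ} (h : 2 * m + 1 ≤ p) : cz p m ≤ cz p (m + 1) := by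
  by_cases h1 : m < 0
  · rw [cz_neg h1]; exact cz_nonneg _ _
  · have h2 := cz_step p m
    have h3 := cz_nonneg p m
    have h4 := cz_nonneg p (m + 1)
    nlinarith

lemma cz_decr {p : ℕ} {m : ℤ} (h : (p : ℤ) ≤ 2 * m + 1) : cz p (m + 1) ≤ cz p m := by
  rw [← cz_symm p (m + 1), ← cz_symm p m]
  have := cz_incr (p := p) (m := p - (m + 1)) (by omega)
  rwa [show (p : ℤ) - (m + 1) + 1 = p - m by ring] at this

/-- log-concavity -/
lemma cz_lc {p : ℕ} {m m' : ℤ} (h : m' ≤ m) :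
    cz p (m + 1) * cz p m' ≤ cz p m * cz p (m' + 1) := by
  by_cases h1 : m' < 0
  · rw [cz_neg h1, mul_zero]
    exact mul_nonneg (cz_nonneg _ _) (cz_nonneg _ _)
  · by_cases h2 : (p : ℤ) < m + 1
    · rw [cz_big h2, zero_mul]
      exact mul_nonneg (cz_nonneg _ _) (cz_nonneg _ _)
    · have e1 := cz_step p m
      have e2 := cz_step p m'
      have h3 := cz_nonneg p m
      have h4 := cz_nonneg p m'
      have h5 := mul_nonneg h3 h4
      have hpos : 0 < (m + 1) * (m' + 1) := mul_pos (by omega) (by omega)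
      apply le_of_mul_le_mul_right _ hpos
      calc cz p (m + 1) * cz p m' * ((m + 1) * (m' + 1))
          = (cz p (m + 1) * (m + 1)) * cz p m' * (m' + 1) := by ring
        _ = (cz p m * cz p m') * ((p - m) * (m' + 1)) := by rw [e1]; ring
        _ ≤ (cz p m * cz p m') * ((p - m') * (m + 1)) := by
            apply mul_le_mul_of_nonneg_left _ h5
            nlinarith
        _ = cz p m * (m + 1) * (cz p m' * (p - m')) := by ring
        _ = cz p m * cz p (m' + 1) * ((m + 1) * (m' + 1)) := by rw [← e2]; ring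

lemma cz_lc2 {p : ℕ} {m m' : ℤ} (h : m + m' ≤ p - 1) :
    cz p m * cz p m' ≤ cz p (m + 1) * cz p (m' + 1) := by
  have := cz_lc (p := p) (m := p - (m + 1)) (m' := m') (by omega)
  rw [show (p : ℤ) - (m + 1) + 1 = p - m by ring, cz_symm, cz_symm] at this
  exact this

/-- summed version of log-concavity -/
lemma bz_lc {p : ℕ} {x y : ℤ} {M : ℤ} (h : ∀ k ≤ M, x * cz p k ≤ y * cz p (k + 1)) (hy : 0 ≤ y) :
    x * bz p M ≤ y * bz p (M + 1) := by
  by_cases h1 : M < 0
  · rw [bz_neg h1, mul_zero]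
    exact mul_nonneg hy (bz_nonneg _ _)
  · obtain ⟨n, rfl⟩ := Int.eq_ofNat_of_zero_le (show 0 ≤ M by omega)
    clear h1
    induction n with
    | zero =>
      have h2 := h 0 (by simp)
      have e1 : bz p ((0 : ℕ) : ℤ) = cz p 0 := by simp [bz, cz, Ball_zero]
      have e2 : bz p (((0 : ℕ) : ℤ) + 1) = bz p ((0 : ℕ) : ℤ) + cz p (0 + 1) := by
        rw [bz_succ]; simp
      rw [e2, e1]
      have := mul_nonneg hy (cz_nonneg p 0)
      rw [mul_add]
      linarith
    | succ n ih =>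
      have h3 := ih (fun k hk => h k (by push_cast; omega))
      have h4 := h ((n + 1 : ℕ) : ℤ) le_rfl
      have e1 : (((n + 1 : ℕ) : ℤ)) = (n : ℤ) + 1 := by push_cast; ring
      rw [e1] at h4 ⊢
      rw [bz_succ p ((n : ℤ) + 1)]
      rw [bz_succ p (n : ℤ)] at h3 ⊢
      rw [bz_succ p (n : ℤ)] at *
      linarith [h3, h4]

/-- weights that balance a level and its antipode -/
lemma K1 (p : ℕ) (m m' : ℤ) (h1 : m' ≤ m) (h2 : m + m' ≤ p - 1) : ∃ u v : ℤ, 0 < u ∧ 0 ≤ v ∧
    v * bz p m ≤ u * bz p (m + 1) ∧ v * cz p m ≤ u * cz p (m + 1) ∧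
    u * bz p m' ≤ v * bz p (m' + 1) ∧ u * cz p m' ≤ v * cz p (m' + 1) := by
  have hm := bz_mono p (show m ≤ m + 1 by omega)
  have hm' := bz_mono p (show m' ≤ m' + 1 by omega)
  by_cases h3 : 2 * m < p
  · refine ⟨1, 1, by norm_num, by norm_num, by linarith, ?_, by linarith, ?_⟩
    · rw [one_mul, one_mul]; exact cz_incr (by omega)
    · rw [one_mul, one_mul]; exact cz_incr (by omega)
  · by_cases h4 : (p : ℤ) < m
    · refine ⟨1, 1, by norm_num, by norm_num, by linarith, ?_, by linarith, ?_⟩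
      · rw [cz_big h4, cz_big (show (p : ℤ) < m + 1 by omega)]
      · rw [one_mul, one_mul, cz_neg (show m' < 0 by omega)]; exact cz_nonneg _ _
    · have hpos : 0 < cz p m := by
        obtain ⟨n, rfl⟩ := Int.eq_ofNat_of_zero_le (show 0 ≤ m by omega)
        rw [cz_nat]
        exact_mod_cast Nat.choose_pos (by omega)
      refine ⟨cz p m, cz p (m + 1), hpos, cz_nonneg _ _, ?_, ?_, ?_, ?_⟩
      · have := cz_decr (p := p) (m := m) (by omega)
        exact mul_le_mul this hm (bz_nonneg _ _) hpos.le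
      · exact le_of_eq (mul_comm _ _)
      · apply bz_lc _ (cz_nonneg _ _)
        intro k hk
        exact cz_lc2 (by omega)
      · exact cz_lc2 (by omega)

end Pool.Agent.MP_867aae_co.H75
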