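import Mathlib
import Pool.Agent.MP_867aae_co.H75.SBall

/-!
The symmetrised ball volumes: the relative second difference is largest at the centre.
-/

namespace Pool.Agent.MP_867aae_co.H75

lemma cz_mono_half {N : ℕ} {a b : ℤ} (h : a ≤ b) (hb : 2 * b ≤ N + 1) : cz N a ≤ cz N b := by
  obtain ⟨n, rfl⟩ := Int.le.dest h
  clear h
  induction n with
  | zero => simp
  | succ n ih =>
    have h1 := ih (by push_cast at hb; omega)
    have h2 := cz_incr (p := N) (m := a + n) (by push_cast at hb; omega)
    push_cast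
    rw [← add_assoc]
    exact h1.trans h2

lemma cz_closer {N : ℕ} {a b : ℤ} (h : a ≤ b) (hab : a + b ≤ N) : cz N a ≤ cz N b := by
  by_cases h1 : 2 * b ≤ N + 1
  · exact cz_mono_half h h1
  · rw [← cz_symm N b]
    exact cz_mono_half (by omega) (by omega)

/-- `C(p, j) (p+2) (p+1) = C(p+2, j+1) (j+1) (p+1-j)` -/
lemma cz_two (p : ℕ) (j : ℤ) :
    cz p j * ((p + 2) * (p + 1)) = cz (p + 2) (j + 1) * ((j + 1) * (p + 1 - j)) := by
  have e1 := cz_rec (p + 1) (j + 1)
  have e2 := cz_rec p (j + 1)
  have e3 := cz_rec p j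
  have s1 := cz_step p j
  have s2 := cz_step p (j - 1)
  rw [show j + 1 - 1 = j by ring] at e1 e2
  rw [show j - 1 + 1 = j by ring] at s2
  rw [show p + 2 = p + 1 + 1 by ring, e1, e2, e3]
  linear_combination (-(p + 1 - j : ℤ)) * s1 + (j + 1 : ℤ) * s2

section
variable (A B : ℤ) (N : ℕ)

/-- the quadratic `B - A J (N - J)` -/
def qd (J : ℤ) : ℤ := B - A * (J * (N - J))

lemma qd_symm (J : ℤ) : qd A B N (N - J) = qd A B N J := by unfold qd; ring

variable {A B N}

lemma qd_le (hA : 0 ≤ A) {J J' : ℤ} (h : J' ≤ J) (h2 : J + J' ≤ N) :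
    qd A B N J ≤ qd A B N J' := by
  unfold qd
  have : J' * (N - J') ≤ J * (N - J) := by nlinarith
  nlinarith

lemma qd_lc (hA : 0 ≤ A) {J K M1 : ℤ} (h1 : J ≤ K) (h2 : K ≤ M1 - 1) (h3 : 2 * M1 ≤ N - 1)
    (h4 : B ≤ A * (M1 * (N - M1))) :
    qd A B N (J - 1) * qd A B N K ≤ qd A B N (K - 1) * qd A B N J := by
  have key : 2 * (M1 * (N - M1)) ≤ (N + 1) * (N - K - J) + 2 * K * J := by
    obtain ⟨v, rfl⟩ : ∃ v : ℕ, K = J + v := by
      obtain ⟨n, hn⟩ := Int.le.dest h1; exact ⟨n, hn.symm⟩
    obtain ⟨u, rfl⟩ : ∃ u : ℕ, M1 = J + v + u + 1 := by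
      obtain ⟨n, hn⟩ := Int.le.dest h2; exact ⟨n, by omega⟩
    obtain ⟨w, hw⟩ : ∃ w : ℕ, (N : ℤ) = w + 1 + 2 * (J + v + u + 1) := by
      obtain ⟨n, hn⟩ := Int.le.dest h3; exact ⟨n, by omega⟩
    rw [hw]
    have : (0 : ℤ) ≤ w ^ 2 + v * w + 2 * u * w + 5 * w + 2 * u * v + 4 * v + 2 * u ^ 2 + 8 * u + 8 := by
      positivity
    linarith
  have h5 : 0 ≤ (K - J) * A * (A * ((N + 1) * (N - K - J) + 2 * K * J) - 2 * B) := by
    apply mul_nonneg (mul_nonneg (by omega) hA)
    have := mul_le_mul_of_nonneg_left key hA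
    linarith
  have h6 : qd A B N (K - 1) * qd A B N J - qd A B N (J - 1) * qd A B N K =
      (K - J) * A * (A * ((N + 1) * (N - K - J) + 2 * K * J) - 2 * B) := by
    unfold qd; ring
  linarith

/-- the step of the single crossing argument -/
lemma cross (hA : 0 ≤ A) {J K M1 : ℤ} (h1 : J ≤ K) (h3 : 2 * M1 ≤ N - 1) (hK : 2 * K ≤ N)
    (h4 : B ≤ A * (M1 * (N - M1))) (hq : 0 < qd A B N K)
    (hc : cz N J * qd A B N J ≤ cz N K * qd A B N K) :
    0 < qd A B N (K - 1) ∧ cz N (J - 1) * qd A B N (J - 1) ≤ cz N (K - 1) * qd A B N (K - 1) := by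
  have hKM : K ≤ M1 - 1 := by
    by_contra hcon
    have hh : M1 ≤ K := by omega
    have := qd_le (A := A) (B := B) (N := N) hA hh (by omega)
    have h7 : qd A B N M1 ≤ 0 := by unfold qd; linarith
    linarith
  have hq1 : qd A B N K ≤ qd A B N (K - 1) := qd_le hA (by omega) (by omega)
  have hpos : 0 < qd A B N (K - 1) := lt_of_lt_of_le hq hq1
  refine ⟨hpos, ?_⟩
  by_cases hJ : J < 1
  · rw [cz_neg (show J - 1 < 0 by omega), zero_mul]
    exact mul_nonneg (cz_nonneg _ _) hpos.le
  · have hqJ : qd A B N K ≤ qd A B N J := qd_le hA h1 (by omega)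
    have hqJ1 : qd A B N J ≤ qd A B N (J - 1) := qd_le hA (by omega) (by omega)
    have hlc := qd_lc (B := B) hA h1 hKM h3 h4
    have s1 := cz_step N (K - 1)
    have s2 := cz_step N (J - 1)
    rw [sub_add_cancel] at s1 s2
    have hJ0 : 0 < qd A B N J := lt_of_lt_of_le hq hqJ
    have hm : 0 < ((N : ℤ) - (K - 1)) * (N - (J - 1)) * (qd A B N K * qd A B N J) := by
      apply mul_pos (mul_pos (by omega) (by omega)) (mul_pos hq hJ0)
    apply le_of_mul_le_mul_right _ hm
    have hX2 : 0 ≤ cz N J * qd A B N J := mul_nonneg (cz_nonneg _ _) hJ0.le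
    have hX1 : 0 ≤ cz N K * qd A B N K := mul_nonneg (cz_nonneg _ _) hq.le
    have hkj : J * ((N : ℤ) - (K - 1)) ≤ K * (N - (J - 1)) := by nlinarith
    have hkj0 : 0 ≤ J * ((N : ℤ) - (K - 1)) := mul_nonneg (by omega) (by omega)
    have hlc0 : 0 ≤ qd A B N (J - 1) * qd A B N K :=
      mul_nonneg (hJ0.le.trans hqJ1) hq.le
    calc cz N (J - 1) * qd A B N (J - 1) * (((N : ℤ) - (K - 1)) * (N - (J - 1)) *
          (qd A B N K * qd A B N J))
        = (cz N (J - 1) * (N - (J - 1))) * qd A B N J * ((N : ℤ) - (K - 1)) *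
            (qd A B N (J - 1) * qd A B N K) := by ring
      _ = (cz N J * qd A B N J) * (J * ((N : ℤ) - (K - 1))) *
            (qd A B N (J - 1) * qd A B N K) := by rw [← s2]; ring
      _ ≤ (cz N K * qd A B N K) * (K * (N - (J - 1))) *
            (qd A B N (K - 1) * qd A B N J) := by
          apply mul_le_mul _ hlc hlc0
          · exact mul_nonneg hX1 (hkj0.trans hkj)
          · exact mul_le_mul hc hkj hkj0 hX1
      _ = (cz N K * K) * qd A B N K * (N - (J - 1)) * (qd A B N (K - 1) * qd A B N J) := by ring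
      _ = cz N (K - 1) * qd A B N (K - 1) * (((N : ℤ) - (K - 1)) * (N - (J - 1)) *
          (qd A B N K * qd A B N J)) := by rw [s1]; ring

end

/-- the relative second difference of the symmetrised ball volumes is maximal at the centre -/
lemma L1 (p : ℕ) (M : ℤ) (hM : 2 * M ≤ p - 1) (k : ℤ) :
    bz p M * (bz p (M + k + 1) + bz p (M + k - 1) + bz p (M - k + 1) + bz p (M - k - 1)) ≤
      (bz p (M + 1) + bz p (M - 1)) * (bz p (M + k) + bz p (M - k)) := by
  -- reduce to natural `k`
  suffices h : ∀ k : ℕ,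
      bz p M * (bz p (M + k + 1) + bz p (M + k - 1) + bz p (M - k + 1) + bz p (M - k - 1)) ≤
      (bz p (M + 1) + bz p (M - 1)) * (bz p (M + k) + bz p (M - k)) by
    rcases le_total 0 k with hk | hk
    · obtain ⟨n, rfl⟩ := Int.eq_ofNat_of_zero_le hk
      exact h n
    · obtain ⟨n, hn⟩ := Int.eq_ofNat_of_zero_le (show 0 ≤ -k by omega)
      have := h n
      rw [← hn] at this
      simp only [sub_neg_eq_add, ← sub_eq_add_neg] at this
      linarith
  by_cases hM0 : M < 0
  · intro k
    rw [bz_neg hM0, zero_mul]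
    exact mul_nonneg (add_nonneg (bz_nonneg _ _) (bz_nonneg _ _))
      (add_nonneg (bz_nonneg _ _) (bz_nonneg _ _))
  · have hβ : 0 < bz p M := by
      have h1 := bz_mono p (show (0 : ℤ) ≤ M by omega)
      have : bz p 0 = 1 := by simp [bz, Ball_zero]
      omega
    set β := bz p M with hβd
    set D : ℤ → ℤ := fun j => cz p (j + 1) - cz p j with hD
    set δ := D M with hδd
    have hδ : 0 ≤ δ := by
      have := cz_incr (p := p) (m := M) (by omega)
      simp only [hδd, hD]; omega
    set Θ : ℤ → ℤ := fun j => δ * bz p j - β * D j with hΘ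
    have hsecond : ∀ j, bz p (j + 1) + bz p (j - 1) = 2 * bz p j + D j := by
      intro j
      have e1 := bz_succ p j
      have e2 := bz_pred p j
      simp only [hD]
      linarith
    set S : ℕ → ℤ := fun k => Θ (M + k) + Θ (M - k) with hS
    suffices h : ∀ k, 0 ≤ S k by
      intro k
      have h1 := h k
      simp only [hS, hΘ] at h1
      have e1 := hsecond (M + k)
      have e2 := hsecond (M - k)
      have e3 := hsecond M
      rw [e3]
      have : bz p (M + k + 1) + bz p (M + k - 1) + bz p (M - k + 1) + bz p (M - k - 1) =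
        2 * bz p (M + k) + D (M + k) + (2 * bz p (M - k) + D (M - k)) := by linarith
      rw [this]
      linarith
    -- the differences of Θ
    set N : ℕ := p + 2 with hN
    set A := δ + 4 * β with hA
    set B := β * ((p + 2) * (p + 1)) with hB
    have hA0 : 0 ≤ A := by omega
    have hF : ∀ j, (Θ j - Θ (j - 1)) * ((p + 2) * (p + 1)) =
        -(cz N (j + 1) * qd A B N (j + 1)) := by
      intro j
      have e0 := bz_pred p j
      have e1 := cz_rec (p + 1) (j + 1)
      have e2 := cz_rec p (j + 1)
      have e3 := cz_rec p j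
      rw [show j + 1 - 1 = j by ring] at e1 e2
      have e4 := cz_two p j
      have e5 : cz N (j + 1) = cz p (j + 1) + 2 * cz p j + cz p (j - 1) := by
        rw [hN, show p + 2 = p + 1 + 1 by ring, e1, e2, e3]; ring
      have e6 : Θ j - Θ (j - 1) = A * cz p j - β * cz N (j + 1) := by
        simp only [hΘ, hD]
        rw [e5, show j - 1 + 1 = j by ring, e0, hA]; ring
      rw [e6]
      unfold qd
      have e7 : ((N : ℤ) - (j + 1)) = p + 1 - j := by rw [hN]; push_cast; ring
      rw [e7, hB]
      linear_combination A * e4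
    have hS0 : S 0 = 0 := by
      simp only [hS, hΘ, Nat.cast_zero, add_zero, sub_zero]
      rw [← hβd, ← hδd]; ring
    have hstep : ∀ k : ℕ, (S (k + 1) - S k) * ((p + 2) * (p + 1)) =
        cz N (M + 1 - k) * qd A B N (M + 1 - k) -
          cz N (M + 1 + k + 1) * qd A B N (M + 1 + k + 1) := by
      intro k
      have e1 := hF (M + k + 1)
      have e2 := hF (M - k)
      simp only [hS]
      push_cast
      rw [show M + k + 1 - 1 = M + k by ring, show M + k + 1 + 1 = M + 1 + k + 1 by ring] at e1
      rw [show M - k + 1 = M + 1 - k by ring] at e2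
      rw [show M + ((k : ℤ) + 1) = M + k + 1 by ring, show M - ((k : ℤ) + 1) = M - k - 1 by ring]
      linear_combination e1 - e2
    have hpp : (0 : ℤ) < (p + 2) * (p + 1) := by positivity
    -- sign at `M + 1`
    have hsign : B ≤ A * ((M + 1) * (N - (M + 1))) := by
      by_contra hcon
      push Not at hcon
      have hneg : ∀ n : ℕ, (n : ℤ) - 1 ≤ M → Θ ((n : ℤ) - 1) ≤ -β := by
        intro n
        induction n with
        | zero =>
          intro _
          simp only [hΘ, hD, Nat.cast_zero, zero_sub]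
          rw [bz_neg (show (-1 : ℤ) < 0 by omega), cz_neg (show (-1 : ℤ) < 0 by omega)]
          simp [cz]
        | succ n ih =>
          intro hn
          push_cast at hn ⊢
          have h1 := ih (by omega)
          have h2 := hF n
          have h3 : 0 ≤ qd A B N ((n : ℤ) + 1) := by
            have := qd_le (A := A) (B := B) (N := N) hA0 (J := M + 1) (J' := n + 1) (by omega)
              (by rw [hN]; push_cast; omega)
            have h4 : 0 < qd A B N (M + 1) := by unfold qd; linarith
            linarith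
          have h4 : (Θ n - Θ ((n : ℤ) - 1)) * ((p + 2) * (p + 1)) ≤ 0 := by
            rw [h2]
            have := mul_nonneg (cz_nonneg N ((n : ℤ) + 1)) h3
            linarith
          have h5 : Θ n - Θ ((n : ℤ) - 1) ≤ 0 := by
            by_contra h
            push Not at h
            have := mul_pos h hpp
            linarith
          rw [show (n : ℤ) + 1 - 1 = n by ring]
          linarith
      obtain ⟨m, hm⟩ := Int.eq_ofNat_of_zero_le (show 0 ≤ M by omega)
      have h1 := hneg (m + 1) (by push_cast; omega)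
      push_cast at h1
      rw [show (m : ℤ) + 1 - 1 = m by ring] at h1
      have h2 : Θ m = 0 := by
        have : ((m : ℕ) : ℤ) = M := hm.symm
        rw [this]
        simp only [hΘ]
        rw [← hβd, ← hδd]; ring
      rw [h2] at h1
      linarith
    -- the crossing property
    let P : ℕ → Prop := fun k => 0 < qd A B N (N - (M + 1 + k + 1)) ∧
      2 * (N - (M + 1 + k + 1)) ≤ (N : ℤ) ∧
      cz N (M + 1 - k) * qd A B N (M + 1 - k) ≤
        cz N (N - (M + 1 + k + 1)) * qd A B N (N - (M + 1 + k + 1))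
    have hNN : (N : ℤ) = p + 2 := by rw [hN]; push_cast; ring
    have hP1 : ∀ k, P k → P (k + 1) := by
      intro k hk
      have := cross (A := A) (B := B) (N := N) hA0 (J := M + 1 - k)
        (K := N - (M + 1 + k + 1)) (M1 := M + 1) (by omega) (by omega) hk.2.1 hsign hk.1 hk.2.2
      refine ⟨?_, ?_, ?_⟩
      · have h1 := this.1
        rwa [show (N : ℤ) - (M + 1 + k + 1) - 1 = N - (M + 1 + ((k + 1 : ℕ) : ℤ) + 1) by
          push_cast; ring] at h1
      · have := hk.2.1
        push_cast; omega
      · have h1 := this.2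
        rwa [show (N : ℤ) - (M + 1 + k + 1) - 1 = N - (M + 1 + ((k + 1 : ℕ) : ℤ) + 1) by
          push_cast; ring, show M + 1 - (k : ℤ) - 1 = M + 1 - ((k + 1 : ℕ) : ℤ) by
          push_cast; ring] at h1
    have hP2 : ∀ k, P k → S (k + 1) ≤ S k := by
      intro k hk
      have h1 := hstep k
      have h2 := hk.2.2
      rw [cz_symm, qd_symm] at h2
      have h3 : (S (k + 1) - S k) * ((p + 2) * (p + 1)) ≤ 0 := by rw [h1]; linarith
      by_contra h
      push Not at h
      have := mul_pos (sub_pos.2 h) hpp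
      linarith
    have hP3 : ∀ k, S (k + 1) < S k → P k := by
      intro k hk
      have h1 := hstep k
      have h3 : (S (k + 1) - S k) * ((p + 2) * (p + 1)) < 0 :=
        mul_neg_of_neg_of_pos (by linarith) hpp
      rw [h1] at h3
      have hcl : cz N (M + 1 - k) ≤ cz N (M + 1 + k + 1) := cz_closer (by omega) (by omega)
      have hql : qd A B N (M + 1 + k + 1) ≤ qd A B N (M + 1 - k) := qd_le hA0 (by omega) (by omega)
      have hc1 := cz_nonneg N (M + 1 - k)
      have hc2 := cz_nonneg N (M + 1 + k + 1)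
      have hq : 0 < qd A B N (M + 1 + k + 1) := by
        by_contra hcon
        push Not at hcon
        have : cz N (M + 1 + k + 1) * qd A B N (M + 1 + k + 1) ≤
            cz N (M + 1 - k) * qd A B N (M + 1 - k) := by nlinarith
        linarith
      refine ⟨by rwa [qd_symm], ?_, ?_⟩
      · by_contra hcon
        push Not at hcon
        have h5 : qd A B N (M + 1 + k + 1) ≤ qd A B N (M + 1) := qd_le hA0 (by omega) (by omega)
        have h6 : qd A B N (M + 1) ≤ 0 := by unfold qd; linarith
        linarith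
      · rw [cz_symm, qd_symm]; linarith
    have hP4 : ∀ k n, P k → S (k + n) ≤ S k := by
      intro k n
      induction n generalizing k with
      | zero => intro _; exact le_refl _
      | succ n ih =>
        intro hk
        have h1 := ih (k + 1) (hP1 k hk)
        have h2 := hP2 k hk
        rw [show k + (n + 1) = k + 1 + n by ring]
        exact h1.trans h2
    have hbig : ∀ k : ℕ, (p : ℤ) + 2 ≤ k → 0 ≤ S k := by
      intro k hk
      simp only [hS, hΘ, hD]
      rw [cz_big (show (p : ℤ) < M + k + 1 by omega), cz_big (show (p : ℤ) < M + k by omega),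
        cz_neg (show M - k + 1 < 0 by omega), cz_neg (show M - k < 0 by omega)]
      have h1 := mul_nonneg hδ (bz_nonneg p (M + k))
      have h2 := mul_nonneg hδ (bz_nonneg p (M - k))
      linarith
    intro k
    induction k with
    | zero => rw [hS0]
    | succ k ih =>
      by_contra hcon
      push Not at hcon
      have h1 : P k := hP3 k (by linarith)
      have h2 := hP4 (k + 1) (p + 2) (hP1 k h1)
      have h3 := hbig (k + 1 + (p + 2)) (by push_cast; omega)
      linarith

end Pool.Agent.MP_867aae_co.H75
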