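import Mathlib
import Pool.Agent.MP_867aae_co.H75.SBall

/-!
Self-dual unit-step functions on the cube and their weighted sums; rearrangement making
coordinate `0` the heaviest; the deletion move.
-/

namespace Pool.Agent.MP_867aae_co.H75

open Finset Function

/-- number of true coordinates -/
def cn {z : ℕ} (σ : Fin z → Bool) : ℤ := ∑ i, if σ i then 1 else 0

/-- antipode -/
def ng {z : ℕ} (σ : Fin z → Bool) : Fin z → Bool := fun i => !σ i

lemma ng_ng {z : ℕ} (σ : Fin z → Bool) : ng (ng σ) = σ := by
  funext i; simp [ng]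

lemma ng_apply {z : ℕ} (σ : Fin z → Bool) (i : Fin z) : ng σ i = !σ i := rfl

lemma cn_ng {z : ℕ} (σ : Fin z → Bool) : cn (ng σ) = z - cn σ := by
  have : cn (ng σ) + cn σ = z := by
    unfold cn
    rw [← Finset.sum_add_distrib]
    have : ∀ i : Fin z, ((if ng σ i then (1 : ℤ) else 0) + if σ i then 1 else 0) = 1 := by
      intro i
      cases h : σ i <;> simp [ng, h]
    simp [this]
  omega

lemma cn_update {z : ℕ} {σ : Fin z → Bool} {i : Fin z} (h : σ i = false) :
    cn (update σ i true) = cn σ + 1 := by
  unfold cn
  rw [← Finset.add_sum_erase _ _ (Finset.mem_univ i),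
    ← Finset.add_sum_erase univ (fun i => if σ i then (1 : ℤ) else 0) (Finset.mem_univ i)]
  have : ∑ x ∈ univ.erase i, (if update σ i true x then (1 : ℤ) else 0) =
      ∑ x ∈ univ.erase i, if σ x then 1 else 0 := by
    apply Finset.sum_congr rfl
    intro x hx
    rw [update_of_ne (Finset.ne_of_mem_erase hx)]
  rw [this]
  simp [h]; ring

lemma ng_update {z : ℕ} (σ : Fin z → Bool) (i : Fin z) (b : Bool) :
    ng (update σ i b) = update (ng σ) i (!b) := by
  funext k
  by_cases h : k = i
  · subst h; simp [ng]
  · simp [ng, h]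

lemma cn_cons {z : ℕ} (e : Bool) (τ : Fin z → Bool) :
    cn (Fin.cons e τ : Fin (z + 1) → Bool) = (if e then 1 else 0) + cn τ := by
  unfold cn
  rw [Fin.sum_univ_succ]
  simp

lemma ng_cons {z : ℕ} (e : Bool) (τ : Fin z → Bool) :
    ng (Fin.cons e τ : Fin (z + 1) → Bool) = Fin.cons (!e) (ng τ) := by
  funext k
  refine Fin.cases ?_ (fun i => ?_) k
  · simp [ng]
  · simp [ng]

lemma sum_ng {z : ℕ} (f : (Fin z → Bool) → ℤ) : ∑ τ, f (ng τ) = ∑ τ, f τ := by
  apply Fintype.sum_equiv ⟨ng, ng, ng_ng, ng_ng⟩
  intro τ; rfl

lemma sum_cons {z : ℕ} (f : (Fin (z + 1) → Bool) → ℤ) :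
    ∑ σ, f σ = ∑ τ : Fin z → Bool, (f (Fin.cons false τ) + f (Fin.cons true τ)) := by
  rw [← (Fin.consEquiv (fun _ : Fin (z + 1) => Bool)).sum_comp, Fintype.sum_prod_type,
    Fintype.sum_bool, Finset.sum_add_distrib, add_comm]
  rfl

/-- self-dual unit-step functions -/
structure Val {z : ℕ} (A : ℤ) (a : (Fin z → Bool) → ℤ) : Prop where
  sd : ∀ σ, a σ + a (ng σ) = A
  st : ∀ σ i, σ i = false → a (update σ i true) = a σ ∨ a (update σ i true) = a σ + 1

/-- the weighted sum -/
def VV {z : ℕ} (G H : ℤ → ℤ) (B : ℤ) (a : (Fin z → Bool) → ℤ) : ℤ :=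
  ∑ σ, G (a σ) * H (a σ - cn σ + B)

/-- the mirrored function -/
lemma mirror {z : ℕ} {A R B : ℤ} {a : (Fin z → Bool) → ℤ} (ha : Val A a)
    (hB : 2 * B = R - A + z) (G H : ℤ → ℤ) :
    ∃ a' : (Fin z → Bool) → ℤ, Val R a' ∧ VV G H B a = VV H G (z - B) a' := by
  refine ⟨fun σ => a (ng σ) - cn (ng σ) + B, ⟨?_, ?_⟩, ?_⟩
  · intro σ
    have := ha.sd σ
    simp only [ng_ng]
    rw [cn_ng]
    linarith
  · intro σ i hi
    have h1 := ha.st (ng (update σ i true)) i (by simp [ng])
    have h2 : update (ng (update σ i true)) i true = ng σ := by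
      rw [ng_update, update_idem]
      funext k
      by_cases h : k = i
      · subst h; simp [ng, hi]
      · simp [h]
    rw [h2] at h1
    have h3 := cn_update hi
    rw [cn_ng, cn_ng, h3]
    rcases h1 with h1 | h1
    · right; linarith
    · left; linarith
  · unfold VV
    rw [← sum_ng]
    apply Finset.sum_congr rfl
    intro σ _
    rw [mul_comm]
    congr 2
    simp only [cn_ng]
    ring

section swap
variable {z : ℕ} (k : Fin z)

/-- exchange coordinates `0` and `k+1` -/
def sw (σ : Fin (z + 1) → Bool) : Fin (z + 1) → Bool := fun i => σ (Equiv.swap 0 k.succ i)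

lemma sw_sw (σ : Fin (z + 1) → Bool) : sw k (sw k σ) = σ := by
  funext i; simp [sw]

lemma sw_ng (σ : Fin (z + 1) → Bool) : sw k (ng σ) = ng (sw k σ) := rfl

lemma sw_zero (σ : Fin (z + 1) → Bool) : sw k σ 0 = σ k.succ := by simp [sw]

lemma sw_succ (σ : Fin (z + 1) → Bool) : sw k σ k.succ = σ 0 := by simp [sw]

lemma sw_of_ne (σ : Fin (z + 1) → Bool) {i : Fin (z + 1)} (h1 : i ≠ 0) (h2 : i ≠ k.succ) :
    sw k σ i = σ i := by simp [sw, Equiv.swap_apply_of_ne_of_ne h1 h2]

lemma cn_sw (σ : Fin (z + 1) → Bool) : cn (sw k σ) = cn σ := by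
  unfold cn sw
  exact Fintype.sum_equiv (Equiv.swap 0 k.succ) _ _ (fun i => rfl)

lemma sw_eq {σ : Fin (z + 1) → Bool} (h : σ 0 = σ k.succ) : sw k σ = σ := by
  funext i
  by_cases h1 : i = 0
  · subst h1; rw [sw_zero, h]
  · by_cases h2 : i = k.succ
    · subst h2; rw [sw_succ, h]
    · rw [sw_of_ne k σ h1 h2]

lemma sw_update_of_ne {σ : Fin (z + 1) → Bool} {i : Fin (z + 1)} (h1 : i ≠ 0) (h2 : i ≠ k.succ)
    (b : Bool) : sw k (update σ i b) = update (sw k σ) i b := by
  funext j
  by_cases hj : j = i
  · subst hj
    rw [sw_of_ne k _ h1 h2, update_self, update_self]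
  · rw [update_of_ne hj]
    unfold sw
    rw [update_of_ne]
    intro h
    apply hj
    have := congrArg (Equiv.swap 0 k.succ) h
    rw [Equiv.swap_apply_self, Equiv.swap_apply_of_ne_of_ne h1 h2] at this
    exact this

/-- the rearrangement -/
def rr (a : (Fin (z + 1) → Bool) → ℤ) (σ : Fin (z + 1) → Bool) : ℤ :=
  if σ 0 = σ k.succ then a σ else
    if σ 0 = true then max (a σ) (a (sw k σ)) else min (a σ) (a (sw k σ))

lemma rr_eq {a : (Fin (z + 1) → Bool) → ℤ} {σ : Fin (z + 1) → Bool} (h : σ 0 = σ k.succ) :
    rr k a σ = a σ := if_pos h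

lemma rr_true {a : (Fin (z + 1) → Bool) → ℤ} {σ : Fin (z + 1) → Bool} (h : σ 0 = true)
    (h' : σ k.succ = false) : rr k a σ = max (a σ) (a (sw k σ)) := by
  unfold rr; simp [h, h']

lemma rr_false {a : (Fin (z + 1) → Bool) → ℤ} {σ : Fin (z + 1) → Bool} (h : σ 0 = false)
    (h' : σ k.succ = true) : rr k a σ = min (a σ) (a (sw k σ)) := by
  unfold rr; simp [h, h']

lemma rr_val {A : ℤ} {a : (Fin (z + 1) → Bool) → ℤ} (ha : Val A a) : Val A (rr k a) := by
  refine ⟨?_, ?_⟩
  · intro σ
    have h1 := ha.sd σ
    have h2 := ha.sd (sw k σ)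
    rcases h0 : σ 0 with _ | _ <;> rcases hk : σ k.succ with _ | _
    · rw [rr_eq k (by rw [h0, hk]), rr_eq k (by rw [ng_apply, ng_apply, h0, hk])]
      exact h1
    · rw [rr_false k h0 hk, rr_true k (by rw [ng_apply, h0]; rfl) (by rw [ng_apply, hk]; rfl),
        sw_ng]
      omega
    · rw [rr_true k h0 hk, rr_false k (by rw [ng_apply, h0]; rfl) (by rw [ng_apply, hk]; rfl),
        sw_ng]
      omega
    · rw [rr_eq k (by rw [h0, hk]), rr_eq k (by rw [ng_apply, ng_apply, h0, hk])]
      exact h1
  · intro σ i hi
    by_cases h1 : i = 0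
    · subst h1
      rcases hk : σ k.succ with _ | _
      · -- (0,0) → (1,0)
        have e1 : update σ 0 true 0 = true := by simp
        have e2 : update σ 0 true k.succ = false := by
          rw [update_of_ne (Fin.succ_ne_zero k), hk]
        rw [rr_true k e1 e2, rr_eq k (σ := σ) (by rw [hi, hk])]
        have s1 := ha.st σ 0 hi
        have s2 := ha.st σ k.succ hk
        have : sw k (update σ 0 true) = update σ k.succ true := by
          funext j
          by_cases hj : j = 0
          · subst hj
            rw [sw_zero, e2, update_of_ne (Fin.succ_ne_zero k).symm, hi]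
          · by_cases hj2 : j = k.succ
            · subst hj2
              rw [sw_succ, e1, update_self]
            · rw [sw_of_ne k _ hj hj2, update_of_ne hj, update_of_ne hj2]
        rw [this]
        omega
      · -- (0,1) → (1,1)
        have e1 : update σ 0 true 0 = true := by simp
        have e2 : update σ 0 true k.succ = true := by
          rw [update_of_ne (Fin.succ_ne_zero k), hk]
        rw [rr_eq k (σ := update σ 0 true) (by rw [e1, e2]), rr_false k hi hk]
        have s1 := ha.st σ 0 hi
        have s2 := ha.st (sw k σ) k.succ (by rw [sw_succ, hi])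
        have : update (sw k σ) k.succ true = update σ 0 true := by
          funext j
          by_cases hj : j = 0
          · subst hj
            rw [e1, update_of_ne (Fin.succ_ne_zero k).symm, sw_zero, hk]
          · by_cases hj2 : j = k.succ
            · subst hj2
              rw [update_self, e2]
            · rw [update_of_ne hj2, sw_of_ne k _ hj hj2, update_of_ne hj]
        rw [this] at s2
        omega
    · by_cases h2 : i = k.succ
      · subst h2
        rcases h0 : σ 0 with _ | _
        · -- (0,0) → (0,1)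
          have e1 : update σ k.succ true k.succ = true := by simp
          have e2 : update σ k.succ true 0 = false := by
            rw [update_of_ne (Fin.succ_ne_zero k).symm, h0]
          rw [rr_false k e2 e1, rr_eq k (σ := σ) (by rw [hi, h0])]
          have s1 := ha.st σ 0 h0
          have s2 := ha.st σ k.succ hi
          have : sw k (update σ k.succ true) = update σ 0 true := by
            funext j
            by_cases hj : j = 0
            · subst hj
              rw [sw_zero, e1, update_self]
            · by_cases hj2 : j = k.succ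
              · subst hj2
                rw [sw_succ, e2, update_of_ne (Fin.succ_ne_zero k), hi]
              · rw [sw_of_ne k _ hj hj2, update_of_ne hj, update_of_ne hj2]
          rw [this]
          omega
        · -- (1,0) → (1,1)
          have e1 : update σ k.succ true k.succ = true := by simp
          have e2 : update σ k.succ true 0 = true := by
            rw [update_of_ne (Fin.succ_ne_zero k).symm, h0]
          rw [rr_eq k (σ := update σ k.succ true) (by rw [e1, e2]), rr_true k h0 hi]
          have s1 := ha.st σ k.succ hi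
          have s2 := ha.st (sw k σ) 0 (by rw [sw_zero, hi])
          have : update (sw k σ) 0 true = update σ k.succ true := by
            funext j
            by_cases hj : j = 0
            · subst hj
              rw [e2, update_self]
            · by_cases hj2 : j = k.succ
              · subst hj2
                rw [update_self, update_of_ne (Fin.succ_ne_zero k), sw_succ, h0]
              · rw [update_of_ne hj2, update_of_ne hj, sw_of_ne k _ hj hj2]
          rw [this] at s2
          omega
      · have e0 : update σ i true 0 = σ 0 := by rw [update_of_ne (Ne.symm h1)]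
        have ek : update σ i true k.succ = σ k.succ := by rw [update_of_ne (Ne.symm h2)]
        have s1 := ha.st σ i hi
        have s2 := ha.st (sw k σ) i (by rw [sw_of_ne k σ h1 h2, hi])
        rw [← sw_update_of_ne k h1 h2] at s2
        rcases h0 : σ 0 with _ | _ <;> rcases hk : σ k.succ with _ | _
        · rw [rr_eq k (σ := σ) (by rw [h0, hk]),
            rr_eq k (σ := update σ i true) (by rw [e0, ek, h0, hk])]
          exact s1
        · rw [rr_false k (σ := σ) h0 hk,
            rr_false k (σ := update σ i true) (by rw [e0, h0]) (by rw [ek, hk])]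
          omega
        · rw [rr_true k (σ := σ) h0 hk,
            rr_true k (σ := update σ i true) (by rw [e0, h0]) (by rw [ek, hk])]
          omega
        · rw [rr_eq k (σ := σ) (by rw [h0, hk]),
            rr_eq k (σ := update σ i true) (by rw [e0, ek, h0, hk])]
          exact s1

/-- pairing sums by the exchange -/
lemma sum_sw (f g : (Fin (z + 1) → Bool) → ℤ) (h : ∀ σ, f σ + f (sw k σ) = g σ + g (sw k σ)) :
    ∑ σ, f σ = ∑ σ, g σ := by
  have h1 : ∀ f : (Fin (z + 1) → Bool) → ℤ, ∑ σ, f (sw k σ) = ∑ σ, f σ := by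
    intro f
    exact Fintype.sum_equiv ⟨sw k, sw k, sw_sw k, sw_sw k⟩ _ _ (fun σ => rfl)
  have h2 : ∑ σ, (f σ + f (sw k σ)) = ∑ σ, (g σ + g (sw k σ)) :=
    Finset.sum_congr rfl (fun σ _ => h σ)
  rw [Finset.sum_add_distrib, Finset.sum_add_distrib, h1, h1] at h2
  linarith

lemma rr_VV (G H : ℤ → ℤ) (B : ℤ) (a : (Fin (z + 1) → Bool) → ℤ) :
    VV G H B (rr k a) = VV G H B a := by
  unfold VV
  apply sum_sw k
  intro σ
  rw [cn_sw]
  rcases h0 : σ 0 with _ | _ <;> rcases hk : σ k.succ with _ | _
  · rw [sw_eq k (by rw [h0, hk]), rr_eq k (by rw [h0, hk])]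
  · rw [rr_false k h0 hk, rr_true k (by rw [sw_zero, hk]) (by rw [sw_succ, h0]), sw_sw]
    rcases le_total (a σ) (a (sw k σ)) with h | h
    · rw [min_eq_left h, max_eq_left h]
    · rw [min_eq_right h, max_eq_right h]; ring
  · rw [rr_true k h0 hk, rr_false k (by rw [sw_zero, hk]) (by rw [sw_succ, h0]), sw_sw]
    rcases le_total (a σ) (a (sw k σ)) with h | h
    · rw [max_eq_right h, min_eq_right h]; ring
    · rw [max_eq_left h, min_eq_left h]
  · rw [sw_eq k (by rw [h0, hk]), rr_eq k (by rw [h0, hk])]

end swap

/-- total value on the half cube `σ 0 = true` -/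
def hs {z : ℕ} (a : (Fin (z + 1) → Bool) → ℤ) : ℤ := ∑ σ, if σ 0 = true then a σ else 0

lemma hs_lt {z : ℕ} {a : (Fin (z + 1) → Bool) → ℤ} {k : Fin z} {σ : Fin (z + 1) → Bool}
    (h0 : σ 0 = true) (hk : σ k.succ = false) (h : a σ < a (sw k σ)) : hs a < hs (rr k a) := by
  unfold hs
  apply Finset.sum_lt_sum
  · intro τ _
    by_cases h1 : τ 0 = true
    · rw [if_pos h1, if_pos h1]
      rcases h2 : τ k.succ with _ | _
      · rw [rr_true k h1 h2]; exact le_max_left _ _
      · rw [rr_eq k (by rw [h1, h2])]
    · rw [if_neg h1, if_neg h1]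
  · refine ⟨σ, Finset.mem_univ _, ?_⟩
    rw [if_pos h0, if_pos h0, rr_true k h0 hk]
    exact lt_max_of_lt_right h

lemma Val.le_of_ng {z : ℕ} {A : ℤ} {a : (Fin z → Bool) → ℤ} (ha : Val A a) (σ : Fin z → Bool) :
    2 * a σ ≤ A + z := by
  -- `a σ ≤ a τ + #{i | σ i, ¬ τ i}`
  have key : ∀ s : Finset (Fin z), ∀ σ : Fin z → Bool,
      a σ ≤ a (fun i => if i ∈ s then false else σ i) + s.card := by
    intro s
    induction s using Finset.induction_on with
    | empty => intro σ; simp
    | insert j s hj ih =>
      intro σ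
      have h1 := ih σ
      set τ : Fin z → Bool := fun i => if i ∈ s then false else σ i with hτ
      have h2 : (fun i => if i ∈ insert j s then false else σ i) = update τ j false := by
        funext i
        by_cases h : i = j
        · subst h; simp
        · simp [h, hτ]
      rw [h2, Finset.card_insert_of_notMem hj]
      have h3 : a τ ≤ a (update τ j false) + 1 := by
        rcases h4 : τ j with _ | _
        · have : update τ j false = τ := by rw [← h4, update_eq_self]
          rw [this]; omega
        · have h5 := ha.st (update τ j false) j (by simp)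
          rw [update_idem] at h5
          have : update τ j true = τ := by rw [← h4, update_eq_self]
          rw [this] at h5
          omega
      push_cast
      omega
  have key2 : ∀ s : Finset (Fin z), ∀ σ : Fin z → Bool,
      a (fun i => if i ∈ s then false else σ i) ≤ a σ := by
    intro s
    induction s using Finset.induction_on with
    | empty => intro σ; simp
    | insert j s hj ih =>
      intro σ
      have h1 := ih σ
      set τ : Fin z → Bool := fun i => if i ∈ s then false else σ i with hτ
      have h2 : (fun i => if i ∈ insert j s then false else σ i) = update τ j false := by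
        funext i
        by_cases h : i = j
        · subst h; simp
        · simp [h, hτ]
      rw [h2]
      have h3 : a (update τ j false) ≤ a τ := by
        rcases h4 : τ j with _ | _
        · have : update τ j false = τ := by rw [← h4, update_eq_self]
          rw [this]
        · have h5 := ha.st (update τ j false) j (by simp)
          rw [update_idem] at h5
          have : update τ j true = τ := by rw [← h4, update_eq_self]
          rw [this] at h5
          omega
      omega
  have h1 := key univ σ
  have h2 := key2 univ (ng σ)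
  have h3 : (fun i => if i ∈ (univ : Finset (Fin z)) then false else σ i) =
      (fun i => if i ∈ (univ : Finset (Fin z)) then false else ng σ i) := by
    funext i; simp
  rw [h3] at h1
  rw [Finset.card_univ, Fintype.card_fin] at h1
  have := ha.sd σ
  omega

/-- coordinate `0` can be made the heaviest -/
lemma heavy {z : ℕ} {A : ℤ} {a : (Fin (z + 1) → Bool) → ℤ} (ha : Val A a) (G H : ℤ → ℤ) (B : ℤ) :
    ∃ a' : (Fin (z + 1) → Bool) → ℤ, Val A a' ∧ VV G H B a' = VV G H B a ∧
      ∀ (τ : Fin z → Bool) (k : Fin z), τ k = false →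
        a' (Fin.cons false (update τ k true)) ≤ a' (Fin.cons true τ) := by
  let P : ℤ → Prop := fun n => ∃ a' : (Fin (z + 1) → Bool) → ℤ, Val A a' ∧ VV G H B a' = VV G H B a ∧ hs a' = n
  have hbd : ∃ b : ℤ, ∀ n, P n → n ≤ b := by
    refine ⟨∑ _σ : Fin (z + 1) → Bool, (|A| + (z + 1 : ℕ)), ?_⟩
    rintro n ⟨a', h1, -, rfl⟩
    unfold hs
    apply Finset.sum_le_sum
    intro σ _
    have h2 := h1.le_of_ng σ
    have h3 := le_abs_self A
    have h4 := abs_nonneg A
    split_ifs <;> omega
  obtain ⟨n, ⟨a', h1, h2, h3⟩, h4⟩ := Int.exists_greatest_of_bdd hbd ⟨hs a, a, ha, rfl, rfl⟩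
  refine ⟨a', h1, h2, ?_⟩
  intro τ k hk
  by_contra hcon
  push Not at hcon
  have e1 : sw k (Fin.cons true τ : Fin (z + 1) → Bool) = Fin.cons false (update τ k true) := by
    funext j
    refine Fin.cases ?_ (fun i => ?_) j
    · rw [sw_zero]; simp [hk]
    · by_cases hi : i = k
      · subst hi; rw [sw_succ]; simp
      · rw [sw_of_ne k _ (Fin.succ_ne_zero i) (fun h => hi (Fin.succ_injective _ h))]
        simp [hi]
  have h5 := hs_lt (a := a') (k := k) (σ := Fin.cons true τ) (by simp) (by simpa using hk)
    (by rw [e1]; exact hcon)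
  have h6 := h4 _ ⟨rr k a', rr_val k h1, (rr_VV k G H B a').trans h2, rfl⟩
  omega

end Pool.Agent.MP_867aae_co.H75
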