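import Mathlib
import Pool.Agent.MP_867aae_co.H75.SVal

/-!
The deletion move: from `z + 1` coordinates to `z` coordinates.
-/

namespace Pool.Agent.MP_867aae_co.H75

open Finset Function

/-- gain at a flat string -/
def gm (G H : ℤ → ℤ) (e : Bool) (α b : ℤ) : ℤ :=
  if e then G (α + 1) * H b - G α * H (b - 1) else G (α - 1) * H (b - 1) - G α * H b

/-- the criterion at the centre -/
def Crit (G : ℤ → ℤ) (α : ℤ) (H : ℤ → ℤ) (R : ℤ) : Prop :=
  ∀ b, G α * (H (b - 1) + H (R - b + 1) + H (b + 1) + H (R - b - 1)) ≤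
    (G (α + 1) + G (α - 1)) * (H b + H (R - b))

section core
variable {z : ℕ} {A B R : ℤ} {a : (Fin (z + 1) → Bool) → ℤ}

/-- the new function -/
def nf (a : (Fin (z + 1) → Bool) → ℤ) (w : (Fin z → Bool) → Bool) (τ : Fin z → Bool) : ℤ :=
  if a (Fin.cons false τ) = a (Fin.cons true τ) then
    a (Fin.cons false τ) + (if w τ then 1 else 0) else a (Fin.cons false τ) + 1

lemma st0 (ha : Val A a) (τ : Fin z → Bool) :
    a (Fin.cons true τ) = a (Fin.cons false τ) ∨
      a (Fin.cons true τ) = a (Fin.cons false τ) + 1 := by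
  have := ha.st (Fin.cons false τ) 0 (by simp)
  rwa [Fin.update_cons_zero] at this

lemma stS (ha : Val A a) (e : Bool) (τ : Fin z → Bool) {i : Fin z} (hi : τ i = false) :
    a (Fin.cons e (update τ i true)) = a (Fin.cons e τ) ∨
      a (Fin.cons e (update τ i true)) = a (Fin.cons e τ) + 1 := by
  have := ha.st (Fin.cons e τ) i.succ (by simpa using hi)
  rwa [← Fin.cons_update] at this

lemma sd0 (ha : Val A a) (τ : Fin z → Bool) :
    a (Fin.cons false τ) + a (Fin.cons true (ng τ)) = A := by
  have := ha.sd (Fin.cons false τ)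
  rwa [ng_cons] at this

lemma sd1 (ha : Val A a) (τ : Fin z → Bool) :
    a (Fin.cons true τ) + a (Fin.cons false (ng τ)) = A := by
  have := ha.sd (Fin.cons true τ)
  rwa [ng_cons] at this

lemma nf_val (ha : Val A a)
    (hv : ∀ (τ : Fin z → Bool) (k : Fin z), τ k = false →
        a (Fin.cons false (update τ k true)) ≤ a (Fin.cons true τ))
    (w : (Fin z → Bool) → Bool)
    (w1 : ∀ τ, a (Fin.cons false τ) = a (Fin.cons true τ) → w (ng τ) = !w τ)
    (w2 : ∀ τ i, τ i = false → a (Fin.cons false τ) = a (Fin.cons true τ) →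
      a (Fin.cons false (update τ i true)) = a (Fin.cons true (update τ i true)) →
      a (Fin.cons false (update τ i true)) = a (Fin.cons false τ) →
      w τ = true → w (update τ i true) = true) : Val (A + 1) (nf a w) := by
  refine ⟨?_, ?_⟩
  · intro τ
    have h1 := sd0 ha τ
    have h2 := sd1 ha τ
    unfold nf
    by_cases hf : a (Fin.cons false τ) = a (Fin.cons true τ)
    · have hf' : a (Fin.cons false (ng τ)) = a (Fin.cons true (ng τ)) := by omega
      rw [if_pos hf, if_pos hf', w1 τ hf]
      cases w τ <;> simp <;> omega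
    · have hf' : ¬ a (Fin.cons false (ng τ)) = a (Fin.cons true (ng τ)) := by omega
      rw [if_neg hf, if_neg hf']
      have := st0 ha τ
      omega
  · intro τ i hi
    have h1 := stS ha false τ hi
    have h2 := stS ha true τ hi
    have h3 := st0 ha τ
    have h4 := st0 ha (update τ i true)
    have h5 := hv τ i hi
    have h6 := w2 τ i hi
    unfold nf
    by_cases hf : a (Fin.cons false τ) = a (Fin.cons true τ)
    · rw [if_pos hf]
      by_cases hf' : a (Fin.cons false (update τ i true)) = a (Fin.cons true (update τ i true))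
      · rw [if_pos hf']
        have h7 := h6 hf hf' (by omega)
        rcases hw : w τ with _ | _
        · simp only [Bool.false_eq_true, if_false]
          split_ifs <;> omega
        · rw [h7 hw]
          simp only [if_true]
          omega
      · rw [if_neg hf']
        split_ifs <;> omega
    · rw [if_neg hf]
      by_cases hf' : a (Fin.cons false (update τ i true)) = a (Fin.cons true (update τ i true))
      · rw [if_pos hf']
        split_ifs <;> omega
      · rw [if_neg hf']
        omega

/-- the gain formula -/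
lemma nf_gain (p : ℕ) (H : ℤ → ℤ) (B : ℤ) (ha : Val A a) (w : (Fin z → Bool) → Bool) :
    VV (bz (p + 1)) H (B - 1) (nf a w) = VV (bz p) H B a +
      ∑ τ, if a (Fin.cons false τ) = a (Fin.cons true τ) then
        gm (bz p) H (w τ) (a (Fin.cons false τ)) (a (Fin.cons false τ) - cn τ + B) else 0 := by
  unfold VV
  rw [sum_cons, ← Finset.sum_add_distrib]
  apply Finset.sum_congr rfl
  intro τ _
  have h3 := st0 ha τ
  rw [cn_cons, cn_cons, bz_rec]
  unfold nf gm
  by_cases hf : a (Fin.cons false τ) = a (Fin.cons true τ)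
  · rw [if_pos hf, if_pos hf, ← hf]
    set α := a (Fin.cons false τ)
    rcases w τ with _ | _
    · simp only [Bool.false_eq_true, if_false, if_true, add_zero, zero_add]
      rw [show α - cn τ + (B - 1) = α - cn τ + B - 1 by ring,
        show α - (1 + cn τ) + B = α - cn τ + B - 1 by ring]
      ring
    · simp only [Bool.false_eq_true, if_false, if_true, zero_add]
      rw [show α + 1 - cn τ + (B - 1) = α - cn τ + B by ring,
        show α - (1 + cn τ) + B = α - cn τ + B - 1 by ring, add_sub_cancel_right]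
      ring
  · rw [if_neg hf, if_neg hf]
    have h4 : a (Fin.cons true τ) = a (Fin.cons false τ) + 1 := by omega
    rw [h4]
    set α := a (Fin.cons false τ)
    simp only [Bool.false_eq_true, if_false, if_true, zero_add, add_zero]
    rw [show α + 1 - cn τ + (B - 1) = α - cn τ + B by ring,
      show α + 1 - (1 + cn τ) + B = α - cn τ + B by ring, add_sub_cancel_right]
    ring

/-- gain of a flat string and its antipode -/
def pg (G H : ℤ → ℤ) (A R : ℤ) (e : Bool) (α b : ℤ) : ℤ :=
  gm G H e α b + gm G H (!e) (A - α) (R + 1 - b)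

lemma pg_weight (p : ℕ) {H : ℤ → ℤ} (hH : Monotone H) (hH0 : ∀ b, 0 ≤ H b) (hA : A ≤ p - 1)
    {α : ℤ} (hα : A ≤ 2 * α) : ∃ u v : ℤ, 0 < u ∧ 0 ≤ v ∧ ∀ b,
      0 ≤ u * pg (bz p) H A R true α b + v * pg (bz p) H A R false α b := by
  obtain ⟨u, v, hu, hv, k1, k2, k3, k4⟩ := K1 p α (A - α) (by omega) (by omega)
  refine ⟨u, v, hu, hv, ?_⟩
  intro b
  unfold pg gm
  simp only [Bool.not_true, Bool.not_false, Bool.false_eq_true, if_false, if_true]
  set b' := R + 1 - b
  set m := A - α
  have e1 := bz_pred p α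
  have e2 := bz_succ p α
  have e3 := bz_pred p m
  have e4 := bz_succ p m
  have hb1 := hH (show b - 1 ≤ b by omega)
  have hb2 := hH0 (b - 1)
  have hb3 := hH (show b' - 1 ≤ b' by omega)
  have hb4 := hH0 (b' - 1)
  have i1 : 0 ≤ u * bz p (α + 1) - v * bz p α := by linarith
  have i2 : u * bz p α - v * bz p (α - 1) ≤ u * bz p (α + 1) - v * bz p α := by
    rw [e2]; nlinarith
  have i3 : 0 ≤ v * bz p (m + 1) - u * bz p m := by linarith
  have i4 : v * bz p m - u * bz p (m - 1) ≤ v * bz p (m + 1) - u * bz p m := by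
    rw [e4]; nlinarith
  have j1 : H (b - 1) * (u * bz p α - v * bz p (α - 1)) ≤
      H b * (u * bz p (α + 1) - v * bz p α) :=
    (mul_le_mul_of_nonneg_left i2 hb2).trans (mul_le_mul_of_nonneg_right hb1 i1)
  have j2 : H (b' - 1) * (v * bz p m - u * bz p (m - 1)) ≤
      H b' * (v * bz p (m + 1) - u * bz p m) :=
    (mul_le_mul_of_nonneg_left i4 hb4).trans (mul_le_mul_of_nonneg_right hb3 i3)
  linarith

/-- the level sets away from the centre can be raised or lowered without loss -/
lemma level (p : ℕ) {H : ℤ → ℤ} (hH : Monotone H) (hH0 : ∀ b, 0 ≤ H b) (hA : A ≤ p - 1)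
    {ι : Type*} (s : Finset ι) (b : ι → ℤ) {α : ℤ} (hα : A ≤ 2 * α) :
    ∃ e, 0 ≤ ∑ i ∈ s, pg (bz p) H A R e α (b i) := by
  obtain ⟨u, v, hu, hv, h⟩ := pg_weight (R := R) p hH hH0 hA hα
  by_contra hcon
  push Not at hcon
  have h1 := hcon true
  have h2 := hcon false
  have h3 : 0 ≤ ∑ i ∈ s, (u * pg (bz p) H A R true α (b i) + v * pg (bz p) H A R false α (b i)) :=
    Finset.sum_nonneg (fun i _ => h (b i))
  rw [Finset.sum_add_distrib, ← Finset.mul_sum, ← Finset.mul_sum] at h3
  nlinarith [mul_neg_of_pos_of_neg hu h1, mul_nonpos_of_nonneg_of_nonpos hv h2.le]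

/-- the move, given a choice at the centre -/
lemma amove_core (p : ℕ) {H : ℤ → ℤ} (hH : Monotone H) (hH0 : ∀ b, 0 ≤ H b) (hA : A ≤ p - 1)
    (hB : 2 * B = R - A + (z + 1 : ℕ)) (ha : Val A a)
    (hv : ∀ (τ : Fin z → Bool) (k : Fin z), τ k = false →
        a (Fin.cons false (update τ k true)) ≤ a (Fin.cons true τ))
    (c : (Fin z → Bool) → Bool)
    (c1 : ∀ τ, a (Fin.cons false τ) = a (Fin.cons true τ) → 2 * a (Fin.cons false τ) = A →
      c (ng τ) = !c τ)
    (c2 : ∀ τ i, τ i = false → a (Fin.cons false τ) = a (Fin.cons true τ) →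
      a (Fin.cons false (update τ i true)) = a (Fin.cons true (update τ i true)) →
      a (Fin.cons false (update τ i true)) = a (Fin.cons false τ) → 2 * a (Fin.cons false τ) = A →
      c τ = true → c (update τ i true) = true)
    (c3 : 0 ≤ ∑ τ, if a (Fin.cons false τ) = a (Fin.cons true τ) ∧ 2 * a (Fin.cons false τ) = A then
        gm (bz p) H (c τ) (a (Fin.cons false τ)) (a (Fin.cons false τ) - cn τ + B) else 0) :
    ∃ a' : (Fin z → Bool) → ℤ, Val (A + 1) a' ∧ VV (bz p) H B a ≤ VV (bz (p + 1)) H (B - 1) a' := by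
  classical
  have hlev : ∀ m : ℤ, A ≤ 2 * m → ∃ e, 0 ≤ ∑ τ ∈ univ.filter (fun τ : Fin z → Bool =>
      a (Fin.cons false τ) = a (Fin.cons true τ) ∧ a (Fin.cons false τ) = m),
      pg (bz p) H A R e m (m - cn τ + B) := fun m hm =>
    level p hH hH0 hA _ (fun τ : Fin z → Bool => m - cn τ + B) hm
  choose! ε hε using hlev
  let w : (Fin z → Bool) → Bool := fun τ =>
    if A < 2 * a (Fin.cons false τ) then ε (a (Fin.cons false τ)) else
      if 2 * a (Fin.cons false τ) < A then !ε (A - a (Fin.cons false τ)) else c τ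
  have hflat : ∀ τ : Fin z → Bool, a (Fin.cons false τ) = a (Fin.cons true τ) →
      a (Fin.cons false (ng τ)) = A - a (Fin.cons false τ) ∧
      a (Fin.cons false (ng τ)) = a (Fin.cons true (ng τ)) := by
    intro τ h
    have h1 := sd0 ha τ
    have h2 := sd1 ha τ
    omega
  have w1 : ∀ τ, a (Fin.cons false τ) = a (Fin.cons true τ) → w (ng τ) = !w τ := by
    intro τ hf
    obtain ⟨h1, -⟩ := hflat τ hf
    simp only [w]
    rw [h1]
    rcases lt_trichotomy (2 * a (Fin.cons false τ)) A with h | h | h
    · rw [if_pos (by omega), if_neg (by omega), if_pos (by omega), Bool.not_not]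
    · rw [if_neg (by omega), if_neg (by omega), if_neg (by omega), if_neg (by omega)]
      exact c1 τ hf h
    · rw [if_neg (by omega), if_pos (by omega), if_pos (by omega), sub_sub_cancel]
  have w2 : ∀ τ i, τ i = false → a (Fin.cons false τ) = a (Fin.cons true τ) →
      a (Fin.cons false (update τ i true)) = a (Fin.cons true (update τ i true)) →
      a (Fin.cons false (update τ i true)) = a (Fin.cons false τ) →
      w τ = true → w (update τ i true) = true := by
    intro τ i hi hf hf' he hw
    simp only [w] at hw ⊢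
    rw [he]
    rcases lt_trichotomy (2 * a (Fin.cons false τ)) A with h | h | h
    · rw [if_neg (by omega), if_pos (by omega)] at hw ⊢
      exact hw
    · rw [if_neg (by omega), if_neg (by omega)] at hw ⊢
      exact c2 τ i hi hf hf' he h hw
    · rw [if_pos (by omega)] at hw ⊢
      exact hw
  refine ⟨nf a w, nf_val ha hv w w1 w2, ?_⟩
  rw [nf_gain p H B ha w]
  suffices h : 0 ≤ ∑ τ, if a (Fin.cons false τ) = a (Fin.cons true τ) then
        gm (bz p) H (w τ) (a (Fin.cons false τ)) (a (Fin.cons false τ) - cn τ + B) else 0 by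
    linarith
  -- split into above, below, centre
  let f : (Fin z → Bool) → ℤ := fun τ =>
    gm (bz p) H (w τ) (a (Fin.cons false τ)) (a (Fin.cons false τ) - cn τ + B)
  let F1 : (Fin z → Bool) → ℤ := fun τ =>
    if a (Fin.cons false τ) = a (Fin.cons true τ) ∧ A < 2 * a (Fin.cons false τ) then f τ else 0
  let F2 : (Fin z → Bool) → ℤ := fun τ =>
    if a (Fin.cons false τ) = a (Fin.cons true τ) ∧ 2 * a (Fin.cons false τ) < A then f τ else 0
  let F3 : (Fin z → Bool) → ℤ := fun τ =>
    if a (Fin.cons false τ) = a (Fin.cons true τ) ∧ 2 * a (Fin.cons false τ) = A then f τ else 0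
  have hsplit : ∀ τ, (if a (Fin.cons false τ) = a (Fin.cons true τ) then
        gm (bz p) H (w τ) (a (Fin.cons false τ)) (a (Fin.cons false τ) - cn τ + B) else 0) =
      F1 τ + F2 τ + F3 τ := by
    intro τ
    simp only [F1, F2, F3]
    by_cases hf : a (Fin.cons false τ) = a (Fin.cons true τ)
    · rw [if_pos hf]
      rcases lt_trichotomy (2 * a (Fin.cons false τ)) A with h | h | h
      · rw [if_neg (by omega), if_pos ⟨hf, h⟩, if_neg (by omega)]; simp [f]
      · rw [if_neg (by omega), if_neg (by omega), if_pos ⟨hf, h⟩]; simp [f]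
      · rw [if_pos ⟨hf, h⟩, if_neg (by omega), if_neg (by omega)]; simp [f]
    · rw [if_neg hf, if_neg (fun h => hf h.1), if_neg (fun h => hf h.1), if_neg (fun h => hf h.1)]
      simp
  rw [Finset.sum_congr rfl (fun τ _ => hsplit τ), Finset.sum_add_distrib, Finset.sum_add_distrib]
  have h3 : 0 ≤ ∑ τ, F3 τ := by
    refine c3.trans_eq (Finset.sum_congr rfl ?_)
    intro τ _
    simp only [F3, f]
    by_cases h : a (Fin.cons false τ) = a (Fin.cons true τ) ∧ 2 * a (Fin.cons false τ) = A
    · rw [if_pos h, if_pos h]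
      have : w τ = c τ := by
        simp only [w]
        rw [if_neg (by omega), if_neg (by omega)]
      rw [this]
    · rw [if_neg h, if_neg h]
  have h12 : 0 ≤ ∑ τ, F1 τ + ∑ τ, F2 τ := by
    rw [← sum_ng F2, ← Finset.sum_add_distrib]
    have e1 : ∀ τ, F1 τ + F2 (ng τ) =
        if a (Fin.cons false τ) = a (Fin.cons true τ) ∧ A < 2 * a (Fin.cons false τ) then
        pg (bz p) H A R (ε (a (Fin.cons false τ))) (a (Fin.cons false τ))
          (a (Fin.cons false τ) - cn τ + B) else 0 := by
      intro τ
      simp only [F1, F2]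
      by_cases hf : a (Fin.cons false τ) = a (Fin.cons true τ)
      · obtain ⟨h1, h2⟩ := hflat τ hf
        by_cases h : A < 2 * a (Fin.cons false τ)
        · rw [if_pos ⟨hf, h⟩, if_pos ⟨h2, by omega⟩, if_pos ⟨hf, h⟩]
          simp only [f, pg]
          have hw1 : w τ = ε (a (Fin.cons false τ)) := by simp only [w]; rw [if_pos h]
          rw [w1 τ hf, hw1, h1, cn_ng]
          congr 2
          push_cast at hB
          linarith
        · rw [if_neg (fun h' => h h'.2), if_neg (by omega), if_neg (fun h' => h h'.2)]; rfl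
      · have h2 : ¬ a (Fin.cons false (ng τ)) = a (Fin.cons true (ng τ)) := by
          have h1 := sd0 ha τ
          have h2 := sd1 ha τ
          omega
        rw [if_neg (fun h' => hf h'.1), if_neg (fun h' => h2 h'.1), if_neg (fun h' => hf h'.1)]; rfl
    rw [Finset.sum_congr rfl (fun τ _ => e1 τ), ← Finset.sum_filter]
    rw [← Finset.sum_fiberwise_of_maps_to (g := fun τ : Fin z → Bool => a (Fin.cons false τ))
      (t := (univ.filter (fun τ : Fin z → Bool => a (Fin.cons false τ) = a (Fin.cons true τ) ∧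
        A < 2 * a (Fin.cons false τ))).image (fun τ : Fin z → Bool => a (Fin.cons false τ)))
      (fun x hx => Finset.mem_image_of_mem _ hx)]
    apply Finset.sum_nonneg
    intro m hm
    obtain ⟨τ0, hτ0, rfl⟩ := Finset.mem_image.1 hm
    have hm0 : A < 2 * a (Fin.cons false τ0) := (Finset.mem_filter.1 hτ0).2.2
    set m := a (Fin.cons false τ0)
    refine (hε m hm0.le).trans_eq ?_
    rw [Finset.filter_filter]
    have : (univ.filter (fun τ : Fin z → Bool =>
        a (Fin.cons false τ) = a (Fin.cons true τ) ∧ a (Fin.cons false τ) = m)) =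
        (univ.filter (fun τ : Fin z → Bool => (a (Fin.cons false τ) = a (Fin.cons true τ) ∧
          A < 2 * a (Fin.cons false τ)) ∧ a (Fin.cons false τ) = m)) := by
      ext τ
      simp only [Finset.mem_filter, Finset.mem_univ, true_and]
      constructor
      · rintro ⟨h1, h2⟩; exact ⟨⟨h1, by omega⟩, h2⟩
      · rintro ⟨⟨h1, _⟩, h2⟩; exact ⟨h1, h2⟩
    rw [this]
    apply Finset.sum_congr rfl
    intro τ hτ
    have h1 : a (Fin.cons false τ) = m := (Finset.mem_filter.1 hτ).2.2
    rw [h1]
  linarith

end core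

/-- deletion move for odd `A` -/
lemma amove_odd {z : ℕ} {A B R : ℤ} (p : ℕ) {H : ℤ → ℤ} (hH : Monotone H) (hH0 : ∀ b, 0 ≤ H b)
    (hA : A ≤ p - 1) (hB : 2 * B = R - A + (z + 1 : ℕ)) (a : (Fin (z + 1) → Bool) → ℤ)
    (ha : Val A a) (hodd : A % 2 = 1) :
    ∃ a' : (Fin z → Bool) → ℤ, Val (A + 1) a' ∧ VV (bz p) H B a ≤ VV (bz (p + 1)) H (B - 1) a' := by
  obtain ⟨a1, h1, h2, h3⟩ := heavy ha (bz p) H B
  rw [← h2]
  refine amove_core p hH hH0 hA hB h1 h3 (fun _ => true) ?_ ?_ ?_
  · intro τ _ h; omega
  · intro τ i _ _ _ _ h; omega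
  · apply Finset.sum_nonneg
    intro τ _
    rw [if_neg (by omega)]

/-- flipping one coordinate -/
def fl {z : ℕ} (j : Fin z) (τ : Fin z → Bool) : Fin z → Bool := update τ j (!τ j)

lemma fl_fl {z : ℕ} (j : Fin z) (τ : Fin z → Bool) : fl j (fl j τ) = τ := by
  unfold fl; simp

lemma fl_apply {z : ℕ} (j : Fin z) (τ : Fin z → Bool) : fl j τ j = !τ j := by
  unfold fl; simp

lemma fl_ng {z : ℕ} (j : Fin z) (τ : Fin z → Bool) : fl j (ng τ) = ng (fl j τ) := by
  unfold fl; rw [ng_update]; rfl

lemma sum_fl {z : ℕ} (j : Fin z) (f : (Fin z → Bool) → ℤ) : ∑ τ, f (fl j τ) = ∑ τ, f τ := by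
  apply Fintype.sum_equiv ⟨fl j, fl j, fl_fl j, fl_fl j⟩
  intro τ; rfl

lemma fl_false {z : ℕ} {j : Fin z} {τ : Fin z → Bool} (h : τ j = false) :
    fl j τ = update τ j true := by
  unfold fl; rw [h]; rfl

lemma fl_true {z : ℕ} {j : Fin z} {τ : Fin z → Bool} (h : τ j = true) :
    fl j τ = update τ j false := by
  unfold fl; rw [h]; rfl

/-- deletion move for even `A` under the criterion -/
lemma amove_even {z : ℕ} {A B R α : ℤ} (p : ℕ) {H : ℤ → ℤ} (hH : Monotone H)
    (hH0 : ∀ b, 0 ≤ H b) (hA : A ≤ p - 1) (hB : 2 * B = R - A + (z + 1 + 1 : ℕ))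
    (a : (Fin (z + 1 + 1) → Bool) → ℤ) (ha : Val A a) (hα : A = 2 * α)
    (hc : Crit (bz p) α H R) :
    ∃ a' : (Fin (z + 1) → Bool) → ℤ, Val (A + 1) a' ∧
      VV (bz p) H B a ≤ VV (bz (p + 1)) H (B - 1) a' := by
  classical
  obtain ⟨a1, ha1, h2, hv⟩ := heavy ha (bz p) H B
  rw [← h2]
  clear h2 ha a
  let j : Fin (z + 1) := 0
  let Z : (Fin (z + 1) → Bool) → Prop := fun τ => ∀ e, a1 (Fin.cons e τ) = α
  have hZng : ∀ τ, Z τ → Z (ng τ) := by
    intro τ h e
    have h1 := sd0 ha1 τ
    have h2 := sd1 ha1 τ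
    have h3 := h true
    have h4 := h false
    cases e <;> omega
  have hZng' : ∀ τ, Z (ng τ) → Z τ := by
    intro τ h
    have := hZng _ h
    rwa [ng_ng] at this
  have hZ : ∀ τ, (a1 (Fin.cons false τ) = a1 (Fin.cons true τ) ∧ 2 * a1 (Fin.cons false τ) = A) ↔
      Z τ := by
    intro τ
    constructor
    · rintro ⟨h1, h2⟩ e
      cases e <;> omega
    · intro h
      have h3 := h true
      have h4 := h false
      omega
  -- the singles
  let S : Bool → ℤ := fun e => ∑ τ, if Z τ ∧ ¬ Z (fl j τ) then
    gm (bz p) H (xor (τ j) e) α (α - cn τ + B) else 0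
  have hS : ∃ e, 0 ≤ S e := by
    by_contra hcon
    push Not at hcon
    have h1 := hcon true
    have h2 := hcon false
    have h3 : 0 ≤ S true + S false := by
      simp only [S]
      rw [← Finset.sum_add_distrib]
      apply Finset.sum_nonneg
      intro τ _
      by_cases h : Z τ ∧ ¬ Z (fl j τ)
      · rw [if_pos h, if_pos h]
        have e0 : gm (bz p) H (xor (τ j) true) α (α - cn τ + B) +
            gm (bz p) H (xor (τ j) false) α (α - cn τ + B) =
            cz p (α + 1) * H (α - cn τ + B) - cz p α * H (α - cn τ + B - 1) := by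
          have e1 := bz_pred p α
          have e2 := bz_succ p α
          rcases τ j with _ | _
          · simp only [gm, Bool.false_xor, Bool.false_eq_true, if_false, if_true]
            rw [e2, e1]; ring
          · simp only [gm, Bool.true_xor, Bool.not_true, Bool.not_false, Bool.false_eq_true,
              if_false, if_true]
            rw [e2, e1]; ring
        rw [e0]
        have h5 := cz_incr (p := p) (m := α) (by omega)
        have h6 := cz_nonneg p α
        have h7 := hH (show α - cn τ + B - 1 ≤ α - cn τ + B by omega)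
        have h8 := hH0 (α - cn τ + B - 1)
        have h9 := mul_le_mul h5 h7 h8 (h6.trans h5)
        linarith
      · rw [if_neg h, if_neg h]; rfl
    linarith
  obtain ⟨e0, he0⟩ := hS
  let c : (Fin (z + 1) → Bool) → Bool := fun τ => if Z (fl j τ) then τ j else xor (τ j) e0
  have hmono : ∀ (e : Bool) (τ : Fin (z + 1) → Bool) (i : Fin (z + 1)), τ i = false →
      a1 (Fin.cons e τ) ≤ a1 (Fin.cons e (update τ i true)) := by
    intro e τ i hi
    have := stS ha1 e τ hi
    omega
  refine amove_core p hH hH0 hA hB ha1 hv c ?_ ?_ ?_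
  · intro τ h1 h2
    simp only [c]
    rw [fl_ng]
    by_cases h : Z (fl j τ)
    · rw [if_pos h, if_pos (hZng _ h)]; rfl
    · rw [if_neg h, if_neg (fun h' => h (hZng' _ h')), ng_apply]
      cases τ j <;> cases e0 <;> rfl
  · intro τ i hi h1 h2 h3 h4 h5
    have hZ1 : Z τ := (hZ τ).1 ⟨h1, h4⟩
    have hZ2 : Z (update τ i true) := (hZ _).1 ⟨h2, by omega⟩
    simp only [c] at h5 ⊢
    by_cases hij : i = j
    · exfalso
      subst hij
      rw [if_pos (by rw [fl_false hi]; exact hZ2), hi] at h5
      exact absurd h5 (by decide)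
    · have hj : update τ i true j = τ j := update_of_ne (Ne.symm hij) _ _
      by_cases hd1 : Z (fl j τ)
      · by_cases hd2 : Z (fl j (update τ i true))
        · rw [if_pos hd2, hj]; rwa [if_pos hd1] at h5
        · exfalso
          rw [if_pos hd1] at h5
          apply hd2
          rw [fl_true (by rw [hj, h5]), update_comm (Ne.symm (Ne.symm hij))]
          rw [fl_true h5] at hd1
          intro e
          have k1 := hmono e (update τ j false) i (by rw [update_of_ne hij, hi])
          have k2 := hmono e (update (update τ j false) i true) j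
            (by rw [update_of_ne (Ne.symm hij), update_self])
          have k3 : update (update (update τ j false) i true) j true = update τ i true := by
            funext k
            by_cases hk : k = j
            · subst hk; rw [update_self, hj, h5]
            · rw [update_of_ne hk]
              by_cases hk2 : k = i
              · subst hk2; rw [update_self, update_self]
              · rw [update_of_ne hk2, update_of_ne hk2, update_of_ne hk]
          rw [k3] at k2
          have k4 := hd1 e
          have k5 := hZ2 e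
          omega
      · by_cases hd2 : Z (fl j (update τ i true))
        · rw [if_pos hd2, hj]
          by_contra hcon
          have h6 : τ j = false := by simpa using hcon
          apply hd1
          rw [fl_false (by rw [hj, h6])] at hd2
          rw [fl_false h6]
          intro e
          have k1 := hmono e τ j h6
          have k2 := hmono e (update τ j true) i (by rw [update_of_ne hij, hi])
          rw [update_comm (Ne.symm hij)] at k2
          have k4 := hd2 e
          have k5 := hZ1 e
          omega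
        · rw [if_neg hd2, hj]; rwa [if_neg hd1] at h5
  · have hsplit : ∀ τ, (if a1 (Fin.cons false τ) = a1 (Fin.cons true τ) ∧
        2 * a1 (Fin.cons false τ) = A then
        gm (bz p) H (c τ) (a1 (Fin.cons false τ)) (a1 (Fin.cons false τ) - cn τ + B) else 0) =
        (if Z τ ∧ ¬ Z (fl j τ) then gm (bz p) H (xor (τ j) e0) α (α - cn τ + B) else 0) +
        (if Z τ ∧ Z (fl j τ) then gm (bz p) H (τ j) α (α - cn τ + B) else 0) := by
      intro τ
      by_cases h : Z τ
      · rw [if_pos ((hZ τ).2 h), h false]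
        simp only [c]
        by_cases h' : Z (fl j τ)
        · rw [if_pos h', if_neg (fun k => k.2 h'), if_pos ⟨h, h'⟩, zero_add]
        · rw [if_neg h', if_pos ⟨h, h'⟩, if_neg (fun k => h' k.2), add_zero]
      · rw [if_neg (fun k => h ((hZ τ).1 k)), if_neg (fun k => h k.1), if_neg (fun k => h k.1)]
        rfl
    rw [Finset.sum_congr rfl (fun τ _ => hsplit τ), Finset.sum_add_distrib]
    refine add_nonneg he0 ?_
    -- the doubles
    let d : (Fin (z + 1) → Bool) → ℤ := fun τ =>
      if Z τ ∧ Z (fl j τ) then gm (bz p) H (τ j) α (α - cn τ + B) else 0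
    have hd : 4 * ∑ τ, d τ = ∑ τ, (d τ + d (fl j τ) + (d (ng τ) + d (fl j (ng τ)))) := by
      rw [Finset.sum_add_distrib, Finset.sum_add_distrib, Finset.sum_add_distrib]
      rw [sum_ng (fun τ => d τ), sum_fl j (fun τ => d τ), sum_ng (fun τ => d (fl j τ)),
        sum_fl j (fun τ => d τ)]
      ring
    suffices h : 0 ≤ 4 * ∑ τ, d τ by
      have : 0 ≤ ∑ τ, d τ := by omega
      exact this
    rw [hd]
    apply Finset.sum_nonneg
    intro τ _
    have key : ∀ τ : Fin (z + 1) → Bool, τ j = false →
        0 ≤ d τ + d (fl j τ) + (d (ng τ) + d (fl j (ng τ))) := by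
      intro τ hτ
      simp only [d]
      rw [fl_fl, fl_fl]
      by_cases h : Z τ ∧ Z (fl j τ)
      · have h' : Z (ng τ) ∧ Z (fl j (ng τ)) := ⟨hZng _ h.1, by rw [fl_ng]; exact hZng _ h.2⟩
        rw [if_pos h, if_pos ⟨h.2, h.1⟩, if_pos h', if_pos ⟨h'.2, h'.1⟩]
        rw [fl_apply, fl_apply, ng_apply, hτ, fl_ng, cn_ng, cn_ng, fl_false hτ, cn_update hτ]
        simp only [gm, Bool.not_true, Bool.not_false, Bool.false_eq_true, if_false, if_true]
        set b := α - cn τ + B with hb
        have hcr := hc (b - 1)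
        push_cast at hB
        rw [show α - (cn τ + 1) + B = b - 1 by rw [hb]; ring,
          show α - (((z + 1 : ℕ) : ℤ) - cn τ) + B = R - (b - 1) by rw [hb]; push_cast; linarith,
          show α - (((z + 1 : ℕ) : ℤ) - (cn τ + 1)) + B = R - (b - 1) + 1 by
            rw [hb]; push_cast; linarith]
        rw [sub_add_cancel, show R - (b - 1) + 1 - 1 = R - (b - 1) by ring] at *
        linarith
      · have h' : ¬ (Z (ng τ) ∧ Z (fl j (ng τ))) := by
          rintro ⟨k1, k2⟩
          rw [fl_ng] at k2
          exact h ⟨hZng' _ k1, hZng' _ k2⟩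
        rw [if_neg h, if_neg (fun k => h ⟨k.2, k.1⟩), if_neg h', if_neg (fun k => h' ⟨k.2, k.1⟩)]
        simp
    rcases hτ : τ j with _ | _
    · exact key τ hτ
    · have := key (fl j τ) (by rw [fl_apply, hτ]; rfl)
      rw [fl_fl, ← fl_ng, fl_fl] at this
      linarith

end Pool.Agent.MP_867aae_co.H75
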