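import Mathlib
import Pool.Agent.MP_867aae_co.H75.SMove
import Pool.Agent.MP_867aae_co.H75.SConv

/-!
The strong theorem: the weighted sum of a self-dual unit-step function is at most one of the
two-ball products.
-/

namespace Pool.Agent.MP_867aae_co.H75

open Finset Function

lemma VV_zero {A R B : ℤ} {a : (Fin 0 → Bool) → ℤ} (ha : Val A a)
    (hB : 2 * B = R - A + (0 : ℕ)) (G H : ℤ → ℤ) :
    A % 2 = 0 ∧ VV G H B a = G (A / 2) * H (R / 2) := by
  have h1 := ha.sd (fun i => i.elim0)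
  have h2 : ng (fun i : Fin 0 => (i.elim0 : Bool)) = fun i => i.elim0 := by
    funext i; exact i.elim0
  rw [h2] at h1
  refine ⟨by omega, ?_⟩
  unfold VV
  rw [Fintype.sum_subsingleton _ (fun i : Fin 0 => (i.elim0 : Bool))]
  have h4 : cn (fun i : Fin 0 => (i.elim0 : Bool)) = 0 := by
    unfold cn; simp
  rw [h4]
  push_cast at hB
  congr 2 <;> omega

/-- the choice between the two deletion moves when both centres are integral -/
lemma choice (p r : ℕ) {α β : ℤ} (hα : 2 * α ≤ p - 1) (hβ : 2 * β ≤ r - 1) :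
    Crit (bz p) α (bz r) (2 * β) ∨ Crit (bz r) β (bz p) (2 * α) := by
  have hG := fun k => L1 p α hα k
  have hH := fun k => L1 r β hβ k
  have hG0 := bz_nonneg p α
  have hH0 := bz_nonneg r β
  set G2 := bz p (α + 1) + bz p (α - 1) with hG2
  set H2 := bz r (β + 1) + bz r (β - 1) with hH2
  have hG2' : 0 ≤ G2 := add_nonneg (bz_nonneg _ _) (bz_nonneg _ _)
  have hH2' : 0 ≤ H2 := add_nonneg (bz_nonneg _ _) (bz_nonneg _ _)
  by_cases h1 : bz p α * H2 ≤ G2 * bz r β
  · by_cases h2 : bz r β = 0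
    · right
      intro b
      rw [h2, zero_mul]
      exact mul_nonneg hH2' (add_nonneg (bz_nonneg _ _) (bz_nonneg _ _))
    · left
      intro b
      have h3 : 0 < bz r β := lt_of_le_of_ne hH0 (Ne.symm h2)
      have h4 := hH (b - β)
      rw [show β + (b - β) + 1 = b + 1 by ring, show β + (b - β) - 1 = b - 1 by ring,
        show β - (b - β) + 1 = 2 * β - b + 1 by ring, show β - (b - β) - 1 = 2 * β - b - 1 by ring,
        show β + (b - β) = b by ring, show β - (b - β) = 2 * β - b by ring] at h4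
      have hs : 0 ≤ bz r b + bz r (2 * β - b) := add_nonneg (bz_nonneg _ _) (bz_nonneg _ _)
      apply le_of_mul_le_mul_left _ h3
      calc bz r β * (bz p α * (bz r (b - 1) + bz r (2 * β - b + 1) + bz r (b + 1) +
            bz r (2 * β - b - 1)))
          = bz p α * (bz r β * (bz r (b + 1) + bz r (b - 1) + bz r (2 * β - b + 1) +
            bz r (2 * β - b - 1))) := by ring
        _ ≤ bz p α * (H2 * (bz r b + bz r (2 * β - b))) := mul_le_mul_of_nonneg_left h4 hG0
        _ = (bz p α * H2) * (bz r b + bz r (2 * β - b)) := by ring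
        _ ≤ (G2 * bz r β) * (bz r b + bz r (2 * β - b)) := mul_le_mul_of_nonneg_right h1 hs
        _ = bz r β * (G2 * (bz r b + bz r (2 * β - b))) := by ring
  · right
    push Not at h1
    intro b
    have h3 : 0 < bz p α := by
      rcases hG0.lt_or_eq with h | h
      · exact h
      · exfalso
        rw [← h, zero_mul] at h1
        exact absurd (mul_nonneg hG2' hH0) (not_le.2 h1)
    have h4 := hG (b - α)
    rw [show α + (b - α) + 1 = b + 1 by ring, show α + (b - α) - 1 = b - 1 by ring,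
      show α - (b - α) + 1 = 2 * α - b + 1 by ring, show α - (b - α) - 1 = 2 * α - b - 1 by ring,
      show α + (b - α) = b by ring, show α - (b - α) = 2 * α - b by ring] at h4
    have hs : 0 ≤ bz p b + bz p (2 * α - b) := add_nonneg (bz_nonneg _ _) (bz_nonneg _ _)
    apply le_of_mul_le_mul_left _ h3
    calc bz p α * (bz r β * (bz p (b - 1) + bz p (2 * α - b + 1) + bz p (b + 1) +
          bz p (2 * α - b - 1)))
        = bz r β * (bz p α * (bz p (b + 1) + bz p (b - 1) + bz p (2 * α - b + 1) +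
          bz p (2 * α - b - 1))) := by ring
      _ ≤ bz r β * (G2 * (bz p b + bz p (2 * α - b))) := mul_le_mul_of_nonneg_left h4 hH0
      _ = (G2 * bz r β) * (bz p b + bz p (2 * α - b)) := by ring
      _ ≤ (bz p α * H2) * (bz p b + bz p (2 * α - b)) := mul_le_mul_of_nonneg_right h1.le hs
      _ = bz p α * (H2 * (bz p b + bz p (2 * α - b))) := by ring

/-- the strong theorem -/
theorem strong (z : ℕ) : ∀ (p r : ℕ) (A R B : ℤ) (a : (Fin z → Bool) → ℤ),
    A ≤ p - 1 → R ≤ r - 1 → 2 * B = R - A + z → Val A a →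
    ∃ z1 z2 : ℕ, z1 + z2 = z ∧ (A + z1) % 2 = 0 ∧
      VV (bz p) (bz r) B a ≤ bz (p + z1) ((A + z1) / 2) * bz (r + z2) ((R + z2) / 2) := by
  induction z with
  | zero =>
    intro p r A R B a _ _ hB ha
    obtain ⟨h1, h2⟩ := VV_zero ha hB (bz p) (bz r)
    exact ⟨0, 0, rfl, by simpa using h1, by rw [h2]; simp⟩
  | succ z ih =>
    intro p r A R B a hA hR hB ha
    -- the two ways to use a deletion move
    have fin1 : (∃ a' : (Fin z → Bool) → ℤ, Val (A + 1) a' ∧
        VV (bz p) (bz r) B a ≤ VV (bz (p + 1)) (bz r) (B - 1) a') →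
        ∃ z1 z2 : ℕ, z1 + z2 = z + 1 ∧ (A + z1) % 2 = 0 ∧
          VV (bz p) (bz r) B a ≤ bz (p + z1) ((A + z1) / 2) * bz (r + z2) ((R + z2) / 2) := by
      rintro ⟨a', h1, h2⟩
      obtain ⟨z1, z2, h3, h4, h5⟩ := ih (p + 1) r (A + 1) R (B - 1) a' (by push_cast; omega) hR
        (by push_cast at hB; linarith) h1
      refine ⟨z1 + 1, z2, by omega, by push_cast; omega, h2.trans (h5.trans_eq ?_)⟩
      rw [show p + 1 + z1 = p + (z1 + 1) by ring, show A + 1 + (z1 : ℤ) = A + ((z1 + 1 : ℕ) : ℤ) by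
        push_cast; ring]
    obtain ⟨b, hb, hVb⟩ := mirror ha hB (bz p) (bz r)
    have hB' : 2 * (((z + 1 : ℕ) : ℤ) - B) = A - R + (z + 1 : ℕ) := by linarith
    have fin2 : (∃ b' : (Fin z → Bool) → ℤ, Val (R + 1) b' ∧
        VV (bz r) (bz p) (((z + 1 : ℕ) : ℤ) - B) b ≤
          VV (bz (r + 1)) (bz p) (((z + 1 : ℕ) : ℤ) - B - 1) b') →
        ∃ z1 z2 : ℕ, z1 + z2 = z + 1 ∧ (A + z1) % 2 = 0 ∧
          VV (bz p) (bz r) B a ≤ bz (p + z1) ((A + z1) / 2) * bz (r + z2) ((R + z2) / 2) := by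
      rintro ⟨b', h1, h2⟩
      obtain ⟨z1, z2, h3, h4, h5⟩ := ih (r + 1) p (R + 1) A (((z + 1 : ℕ) : ℤ) - B - 1) b'
        (by push_cast; omega) hA (by push_cast at hB ⊢; linarith) h1
      refine ⟨z2, z1 + 1, by omega, by push_cast at hB; omega, ?_⟩
      rw [hVb]
      refine h2.trans (h5.trans_eq ?_)
      rw [mul_comm, show r + 1 + z1 = r + (z1 + 1) by ring,
        show R + 1 + (z1 : ℤ) = R + ((z1 + 1 : ℕ) : ℤ) by push_cast; ring]
    by_cases hAo : A % 2 = 1
    · exact fin1 (amove_odd p (bz_mono r) (bz_nonneg r) hA hB a ha hAo)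
    · by_cases hRo : R % 2 = 1
      · exact fin2 (amove_odd r (bz_mono p) (bz_nonneg p) hR hB' b hb hRo)
      · obtain ⟨m, rfl⟩ : ∃ m, z = m + 1 := ⟨z - 1, by push_cast at hB; omega⟩
        have hA2 : A = 2 * (A / 2) := by omega
        have hR2 : R = 2 * (R / 2) := by omega
        rcases choice p r (α := A / 2) (β := R / 2) (by omega) (by omega) with h | h
        · rw [← hR2] at h
          exact fin1 (amove_even p (bz_mono r) (bz_nonneg r) hA hB a ha hA2 h)
        · rw [← hA2] at h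
          exact fin2 (amove_even r (bz_mono p) (bz_nonneg p) hR hB' b hb hR2 h)

end Pool.Agent.MP_867aae_co.H75
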