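import Mathlib
import Pool.Agent.MP_867aae_co.H75.SMain

/-!
Extension of partial data to a self-dual unit-step function.
-/

namespace Pool.Agent.MP_867aae_co.H75

open Finset Function

/-- number of coordinates true in `τ` and false in `σ` -/
def df {z : ℕ} (τ σ : Fin z → Bool) : ℤ := ∑ i, if τ i = true ∧ σ i = false then 1 else 0

lemma df_nonneg {z : ℕ} (τ σ : Fin z → Bool) : 0 ≤ df τ σ :=
  Finset.sum_nonneg fun i _ => by split_ifs <;> norm_num

lemma df_self {z : ℕ} (τ : Fin z → Bool) : df τ τ = 0 := by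
  unfold df
  apply Finset.sum_eq_zero
  intro i _
  rw [if_neg]
  rintro ⟨h1, h2⟩
  rw [h1] at h2
  exact absurd h2 (by decide)

lemma df_tri {z : ℕ} (τ τ' σ : Fin z → Bool) : df τ (ng τ') ≤ df τ σ + df τ' (ng σ) := by
  unfold df
  rw [← Finset.sum_add_distrib]
  apply Finset.sum_le_sum
  intro i _
  rcases h1 : τ i with _ | _ <;> rcases h2 : τ' i with _ | _ <;> rcases h3 : σ i with _ | _ <;>
    simp [ng_apply, h1, h2, h3]

lemma df_update {z : ℕ} (τ : Fin z → Bool) {σ : Fin z → Bool} {i : Fin z} (h : σ i = false) :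
    df τ (update σ i true) ≤ df τ σ ∧ df τ σ ≤ df τ (update σ i true) + 1 := by
  unfold df
  rw [← Finset.add_sum_erase _ _ (Finset.mem_univ i),
    ← Finset.add_sum_erase univ (fun i => if τ i = true ∧ σ i = false then (1 : ℤ) else 0)
      (Finset.mem_univ i)]
  have : ∑ x ∈ univ.erase i, (if τ x = true ∧ update σ i true x = false then (1 : ℤ) else 0) =
      ∑ x ∈ univ.erase i, if τ x = true ∧ σ x = false then 1 else 0 := by
    apply Finset.sum_congr rfl
    intro x hx
    rw [update_of_ne (Finset.ne_of_mem_erase hx)]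
  rw [this, h, update_self]
  constructor
  · have h1 : (if τ i = true ∧ true = false then (1 : ℤ) else 0) = 0 := by simp
    rw [h1]
    split_ifs <;> omega
  · split_ifs <;> omega

/-- extension by a median -/
lemma extend {z : ℕ} {A : ℤ} {c : (Fin z → Bool) → ℤ} (hc : Val A c)
    (S : Finset (Fin z → Bool)) (f : (Fin z → Bool) → ℤ)
    (hf : ∀ τ ∈ S, ∀ τ' ∈ S, f τ + f τ' ≤ A + df τ (ng τ')) :
    ∃ a : (Fin z → Bool) → ℤ, Val A a ∧ ∀ τ ∈ S, f τ ≤ a τ := by
  rcases S.eq_empty_or_nonempty with h | hne
  · subst h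
    exact ⟨c, hc, fun τ h => absurd h (Finset.notMem_empty _)⟩
  · let lo : (Fin z → Bool) → ℤ := fun σ => S.sup' hne (fun τ => f τ - df τ σ)
    have hlo : ∀ σ, ∀ τ ∈ S, f τ - df τ σ ≤ lo σ := fun σ τ hτ =>
      Finset.le_sup' (fun τ => f τ - df τ σ) hτ
    have hlo2 : ∀ σ, ∃ τ ∈ S, lo σ = f τ - df τ σ := by
      intro σ
      exact Finset.exists_mem_eq_sup' hne _
    have hstep : ∀ σ i, σ i = false → lo σ ≤ lo (update σ i true) ∧
        lo (update σ i true) ≤ lo σ + 1 := by
      intro σ i hi
      constructor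
      · obtain ⟨τ, hτ, h1⟩ := hlo2 σ
        have h2 := hlo (update σ i true) τ hτ
        have h3 := df_update τ hi
        omega
      · obtain ⟨τ, hτ, h1⟩ := hlo2 (update σ i true)
        have h2 := hlo σ τ hτ
        have h3 := df_update τ hi
        omega
    have hsum : ∀ σ, lo σ + lo (ng σ) ≤ A := by
      intro σ
      obtain ⟨τ, hτ, h1⟩ := hlo2 σ
      obtain ⟨τ', hτ', h2⟩ := hlo2 (ng σ)
      have h3 := hf τ hτ τ' hτ'
      have h4 := df_tri τ τ' σ
      omega
    refine ⟨fun σ => max (lo σ) (min (A - lo (ng σ)) (c σ)), ⟨?_, ?_⟩, ?_⟩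
    · intro σ
      have h1 := hsum σ
      have h2 := hc.sd σ
      simp only [ng_ng]
      omega
    · intro σ i hi
      have h1 := hstep σ i hi
      have h2 := hc.st σ i hi
      have h3 := hstep (ng (update σ i true)) i (by simp [ng])
      have h4 : update (ng (update σ i true)) i true = ng σ := by
        rw [ng_update, update_idem]
        funext k
        by_cases h : k = i
        · subst h; simp [ng, hi]
        · simp [h]
      rw [h4] at h3
      have h5 := hsum σ
      have h6 := hsum (update σ i true)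
      omega
    · intro τ hτ
      have h1 := hlo τ τ hτ
      rw [df_self] at h1
      exact le_trans (by linarith) (le_max_left _ _)

lemma val_const {z : ℕ} : Val 0 (fun _ : Fin z → Bool => (0 : ℤ)) :=
  ⟨fun _ => by simp, fun _ _ _ => Or.inl rfl⟩

/-- a self-dual unit-step function exists for every value of `A` when there is a coordinate -/
lemma exists_val {z : ℕ} (A : ℤ) (h : A % 2 = 0 ∨ 0 < z) : ∃ c : (Fin z → Bool) → ℤ, Val A c := by
  by_cases hA : A % 2 = 0
  · exact ⟨fun _ => A / 2, fun _ => by omega, fun _ _ _ => Or.inl rfl⟩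
  · have hz : 0 < z := by
      rcases h with h | h
      · exact absurd h hA
      · exact h
    let i0 : Fin z := ⟨0, hz⟩
    refine ⟨fun σ => A / 2 + (if σ i0 = true then 1 else 0), ?_, ?_⟩
    · intro σ
      rcases h1 : σ i0 with _ | _ <;> simp [ng_apply, h1] <;> omega
    · intro σ i hi
      by_cases h1 : i = i0
      · subst h1
        rw [update_self, hi]
        right; simp
      · rw [update_of_ne (Ne.symm h1)]
        left; rfl

end Pool.Agent.MP_867aae_co.H75
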