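import Mathlib
import Pool.Agent.MP_867aae_co.H75.SExt
import Pool.Agent.MP_867aae_co.H75.Count

/-!
From families to weighted sums of self-dual functions.
-/

namespace Pool.Agent.MP_867aae_co.H75

open Finset Function

section chi
variable {z : ℕ} (Z : Finset ℕ) (hz : Z.card = z)

/-- characteristic string of `A` on `Z` -/
def chi (A : Finset ℕ) : Fin z → Bool := fun i => decide (Z.orderEmbOfFin hz i ∈ A)

lemma sum_chi (T : Finset ℕ) :
    (∑ i : Fin z, if Z.orderEmbOfFin hz i ∈ T then (1 : ℤ) else 0) = (Z ∩ T).card := by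
  have h1 : (Z ∩ T).card = ∑ x ∈ Z, if x ∈ T then 1 else 0 := by
    rw [Finset.card_eq_sum_ones, ← Finset.sum_filter, ← Finset.filter_mem_eq_inter]
  rw [h1]
  conv_rhs => rw [← Finset.map_orderEmbOfFin_univ Z hz]
  rw [Finset.sum_map]
  push_cast
  rfl

lemma cn_chi (A : Finset ℕ) : cn (chi Z hz A) = (Z ∩ A).card := by
  rw [← sum_chi Z hz]
  unfold cn chi
  apply Finset.sum_congr rfl
  intro i _
  simp

lemma df_chi (A B : Finset ℕ) : df (chi Z hz A) (ng (chi Z hz B)) = (Z ∩ (A ∩ B)).card := by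
  rw [← sum_chi Z hz]
  unfold df chi ng
  apply Finset.sum_congr rfl
  intro i _
  simp

lemma df_ng_chi (A B : Finset ℕ) :
    df (ng (chi Z hz A)) (ng (ng (chi Z hz B))) = (Z \ (A ∪ B)).card := by
  have : Z \ (A ∪ B) = Z ∩ (Z \ (A ∪ B)) := by
    ext x; simp
  rw [this, ← sum_chi Z hz]
  unfold df chi ng
  apply Finset.sum_congr rfl
  intro i _
  have hi : Z.orderEmbOfFin hz i ∈ Z := Finset.orderEmbOfFin_mem Z hz i
  simp [hi]

lemma chi_inj {A B : Finset ℕ} (h : chi Z hz A = chi Z hz B) : Z ∩ A = Z ∩ B := by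
  ext x
  simp only [Finset.mem_inter]
  have key : x ∈ Z → (x ∈ A ↔ x ∈ B) := by
    intro hx
    have hr : x ∈ Set.range (Z.orderEmbOfFin hz) := by
      rw [Finset.range_orderEmbOfFin]; exact hx
    obtain ⟨i, rfl⟩ := hr
    have := congrFun h i
    simpa [chi] using this
  tauto

end chi

/-- log-concavity for ball quotients -/
lemma ratio (s : ℕ) {b m : ℤ} (hb : 0 ≤ b) (h : b ≤ m) :
    cz s (m + 1) * bz s b ≤ bz s m * cz s (b + 1) := by
  obtain ⟨n, rfl⟩ := Int.le.dest h
  clear h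
  have hpos : ∀ k : ℤ, 0 ≤ k → 0 < bz s k := by
    intro k hk
    have h1 := bz_mono s hk
    have : bz s 0 = 1 := by simp [bz, Ball_zero]
    omega
  induction n with
  | zero => simp [mul_comm]
  | succ n ih =>
    have h1 : cz s (b + n + 1 + 1) * bz s (b + n) ≤ cz s (b + n + 1) * bz s (b + n + 1) := by
      apply bz_lc _ (cz_nonneg _ _)
      intro k hk
      exact cz_lc (by omega)
    have e : b + ((n + 1 : ℕ) : ℤ) = b + n + 1 := by push_cast; ring
    rw [e]
    have hp := hpos (b + n) (by omega)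
    apply le_of_mul_le_mul_left _ hp
    have h2 := hpos b hb
    have h3 := hpos (b + n + 1) (by omega)
    calc bz s (b + n) * (cz s (b + n + 1 + 1) * bz s b)
        = (cz s (b + n + 1 + 1) * bz s (b + n)) * bz s b := by ring
      _ ≤ (cz s (b + n + 1) * bz s (b + n + 1)) * bz s b := mul_le_mul_of_nonneg_right h1 h2.le
      _ = (cz s (b + n + 1) * bz s b) * bz s (b + n + 1) := by ring
      _ ≤ (bz s (b + n) * cz s (b + 1)) * bz s (b + n + 1) := mul_le_mul_of_nonneg_right ih h3.le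
      _ = bz s (b + n) * (bz s (b + n + 1) * cz s (b + 1)) := by ring

lemma bz_pos (s : ℕ) {k : ℤ} (hk : 0 ≤ k) : 0 < bz s k := by
  have h1 := bz_mono s hk
  have : bz s 0 = 1 := by simp [bz, Ball_zero]
  omega

/-- one of the two strong completions loses nothing -/
lemma two_sums {ι : Type*} (S : Finset ι) (a b c : ι → ℤ) (h : ℤ) (t s : ℕ)
    (ha : ∀ σ ∈ S, 0 ≤ a σ) (hb : ∀ σ ∈ S, 0 ≤ b σ)
    (hmix : ∀ σ ∈ S, ∀ τ ∈ S, a σ + a τ ≤ c σ)
    (cond : ∀ i j : ℤ, 0 ≤ i → 0 ≤ j → i + j + 1 ≤ h →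
      bz t i * bz s j ≤ cz t (i + 1) * cz s (j + 1)) :
    ∑ σ ∈ S, bz t (a σ) * bz s (b σ) ≤ ∑ σ ∈ S, bz t (a σ) * bz s (a σ - c σ + h) ∨
    ∑ σ ∈ S, bz t (a σ) * bz s (b σ) ≤ ∑ σ ∈ S, bz s (b σ) * bz t (b σ + c σ - h) := by
  classical
  by_contra hcon
  push Not at hcon
  obtain ⟨c1, c2⟩ := hcon
  let Ep := S.filter (fun σ => 0 < a σ - c σ + h - b σ)
  let Em := S.filter (fun σ => a σ - c σ + h - b σ < 0)
  have hEp : Ep.Nonempty := by
    by_contra hne
    rw [Finset.not_nonempty_iff_eq_empty] at hne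
    apply absurd c2
    push Not
    apply Finset.sum_le_sum
    intro σ hσ
    have h1 : a σ ≤ b σ + c σ - h := by
      by_contra h2
      have : σ ∈ Ep := Finset.mem_filter.2 ⟨hσ, by omega⟩
      rw [hne] at this
      exact absurd this (Finset.notMem_empty _)
    rw [mul_comm]
    exact mul_le_mul_of_nonneg_left (bz_mono t h1) (bz_nonneg _ _)
  have hEm : Em.Nonempty := by
    by_contra hne
    rw [Finset.not_nonempty_iff_eq_empty] at hne
    apply absurd c1
    push Not
    apply Finset.sum_le_sum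
    intro σ hσ
    have h1 : b σ ≤ a σ - c σ + h := by
      by_contra h2
      have : σ ∈ Em := Finset.mem_filter.2 ⟨hσ, by omega⟩
      rw [hne] at this
      exact absurd this (Finset.notMem_empty _)
    exact mul_le_mul_of_nonneg_left (bz_mono s h1) (bz_nonneg _ _)
  obtain ⟨σp, hσp, hmaxp⟩ := Finset.exists_max_image Ep b hEp
  obtain ⟨σm, hσm, hmaxm⟩ := Finset.exists_max_image Em a hEm
  obtain ⟨hσpS, hσp2⟩ := Finset.mem_filter.1 hσp
  obtain ⟨hσmS, hσm2⟩ := Finset.mem_filter.1 hσm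
  set β := b σp with hβ
  set α := a σm with hα
  have hβ0 : 0 ≤ β := hb σp hσpS
  have hα0 : 0 ≤ α := ha σm hσmS
  have hαβ : α + β + 1 ≤ h := by
    have := hmix σp hσpS σm hσmS
    omega
  have hstar := cond α β hα0 hβ0 hαβ
  have hHβ := bz_pos s hβ0
  have hGα := bz_pos t hα0
  set Wp := ∑ σ ∈ S, if 0 < a σ - c σ + h - b σ then bz t (a σ) * bz s (b σ) else 0 with hWp
  set Wm := ∑ σ ∈ S, if a σ - c σ + h - b σ < 0 then bz t (a σ) * bz s (b σ) else 0 with hWm
  have hWp0 : 0 ≤ Wp := Finset.sum_nonneg fun σ _ => by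
    split_ifs
    · exact mul_nonneg (bz_nonneg _ _) (bz_nonneg _ _)
    · exact le_refl _
  have hWm0 : 0 ≤ Wm := Finset.sum_nonneg fun σ _ => by
    split_ifs
    · exact mul_nonneg (bz_nonneg _ _) (bz_nonneg _ _)
    · exact le_refl _
  have key1 : bz s β * ∑ σ ∈ S, bz t (a σ) * bz s (b σ) + cz s (β + 1) * Wp ≤
      bz s β * ∑ σ ∈ S, bz t (a σ) * bz s (a σ - c σ + h) + bz s β * Wm := by
    rw [hWp, hWm, Finset.mul_sum, Finset.mul_sum, Finset.mul_sum, Finset.mul_sum,
      ← Finset.sum_add_distrib, ← Finset.sum_add_distrib]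
    apply Finset.sum_le_sum
    intro σ hσ
    have g1 := bz_nonneg t (a σ)
    have g2 := bz_nonneg s (b σ)
    have g3 := bz_nonneg s (a σ - c σ + h)
    rcases lt_trichotomy (a σ - c σ + h - b σ) 0 with he | he | he
    · rw [if_neg (by omega), if_pos he]
      have := mul_nonneg hHβ.le (mul_nonneg g1 g3)
      linarith
    · rw [if_neg (by omega), if_neg (by omega)]
      have : a σ - c σ + h = b σ := by omega
      rw [this]
      linarith
    · rw [if_pos he, if_neg (by omega)]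
      have h1 : bz s (b σ + 1) ≤ bz s (a σ - c σ + h) := bz_mono s (by omega)
      rw [bz_succ] at h1
      have h2 := ratio s (hb σ hσ) (hmaxp σ (Finset.mem_filter.2 ⟨hσ, he⟩))
      have h3 : bz s β * bz s (b σ) + cz s (β + 1) * bz s (b σ) ≤
          bz s β * bz s (a σ - c σ + h) := by
        have := mul_le_mul_of_nonneg_left h1 hHβ.le
        linarith
      have := mul_le_mul_of_nonneg_left h3 g1
      linarith
  have key2 : bz t α * ∑ σ ∈ S, bz t (a σ) * bz s (b σ) + cz t (α + 1) * Wm ≤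
      bz t α * ∑ σ ∈ S, bz s (b σ) * bz t (b σ + c σ - h) + bz t α * Wp := by
    rw [hWp, hWm, Finset.mul_sum, Finset.mul_sum, Finset.mul_sum, Finset.mul_sum,
      ← Finset.sum_add_distrib, ← Finset.sum_add_distrib]
    apply Finset.sum_le_sum
    intro σ hσ
    have g1 := bz_nonneg t (a σ)
    have g2 := bz_nonneg s (b σ)
    have g3 := bz_nonneg t (b σ + c σ - h)
    rcases lt_trichotomy (a σ - c σ + h - b σ) 0 with he | he | he
    · rw [if_pos he, if_neg (by omega)]
      have h1 : bz t (a σ + 1) ≤ bz t (b σ + c σ - h) := bz_mono t (by omega)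
      rw [bz_succ] at h1
      have h2 := ratio t (ha σ hσ) (hmaxm σ (Finset.mem_filter.2 ⟨hσ, he⟩))
      have h3 : bz t α * bz t (a σ) + cz t (α + 1) * bz t (a σ) ≤
          bz t α * bz t (b σ + c σ - h) := by
        have := mul_le_mul_of_nonneg_left h1 hGα.le
        linarith
      have := mul_le_mul_of_nonneg_left h3 g2
      linarith
    · rw [if_neg (by omega), if_neg (by omega)]
      have : b σ + c σ - h = a σ := by omega
      rw [this]
      linarith
    · rw [if_neg (by omega), if_pos he]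
      have := mul_nonneg hGα.le (mul_nonneg g2 g3)
      linarith
  have d1 : cz s (β + 1) * Wp < bz s β * Wm := by
    have := mul_lt_mul_of_pos_left c1 hHβ
    linarith
  have d2 : cz t (α + 1) * Wm < bz t α * Wp := by
    have := mul_lt_mul_of_pos_left c2 hGα
    linarith
  have d3 := mul_lt_mul'' d1 d2 (mul_nonneg (cz_nonneg _ _) hWp0) (mul_nonneg (cz_nonneg _ _) hWm0)
  have d4 : (bz t α * bz s β) * (Wp * Wm) ≤ (cz t (α + 1) * cz s (β + 1)) * (Wp * Wm) :=
    mul_le_mul_of_nonneg_right hstar (mul_nonneg hWp0 hWm0)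
  linarith

/-- the two-ball inequality in the linear range -/
lemma starstar {t s i j h : ℕ} (ht : 2 * h ≤ t) (hs : 2 * h ≤ s) (hij : i + j + 1 ≤ h) :
    Ball t i * Ball s j ≤ t.choose (i + 1) * s.choose (j + 1) := by
  have key : ∀ t i : ℕ, 2 * i + 1 ≤ t →
      ((t : ℤ) - 2 * i + 1) * (t - i) * Ball t i ≤ (t - i + 1) * (i + 1) * t.choose (i + 1) := by
    intro t i hti
    have h1 := tail (t - 2 * i) i
    rw [show t - 2 * i + 2 * i = t by omega] at h1
    have h1' : ((t : ℤ) - 2 * i + 1) * Ball t i ≤ (t - i + 1) * t.choose i := by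
      have : ((t - 2 * i + 1 : ℕ) : ℤ) * Ball t i ≤ ((t - 2 * i + i + 1 : ℕ) : ℤ) * t.choose i := by
        exact_mod_cast h1
      rw [show ((t - 2 * i + 1 : ℕ) : ℤ) = (t : ℤ) - 2 * i + 1 by omega,
        show ((t - 2 * i + i + 1 : ℕ) : ℤ) = (t : ℤ) - i + 1 by omega] at this
      exact this
    have h2 := Nat.choose_succ_right_eq t i
    have h2' : (t.choose (i + 1) : ℤ) * (i + 1) = t.choose i * (t - i) := by
      have : ((t.choose (i + 1) * (i + 1) : ℕ) : ℤ) = ((t.choose i * (t - i) : ℕ) : ℤ) := by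
        rw [h2]
      push_cast [show i ≤ t by omega] at this
      exact this
    have h3 : (0 : ℤ) ≤ t - i := by omega
    calc ((t : ℤ) - 2 * i + 1) * (t - i) * Ball t i
        = (((t : ℤ) - 2 * i + 1) * Ball t i) * (t - i) := by ring
      _ ≤ ((t - i + 1) * t.choose i) * (t - i) := mul_le_mul_of_nonneg_right h1' h3
      _ = (t - i + 1) * (i + 1) * t.choose (i + 1) := by
        linear_combination (-(t - i + 1 : ℤ)) * h2'
  have k1 := key t i (by omega)
  have k2 := key s j (by omega)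
  have hT : (0 : ℤ) < (t - 2 * i + 1) * (t - i) := mul_pos (by omega) (by omega)
  have hS : (0 : ℤ) < (s - 2 * j + 1) * (s - j) := mul_pos (by omega) (by omega)
  have n1 : (0 : ℤ) ≤ (s - 2 * j + 1) * (s - j) * Ball s j := mul_nonneg hS.le (by positivity)
  have n2 : (0 : ℤ) ≤ (t - i + 1) * (i + 1) * t.choose (i + 1) := by
    apply mul_nonneg (mul_nonneg (by omega) (by omega)) (by positivity)
  have m := mul_le_mul k1 k2 n1 n2
  have hQ : ((t : ℤ) - i + 1) * (i + 1) * ((s - j + 1) * (j + 1)) ≤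
      ((t : ℤ) - 2 * i + 1) * (t - i) * ((s - 2 * j + 1) * (s - j)) := by
    have e1 : (t : ℤ) - i + 1 ≤ 2 * (t - i) := by omega
    have e2 : (s : ℤ) - j + 1 ≤ 2 * (s - j) := by omega
    have e3 : (2 * (j : ℤ) + 3) ≤ t - 2 * i + 1 := by omega
    have e4 : (2 * (i : ℤ) + 3) ≤ s - 2 * j + 1 := by omega
    have f1 : (0 : ℤ) ≤ t - i := by omega
    have f2 : (0 : ℤ) ≤ s - j := by omega
    calc ((t : ℤ) - i + 1) * (i + 1) * ((s - j + 1) * (j + 1))
        = ((t : ℤ) - i + 1) * (s - j + 1) * ((i + 1) * (j + 1)) := by ring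
      _ ≤ (2 * (t - i)) * (2 * (s - j)) * ((i + 1) * (j + 1)) := by
        apply mul_le_mul_of_nonneg_right _ (by positivity)
        exact mul_le_mul e1 e2 (by omega) (by omega)
      _ = ((t - i) * (s - j)) * (4 * ((i + 1) * (j + 1))) := by ring
      _ ≤ ((t - i) * (s - j)) * ((2 * j + 3) * (2 * i + 3)) := by
        apply mul_le_mul_of_nonneg_left _ (mul_nonneg f1 f2)
        nlinarith
      _ ≤ ((t - i) * (s - j)) * ((t - 2 * i + 1) * (s - 2 * j + 1)) := by
        apply mul_le_mul_of_nonneg_left _ (mul_nonneg f1 f2)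
        exact mul_le_mul e3 e4 (by positivity) (by omega)
      _ = _ := by ring
  have hfin : (((t : ℤ) - 2 * i + 1) * (t - i) * ((s - 2 * j + 1) * (s - j))) *
      ((Ball t i : ℤ) * Ball s j) ≤ (((t : ℤ) - 2 * i + 1) * (t - i) * ((s - 2 * j + 1) * (s - j))) *
      ((t.choose (i + 1) : ℤ) * s.choose (j + 1)) := by
    calc _ = ((t : ℤ) - 2 * i + 1) * (t - i) * Ball t i * ((s - 2 * j + 1) * (s - j) * Ball s j) := by
          ring
      _ ≤ _ := m
      _ = ((t : ℤ) - i + 1) * (i + 1) * ((s - j + 1) * (j + 1)) *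
          ((t.choose (i + 1) : ℤ) * s.choose (j + 1)) := by ring
      _ ≤ _ := mul_le_mul_of_nonneg_right hQ (by positivity)
  have := le_of_mul_le_mul_left hfin (mul_pos hT hS)
  exact_mod_cast this

end Pool.Agent.MP_867aae_co.H75
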