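import Mathlib
import Pool.Agent.MP_867aae_co.H75.SRed

/-!
The linear range, matched parity.
-/

namespace Pool.Agent.MP_867aae_co.H75

open Finset Function

variable {F : Finset (Finset ℕ)} {X L Z R : Finset ℕ} {t s : ℕ}

section
variable {z : ℕ} (Z) (hz : Z.card = z) (F) (L R)

/-- the strings of `F` -/
def cores : Finset (Fin z → Bool) := F.image (chi Z hz)

/-- largest number of missing points in `L` -/
def aS (σ : Fin z → Bool) : ℕ := (F.filter (fun A => chi Z hz A = σ)).sup (fun A => (L \ A).card)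

/-- largest number of members in `R` -/
def bS (σ : Fin z → Bool) : ℕ := (F.filter (fun A => chi Z hz A = σ)).sup (fun A => (R ∩ A).card)

lemma aS_mem {σ : Fin z → Bool} (h : σ ∈ cores F Z hz) :
    ∃ A ∈ F, chi Z hz A = σ ∧ aS F L Z hz σ = (L \ A).card := by
  obtain ⟨A0, hA0, h0⟩ := Finset.mem_image.1 h
  have hne : (F.filter (fun A => chi Z hz A = σ)).Nonempty := ⟨A0, Finset.mem_filter.2 ⟨hA0, h0⟩⟩
  obtain ⟨A, hA, h1⟩ := Finset.exists_mem_eq_sup _ hne (fun A => (L \ A).card)
  rw [Finset.mem_filter] at hA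
  exact ⟨A, hA.1, hA.2, h1⟩

lemma bS_mem {σ : Fin z → Bool} (h : σ ∈ cores F Z hz) :
    ∃ A ∈ F, chi Z hz A = σ ∧ bS F Z R hz σ = (R ∩ A).card := by
  obtain ⟨A0, hA0, h0⟩ := Finset.mem_image.1 h
  have hne : (F.filter (fun A => chi Z hz A = σ)).Nonempty := ⟨A0, Finset.mem_filter.2 ⟨hA0, h0⟩⟩
  obtain ⟨A, hA, h1⟩ := Finset.exists_mem_eq_sup _ hne (fun A => (R ∩ A).card)
  rw [Finset.mem_filter] at hA
  exact ⟨A, hA.1, hA.2, h1⟩

end

lemma card_le_cores {z : ℕ} (b : Blk X L Z R t s) (hX : ∀ A ∈ F, A ⊆ X) (hz : Z.card = z) :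
    F.card ≤ ∑ σ ∈ cores F Z hz, Ball t (aS F L Z hz σ) * Ball s (bS F Z R hz σ) := by
  rw [card_eq_sum_card_fiberwise (f := chi Z hz) (t := cores F Z hz)
    (fun A hA => Finset.mem_image_of_mem _ hA)]
  apply Finset.sum_le_sum
  intro σ _
  have h := prod_bound (G := F.filter (fun A => chi Z hz A = σ)) (P := L) (Q := R)
    (a := aS F L Z hz σ) (b := bS F Z R hz σ) ?_ ?_ ?_
  · rw [b.cL, b.cR] at h
    exact h
  · intro B hB C hC h1 h2
    rw [Finset.mem_filter] at hB hC
    apply cover_inj (P := L) (Q := Z ∪ R)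
    · rw [← union_assoc, ← b.hX]; exact hX B hB.1
    · rw [← union_assoc, ← b.hX]; exact hX C hC.1
    · exact h1
    · rw [union_inter_distrib_right, union_inter_distrib_right, h2,
        chi_inj Z hz (hB.2.trans hC.2.symm)]
  · intro B hB
    exact Finset.le_sup (f := fun A => (L \ A).card) hB
  · intro B hB
    exact Finset.le_sup (f := fun A => (R ∩ A).card) hB

lemma linear_even (b : Blk X L Z R t s) (hF : Fam F X t s) (hs : Sh F X) {h : ℕ}
    (hm : Z.card = 2 * h)
    (cond : ∀ i j : ℕ, i + j + 1 ≤ h →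
      Ball t i * Ball s j ≤ t.choose (i + 1) * s.choose (j + 1)) :
    ∃ i j, i + j = h ∧ F.card ≤ Ball (t + 2 * i) i * Ball (s + 2 * j) j := by
  classical
  rcases Nat.eq_zero_or_pos h with h0 | hpos
  · subst h0
    refine ⟨0, 0, rfl, ?_⟩
    have h3 := prod_bound (G := F) (P := L) (Q := R) (a := 0) (b := 0) ?_ ?_ ?_
    · rw [b.cL, b.cR] at h3
      simpa using h3
    · intro B hB C hC h1 h2
      have hZ : Z = ∅ := Finset.card_eq_zero.1 (by omega)
      apply cover_inj (P := L) (Q := R) _ _ h1 h2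
      · have := hF.1 B hB
        rw [b.hX, hZ, union_empty] at this
        exact this
      · have := hF.1 C hC
        rw [b.hX, hZ, union_empty] at this
        exact this
    · intro B hB
      have := self_ineq b hF hs hB
      have h2 : (Z ∩ B).card ≤ Z.card := card_le_card inter_subset_left
      omega
    · intro B hB
      have := self_ineq b hF hs hB
      omega
  · have hts : 1 ≤ t ∧ 1 ≤ s := by
      have := cond 0 0 (by omega)
      rw [Ball_zero, Ball_zero, zero_add, Nat.choose_one_right, Nat.choose_one_right] at this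
      constructor
      · by_contra hc
        have : t = 0 := by omega
        subst this
        omega
      · by_contra hc
        have : s = 0 := by omega
        subst this
        omega
    set S := cores F Z hm with hS
    let a : (Fin (2 * h) → Bool) → ℤ := fun σ => aS F L Z hm σ
    let bb : (Fin (2 * h) → Bool) → ℤ := fun σ => bS F Z R hm σ
    have hcount : (F.card : ℤ) ≤ ∑ σ ∈ S, bz t (a σ) * bz s (bb σ) := by
      have h1 := card_le_cores b hF.1 hm
      have h2 : (F.card : ℤ) ≤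
          ((∑ σ ∈ S, Ball t (aS F L Z hm σ) * Ball s (bS F Z R hm σ) : ℕ) : ℤ) := by
        exact_mod_cast h1
      refine h2.trans_eq ?_
      push_cast
      apply Finset.sum_congr rfl
      intro σ _
      simp only [a, bb]
      rw [bz_nat, bz_nat]
    -- the pair conditions
    have hpa : ∀ σ ∈ S, ∀ τ ∈ S, a σ + a τ ≤ 0 + df σ (ng τ) := by
      intro σ hσ τ hτ
      obtain ⟨A, hA, rfl, h1⟩ := aS_mem F L Z hm hσ
      obtain ⟨B, hB, rfl, h2⟩ := aS_mem F L Z hm hτ
      simp only [a]
      rw [h1, h2, df_chi]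
      have h3 := two b hF hs hA hB
      rw [inter_comm] at h3
      rw [zero_add]
      exact_mod_cast h3
    have hpb : ∀ σ ∈ S, ∀ τ ∈ S, bb σ + bb τ ≤ df (ng σ) (ng (ng τ)) := by
      intro σ hσ τ hτ
      obtain ⟨A, hA, rfl, h1⟩ := bS_mem F Z R hm hσ
      obtain ⟨B, hB, rfl, h2⟩ := bS_mem F Z R hm hτ
      simp only [bb]
      rw [h1, h2, df_ng_chi]
      have h3 := two' b hF hs hA hB
      exact_mod_cast h3
    have hmix : ∀ σ ∈ S, ∀ τ ∈ S, a σ + a τ ≤ cn σ := by
      intro σ hσ τ hτ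
      have h1 := hpa σ hσ τ hτ
      have h2 : df σ (ng τ) ≤ cn σ := by
        unfold df cn
        apply Finset.sum_le_sum
        intro i _
        by_cases h : σ i = true
        · rw [if_pos h]
          split_ifs <;> norm_num
        · rw [if_neg h, if_neg (fun h' => h h'.1)]
      linarith
    have hcond : ∀ i j : ℤ, 0 ≤ i → 0 ≤ j → i + j + 1 ≤ (h : ℤ) →
        bz t i * bz s j ≤ cz t (i + 1) * cz s (j + 1) := by
      intro i j hi hj hij
      obtain ⟨i, rfl⟩ := Int.eq_ofNat_of_zero_le hi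
      obtain ⟨j, rfl⟩ := Int.eq_ofNat_of_zero_le hj
      rw [bz_nat, bz_nat]
      have e1 : ((i : ℤ) + 1) = ((i + 1 : ℕ) : ℤ) := by push_cast; ring
      have e2 : ((j : ℤ) + 1) = ((j + 1 : ℕ) : ℤ) := by push_cast; ring
      rw [e1, e2, cz_nat, cz_nat]
      exact_mod_cast cond i j (by omega)
    -- final step
    have fin : ∀ z1 z2 : ℕ, z1 + z2 = 2 * h → (0 + (z1 : ℤ)) % 2 = 0 →
        (F.card : ℤ) ≤ bz (t + z1) ((0 + z1) / 2) * bz (s + z2) ((0 + z2) / 2) →
        ∃ i j, i + j = h ∧ F.card ≤ Ball (t + 2 * i) i * Ball (s + 2 * j) j := by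
      intro z1 z2 h1 h2 h3
      obtain ⟨i, rfl⟩ : ∃ i, z1 = 2 * i := ⟨z1 / 2, by omega⟩
      obtain ⟨j, rfl⟩ : ∃ j, z2 = 2 * j := ⟨z2 / 2, by omega⟩
      refine ⟨i, j, by omega, ?_⟩
      have e1 : (0 + ((2 * i : ℕ) : ℤ)) / 2 = i := by omega
      have e2 : (0 + ((2 * j : ℕ) : ℤ)) / 2 = j := by omega
      rw [e1, e2, bz_nat, bz_nat] at h3
      exact_mod_cast h3
    rcases two_sums S a bb cn h t s (fun σ _ => by simp only [a]; positivity)
      (fun σ _ => by simp only [bb]; positivity) hmix hcond with h1 | h1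
    · obtain ⟨a', ha', hle⟩ := extend val_const S a hpa
      obtain ⟨z1, z2, e1, e2, e3⟩ := strong (2 * h) t s 0 0 h a' (by omega) (by omega)
        (by push_cast; ring) ha'
      apply fin z1 z2 e1 e2
      refine hcount.trans (h1.trans (le_trans ?_ e3))
      unfold VV
      refine le_trans ?_ (Finset.sum_le_univ_sum_of_nonneg
        (fun σ => mul_nonneg (bz_nonneg _ _) (bz_nonneg _ _)) (s := S))
      apply Finset.sum_le_sum
      intro σ hσ
      have := hle σ hσ
      exact mul_le_mul (bz_mono t this) (bz_mono s (by omega)) (bz_nonneg _ _) (bz_nonneg _ _)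
    · obtain ⟨b', hb', hle⟩ := extend val_const (S.image ng) (fun σ => bb (ng σ)) (by
        intro σ hσ τ hτ
        obtain ⟨σ', hσ', rfl⟩ := Finset.mem_image.1 hσ
        obtain ⟨τ', hτ', rfl⟩ := Finset.mem_image.1 hτ
        have := hpb σ' hσ' τ' hτ'
        rw [ng_ng] at this
        rw [ng_ng, ng_ng τ', zero_add]
        exact this)
      obtain ⟨z2, z1, e1, e2, e3⟩ := strong (2 * h) s t 0 0 h b' (by omega) (by omega)
        (by push_cast; ring) hb'
      apply fin z1 z2 (by omega) (by omega)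
      refine hcount.trans (h1.trans (le_trans ?_ (e3.trans_eq (mul_comm _ _))))
      unfold VV
      rw [← sum_ng]
      refine le_trans ?_ (Finset.sum_le_univ_sum_of_nonneg
        (fun σ => mul_nonneg (bz_nonneg _ _) (bz_nonneg _ _)) (s := S))
      apply Finset.sum_le_sum
      intro σ hσ
      have := hle (ng σ) (Finset.mem_image_of_mem _ hσ)
      rw [ng_ng] at this
      rw [cn_ng]
      push_cast
      exact mul_le_mul (bz_mono s this) (bz_mono t (by linarith)) (bz_nonneg _ _) (bz_nonneg _ _)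

end Pool.Agent.MP_867aae_co.H75
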