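import Mathlib
import Pool.Agent.MP_867aae_co.H75.SLin

/-!
Transfer to families of subsets of `Fin n`, and the two factors of the product families.
-/

namespace Pool.Agent.MP_867aae_co.H75

open Finset

lemma card_small_fin (N k : ℕ) :
    ((univ : Finset (Finset (Fin N))).filter (fun A => A.card ≤ k)).card = Ball N k := by
  have h := card_small (range N) k
  rw [card_range] at h
  rw [← h]
  apply card_bij (fun A _ => A.map Fin.valEmbedding)
  · intro A hA
    simp only [mem_filter, mem_univ, true_and] at hA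
    simp only [mem_filter, mem_powerset, card_map]
    refine ⟨?_, hA⟩
    intro x hx
    rw [mem_map] at hx
    obtain ⟨y, _, rfl⟩ := hx
    simp
  · intro A _ B _ h
    exact map_injective _ h
  · intro B hB
    simp only [mem_filter, mem_powerset] at hB
    refine ⟨univ.filter (fun x : Fin N => (x : ℕ) ∈ B), ?_, ?_⟩
    · simp only [mem_filter, mem_univ, true_and]
      refine le_trans ?_ hB.2
      apply card_le_card_of_injOn (fun x : Fin N => (x : ℕ))
      · intro x hx
        simpa using hx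
      · intro x _ y _ h
        exact Fin.ext h
    · ext x
      simp only [mem_map, mem_filter, mem_univ, true_and, Fin.valEmbedding_apply]
      constructor
      · rintro ⟨y, hy, rfl⟩; exact hy
      · intro hx
        exact ⟨⟨x, by simpa using hB.1 hx⟩, hx, rfl⟩

lemma exists_G (t i q : ℕ) (hq : q = t + 2 * i) : ∃ G : Finset (Finset (Fin q)),
    (∀ A ∈ G, ∀ B ∈ G, t ≤ (A ∩ B).card) ∧ Ball (t + 2 * i) i ≤ G.card := by
  refine ⟨((univ : Finset (Finset (Fin q))).filter (fun A => A.card ≤ i)).image (fun A => Aᶜ),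
    ?_, ?_⟩
  · intro A hA B hB
    obtain ⟨A0, hA0, rfl⟩ := mem_image.1 hA
    obtain ⟨B0, hB0, rfl⟩ := mem_image.1 hB
    rw [mem_filter] at hA0 hB0
    rw [← compl_union, card_compl, Fintype.card_fin]
    have := card_union_le A0 B0
    omega
  · rw [card_image_of_injective _ compl_injective, card_small_fin, hq]

lemma exists_H (s j r : ℕ) (hr : r = s + 2 * j) : ∃ H : Finset (Finset (Fin r)),
    (∀ A ∈ H, ∀ B ∈ H, (A ∪ B).card + s ≤ r) ∧ Ball (s + 2 * j) j ≤ H.card := by
  refine ⟨(univ : Finset (Finset (Fin r))).filter (fun A => A.card ≤ j), ?_, ?_⟩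
  · intro A hA B hB
    rw [mem_filter] at hA hB
    have := card_union_le A B
    omega
  · rw [card_small_fin, hr]

/-- conclusion from a numerical bound -/
lemma conclude {n t s h : ℕ} (hn : n = t + s + 2 * h) (F : Finset (Finset (Fin n)))
    (hb : ∃ i j, i + j = h ∧ F.card ≤ Ball (t + 2 * i) i * Ball (s + 2 * j) j) :
    ∃ q : ℕ, q ≤ n ∧
      ∃ G : Finset (Finset (Fin q)),
        (∀ A ∈ G, ∀ B ∈ G, t ≤ (A ∩ B).card) ∧
        ∃ H : Finset (Finset (Fin (n - q))),
          (∀ A ∈ H, ∀ B ∈ H, (A ∪ B).card + s ≤ n - q) ∧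
          F.card ≤ G.card * H.card := by
  obtain ⟨i, j, hij, hle⟩ := hb
  obtain ⟨G, hG1, hG2⟩ := exists_G t i (t + 2 * i) rfl
  obtain ⟨H, hH1, hH2⟩ := exists_H s j (n - (t + 2 * i)) (by omega)
  exact ⟨t + 2 * i, by omega, G, hG1, H, hH1, hle.trans (Nat.mul_le_mul hG2 hH2)⟩

/-- transfer of the linear range theorem to `Fin n` -/
lemma linear_fin {n t s h : ℕ} (hn : n = t + s + 2 * h) (F : Finset (Finset (Fin n)))
    (cond : ∀ i j : ℕ, i + j + 1 ≤ h →
      Ball t i * Ball s j ≤ t.choose (i + 1) * s.choose (j + 1))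
    (hF : ∀ A ∈ F, ∀ B ∈ F, t ≤ (A ∩ B).card ∧ (A ∪ B).card + s ≤ n) :
    ∃ i j, i + j = h ∧ F.card ≤ Ball (t + 2 * i) i * Ball (s + 2 * j) j := by
  set F' := F.image (fun A => A.map Fin.valEmbedding) with hF'
  have hcard : F'.card = F.card := card_image_of_injective _ (map_injective _)
  have hfam : Fam F' (range n) t s := by
    constructor
    · intro A hA
      obtain ⟨A0, _, rfl⟩ := mem_image.1 hA
      intro x hx
      obtain ⟨y, _, rfl⟩ := mem_map.1 hx
      simp
    · intro A hA B hB
      obtain ⟨A0, hA0, rfl⟩ := mem_image.1 hA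
      obtain ⟨B0, hB0, rfl⟩ := mem_image.1 hB
      have h := hF A0 hA0 B0 hB0
      have h2 := card_union_add_card_inter A0 B0
      rw [← map_inter, card_map, card_map, card_map, card_range]
      omega
  obtain ⟨F2, hfam2, hs2, hc2⟩ := exists_shifted _ F' rfl hfam
  have hb : Blk (range n) (range t) (Ico t (t + 2 * h)) (Ico (t + 2 * h) n) t s := by
    refine ⟨?_, ?_, ?_, ?_, ?_, ?_⟩
    · ext x
      simp only [mem_range, mem_union, mem_Ico]
      omega
    · intro x hx y hy
      rw [mem_range] at hx; rw [mem_Ico] at hy; omega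
    · intro x hx y hy
      rw [mem_range] at hx; rw [mem_Ico] at hy; omega
    · intro x hx y hy
      rw [mem_Ico] at hx hy; omega
    · simp
    · rw [Nat.card_Ico]; omega
  have hZ : (Ico t (t + 2 * h)).card = 2 * h := by rw [Nat.card_Ico]; omega
  obtain ⟨i, j, hij, hle⟩ := linear_even hb hfam2 hs2 hZ cond
  refine ⟨i, j, hij, ?_⟩
  rw [← hcard, ← hc2]
  exact hle

end Pool.Agent.MP_867aae_co.H75
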