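import Mathlib
import Pool.Agent.MP_867aae_co.H75.SLin

/-!
Families whose members have small one-sided differences.
-/

namespace Pool.Agent.MP_867aae_co.H75

open Finset Function

/-- characteristic string -/
def ch {n : ℕ} (A : Finset (Fin n)) : Fin n → Bool := fun i => decide (i ∈ A)

lemma ch_inj {n : ℕ} : Injective (ch (n := n)) := by
  intro A B h
  ext i
  have := congrFun h i
  simpa [ch] using this

lemma sum_ch {n : ℕ} (T : Finset (Fin n)) : (∑ i, if i ∈ T then (1 : ℤ) else 0) = T.card := by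
  rw [Finset.card_eq_sum_ones, ← Finset.sum_filter]
  simp

lemma cn_ch {n : ℕ} (A : Finset (Fin n)) : cn (ch A) = A.card := by
  rw [← sum_ch]
  unfold cn ch
  apply Finset.sum_congr rfl
  intro i _
  simp

lemma df_ch {n : ℕ} (A B : Finset (Fin n)) : df (ch A) (ng (ch B)) = (A ∩ B).card := by
  rw [← sum_ch]
  unfold df ch ng
  apply Finset.sum_congr rfl
  intro i _
  simp

lemma diff_families {n t s h : ℕ} (hn : n = t + s + 2 * h) (ht : 1 ≤ t) (hs : 1 ≤ s)
    (F : Finset (Finset (Fin n)))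
    (hF : ∀ A ∈ F, ∀ B ∈ F, t ≤ (A ∩ B).card ∧ (A ∪ B).card + s ≤ n ∧ (A \ B).card ≤ h) :
    ∃ i j, i + j = h ∧ F.card ≤ Ball (t + 2 * i) i * Ball (s + 2 * j) j := by
  classical
  obtain ⟨c, hc⟩ := exists_val (z := n) (-(t : ℤ)) (Or.inr (by omega))
  let f : (Fin n → Bool) → ℤ := fun σ => max 0 (cn σ - (t + h))
  have hf : ∀ τ ∈ F.image ch, ∀ τ' ∈ F.image ch, f τ + f τ' ≤ -(t : ℤ) + df τ (ng τ') := by
    intro τ hτ τ' hτ'
    obtain ⟨A, hA, rfl⟩ := Finset.mem_image.1 hτ
    obtain ⟨B, hB, rfl⟩ := Finset.mem_image.1 hτ'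
    simp only [f]
    rw [cn_ch, cn_ch, df_ch]
    obtain ⟨h1, h2, h3⟩ := hF A hA B hB
    obtain ⟨-, -, h4⟩ := hF B hB A hA
    have h5 := card_union_add_card_inter A B
    have h6 : (A ∩ B).card + (A \ B).card = A.card := card_inter_add_card_sdiff _ _
    have h7 : (B ∩ A).card + (B \ A).card = B.card := card_inter_add_card_sdiff _ _
    rw [inter_comm B A] at h7
    omega
  obtain ⟨a, ha, hle⟩ := extend hc (F.image ch) f hf
  obtain ⟨z1, z2, e1, e2, e3⟩ := strong n 0 0 (-(t : ℤ)) (-(s : ℤ)) (t + h) a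
    (by push_cast; omega) (by push_cast; omega) (by rw [hn]; push_cast; ring) ha
  have hcount : (F.card : ℤ) ≤ VV (bz 0) (bz 0) (t + h) a := by
    rw [← Finset.card_image_of_injective F ch_inj]
    unfold VV
    refine le_trans ?_ (Finset.sum_le_univ_sum_of_nonneg
      (fun σ => mul_nonneg (bz_nonneg _ _) (bz_nonneg _ _)) (s := F.image ch))
    rw [Finset.card_eq_sum_ones]
    push_cast
    apply Finset.sum_le_sum
    intro σ hσ
    have h1 := hle σ hσ
    simp only [f] at h1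
    have h2 : 0 < bz 0 (a σ) := bz_pos 0 (by omega)
    have h3 : 0 < bz 0 (a σ - cn σ + (t + h)) := bz_pos 0 (by omega)
    have := mul_pos h2 h3
    omega
  have e4 := hcount.trans e3
  by_cases hz1 : z1 < t
  · rw [bz_neg (show (-(t : ℤ) + z1) / 2 < 0 by omega), zero_mul] at e4
    have : F.card = 0 := by
      have h0 : (0 : ℤ) ≤ F.card := by positivity
      omega
    exact ⟨h, 0, by omega, by rw [this]; exact Nat.zero_le _⟩
  · by_cases hz2 : z2 < s
    · rw [bz_neg (show (-(s : ℤ) + z2) / 2 < 0 by omega), mul_zero] at e4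
      have : F.card = 0 := by
        have h0 : (0 : ℤ) ≤ F.card := by positivity
        omega
      exact ⟨h, 0, by omega, by rw [this]; exact Nat.zero_le _⟩
    · obtain ⟨i, rfl⟩ : ∃ i, z1 = t + 2 * i := ⟨(z1 - t) / 2, by omega⟩
      obtain ⟨j, rfl⟩ : ∃ j, z2 = s + 2 * j := ⟨(z2 - s) / 2, by omega⟩
      refine ⟨i, j, by omega, ?_⟩
      rw [show (-(t : ℤ) + ((t + 2 * i : ℕ) : ℤ)) / 2 = i by omega,
        show (-(s : ℤ) + ((s + 2 * j : ℕ) : ℤ)) / 2 = j by omega, bz_nat, bz_nat,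
        zero_add, zero_add] at e4
      exact_mod_cast e4

end Pool.Agent.MP_867aae_co.H75
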