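import Mathlib
import Pool.Agent.MP_867aae_co.H75.Count

/-!
The top level members and the main estimate for compressed families.
-/

namespace Pool.Agent.MP_867aae_co.H75

open Finset

variable {F : Finset (Finset ℕ)} {X L Z R : Finset ℕ} {t s : ℕ}

lemma card_LZ (b : Blk X L Z R t s) (A : Finset ℕ) :
    (L ∪ (Z ∩ A)).card = t + (Z ∩ A).card := by
  rw [card_union_of_disjoint (b.dLZ.mono_right inter_subset_left), b.cL]

lemma card_RZ (b : Blk X L Z R t s) (A : Finset ℕ) :
    (R ∪ (Z \ A)).card = s + (Z \ A).card := by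
  rw [card_union_of_disjoint (b.dZR.symm.mono_right sdiff_subset), b.cR]

lemma coverX (b : Blk X L Z R t s) (A : Finset ℕ) :
    X ⊆ (L ∪ (Z ∩ A)) ∪ (R ∪ (Z \ A)) := by
  intro x hx
  rw [b.hX] at hx
  simp only [mem_union, mem_inter, mem_sdiff] at hx ⊢
  tauto

lemma U_ineq (b : Blk X L Z R t s) (hF : Fam F X t s) (hs : Sh F X) {A B : Finset ℕ}
    (hA : A ∈ F) (hB : B ∈ F) : ((L ∪ (Z ∩ A)) \ B).card + (L \ A).card ≤ (Z ∩ A).card := by
  have h1 := two b hF hs hA hB
  have h2 : ((L ∪ (Z ∩ A)) \ B).card ≤ (L \ B).card + ((Z ∩ A) \ B).card := by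
    rw [union_sdiff_distrib]; exact card_union_le _ _
  have h3 : ((Z ∩ A) ∩ B).card + ((Z ∩ A) \ B).card = (Z ∩ A).card := card_inter_add_card_sdiff _ _
  have h4 : (Z ∩ A) ∩ B = (A ∩ B) ∩ Z := by
    ext x; simp only [mem_inter]; tauto
  rw [h4] at h3
  omega

lemma D_ineq (b : Blk X L Z R t s) (hF : Fam F X t s) (hs : Sh F X) {A B : Finset ℕ}
    (hA : A ∈ F) (hB : B ∈ F) : ((R ∪ (Z \ A)) ∩ B).card + (R ∩ A).card ≤ (Z \ A).card := by
  have h1 := two' b hF hs hA hB
  have h2 : ((R ∪ (Z \ A)) ∩ B).card ≤ (R ∩ B).card + ((Z \ A) ∩ B).card := by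
    rw [union_inter_distrib_right]; exact card_union_le _ _
  have h3 : ((Z \ A) ∩ B).card + ((Z \ A) \ B).card = (Z \ A).card := card_inter_add_card_sdiff _ _
  have h4 : (Z \ A) \ B = Z \ (A ∪ B) := by
    ext x; simp only [mem_sdiff, mem_union]; tauto
  rw [h4] at h3
  omega

lemma Mx_le_Ball {t s h : ℕ} : ∃ i j, i + j = h ∧
    Mx t s h ≤ Ball (t + 2 * i) i * Ball (s + 2 * j) j := by
  obtain ⟨i, j, hij, hM⟩ := exists_Mx t s h
  refine ⟨i, j, hij, ?_⟩
  rw [hM]
  apply Nat.mul_le_mul
  · exact (Nat.choose_le_choose i (by omega)).trans (choose_le_Ball _ _)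
  · exact (Nat.choose_le_choose j (by omega)).trans (choose_le_Ball _ _)

lemma even_case (b : Blk X L Z R t s) (hF : Fam F X t s) (hs : Sh F X) {h : ℕ}
    (hm : Z.card = 2 * h) (hT : 10 * (Z.card + 2) * (h + 1) + h ≤ t + s) :
    ∃ i j, i + j = h ∧ F.card ≤ Ball (t + 2 * i) i * Ball (s + 2 * j) j := by
  have hl := low_bound (ε := 0) b hF hs (by omega) (by omega) hT
  rcases (F.filter (fun A => (L \ A).card + (R ∩ A).card = h)).eq_empty_or_nonempty with he | hne
  · rw [he, card_empty, zero_add] at hl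
    obtain ⟨i, j, hij, hM⟩ := Mx_le_Ball (t := t) (s := s) (h := h)
    exact ⟨i, j, hij, hl.trans hM⟩
  · obtain ⟨A, hA⟩ := hne
    rw [mem_filter] at hA
    obtain ⟨hA, hlev⟩ := hA
    have h1 := self_ineq b hF hs hA
    have h2 : (Z ∩ A).card + (Z \ A).card = Z.card := card_inter_add_card_sdiff _ _
    have e1 : (Z ∩ A).card = 2 * (L \ A).card := by omega
    have e2 : (Z \ A).card = 2 * (R ∩ A).card := by omega
    refine ⟨(L \ A).card, (R ∩ A).card, hlev, ?_⟩
    have h3 := prod_bound (G := F) (P := L ∪ (Z ∩ A)) (Q := R ∪ (Z \ A)) (a := (L \ A).card)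
      (b := (R ∩ A).card)
      (fun B hB C hC g1 g2 => cover_inj ((hF.1 B hB).trans (coverX b A))
        ((hF.1 C hC).trans (coverX b A)) g1 g2)
      (fun B hB => by have := U_ineq b hF hs hA hB; omega)
      (fun B hB => by have := D_ineq b hF hs hA hB; omega)
    rw [card_LZ b, card_RZ b, e1, e2] at h3
    exact h3

/-- the case of two different top cores of the odd case -/
lemma odd_two (b : Blk X L Z R t s) (hF : Fam F X t s) (hs : Sh F X) {h : ℕ}
    (hm : Z.card = 2 * h + 1) {A A' : Finset ℕ} (hA : A ∈ F) (hA' : A' ∈ F)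
    (hl : (L \ A).card + (R ∩ A).card = h) (hl' : (L \ A').card + (R ∩ A').card = h)
    (hne : Z ∩ A ≠ Z ∩ A') (hle : (Z ∩ A).card ≤ (Z ∩ A').card) :
    ∃ i j, i + j = h ∧ F.card ≤ Ball (t + 2 * i) i * (2 * Ball (s + 2 * j) j) := by
  have h1 := self_ineq b hF hs hA
  have h1' := self_ineq b hF hs hA'
  have h2 := two b hF hs hA hA'
  have h3 := two' b hF hs hA hA'
  have h4 := card_ie Z A A'
  have h5 : (A ∩ A') ∩ Z = Z ∩ (A ∩ A') := inter_comm _ _
  rw [h5] at h2
  have hsub1 : Z ∩ (A ∩ A') ⊆ Z ∩ A := inter_subset_inter_left inter_subset_left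
  have hsub2 : Z ∩ (A ∩ A') ⊆ Z ∩ A' := inter_subset_inter_left inter_subset_right
  have hc1 := card_le_card hsub1
  have hc2 := card_le_card hsub2
  -- the two cores are nested and differ by one point
  have hne1 : (Z ∩ (A ∩ A')).card < (Z ∩ A').card := by
    by_contra hcon
    have e1 : Z ∩ (A ∩ A') = Z ∩ A' := eq_of_subset_of_card_le hsub2 (by omega)
    have e2 : Z ∩ (A ∩ A') = Z ∩ A := eq_of_subset_of_card_le hsub1 (by omega)
    exact hne (e2.symm.trans e1)
  have hS : (Z ∩ A).card = (L \ A).card + (L \ A').card := by omega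
  have hS' : (Z ∩ A').card = (L \ A).card + (L \ A').card + 1 := by omega
  have hcap : (Z ∩ (A ∩ A')).card = (Z ∩ A).card := by omega
  have hsub : Z ∩ A ⊆ Z ∩ A' := by
    have : Z ∩ (A ∩ A') = Z ∩ A := eq_of_subset_of_card_le hsub1 (by omega)
    rw [← this]; exact hsub2
  have hd : ((Z ∩ A') \ (Z ∩ A)).card = 1 := by
    have := card_sdiff_add_card_eq_card hsub
    omega
  obtain ⟨f, hf⟩ := card_eq_one.1 hd
  have hfm : f ∈ (Z ∩ A') \ (Z ∩ A) := by rw [hf]; simp
  have hfZ : f ∈ Z := (mem_inter.1 (mem_sdiff.1 hfm).1).1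
  have hfA' : f ∈ A' := (mem_inter.1 (mem_sdiff.1 hfm).1).2
  have hfA : f ∉ A := fun h => (mem_sdiff.1 hfm).2 (mem_inter.2 ⟨hfZ, h⟩)
  have hsdA : (Z ∩ A).card + (Z \ A).card = Z.card := card_inter_add_card_sdiff _ _
  have hsdA' : (Z ∩ A').card + (Z \ A').card = Z.card := card_inter_add_card_sdiff _ _
  -- membership in Z
  have hmem : ∀ x ∈ Z, x ≠ f → (x ∈ A ↔ x ∈ A') := by
    intro x hx hxf
    constructor
    · intro h
      exact (mem_inter.1 (hsub (mem_inter.2 ⟨hx, h⟩))).2
    · intro h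
      by_contra hc
      have : x ∈ (Z ∩ A') \ (Z ∩ A) := mem_sdiff.2 ⟨mem_inter.2 ⟨hx, h⟩, fun g => hc (mem_inter.1 g).2⟩
      rw [hf, mem_singleton] at this
      exact hxf this
  have hcov : X ⊆ insert f ((L ∪ (Z ∩ A)) ∪ (R ∪ (Z \ A'))) := by
    intro x hx
    rw [b.hX] at hx
    simp only [mem_union, mem_inter, mem_sdiff, mem_insert] at hx ⊢
    by_cases hxf : x = f
    · exact Or.inl hxf
    · rcases hx with (hx | hx) | hx
      · tauto
      · have := hmem x hx hxf
        tauto
      · tauto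
  have hfL : f ∉ L := fun h => disjoint_left.1 b.dLZ h hfZ
  have hfR : f ∉ R := fun h => disjoint_left.1 b.dZR hfZ h
  have cP := card_LZ b A
  have cQ := card_RZ b A'
  -- the two filters
  set F1 := F.filter (fun B => f ∈ B) with hF1
  set F0 := F.filter (fun B => f ∉ B) with hF0
  have hsplit : F.card = F1.card + F0.card := by
    rw [hF1, hF0, card_filter_add_card_filter_not]
  rcases (show (L \ A').card = (L \ A).card ∨ (L \ A').card = (L \ A).card + 1 by omega) with hi | hi
  · -- a product with one free point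
    refine ⟨(L \ A).card, (R ∩ A').card, by omega, ?_⟩
    have hb : ∀ G, G ⊆ F → (∀ B ∈ G, ∀ C ∈ G, (f ∈ B ↔ f ∈ C)) →
        G.card ≤ Ball (L ∪ (Z ∩ A)).card (L \ A).card * Ball (R ∪ (Z \ A')).card (R ∩ A').card := by
      intro G hG hGf
      exact prod_bound
        (fun B hB C hC g1 g2 => cover_inj_f ((hF.1 B (hG hB)).trans hcov)
          ((hF.1 C (hG hC)).trans hcov) (hGf B hB C hC) g1 g2)
        (fun B hB => by have := U_ineq b hF hs hA (hG hB); omega)
        (fun B hB => by have := D_ineq b hF hs hA' (hG hB); omega)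
    have g1 := hb F1 (filter_subset _ _) (fun B hB C hC => by
      rw [hF1, mem_filter] at hB hC; simp [hB.2, hC.2])
    have g0 := hb F0 (filter_subset _ _) (fun B hB C hC => by
      rw [hF0, mem_filter] at hB hC; simp [hB.2, hC.2])
    have e1 : (Z ∩ A).card = 2 * (L \ A).card := by omega
    have e2 : (Z \ A').card = 2 * (R ∩ A').card := by omega
    rw [cP, cQ, e1, e2] at g1 g0
    rw [hsplit]
    calc F1.card + F0.card ≤ _ := Nat.add_le_add g1 g0
      _ = _ := by ring
  · -- single overlap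
    obtain ⟨j', hj'⟩ : ∃ j', (R ∩ A).card = j' + 1 := ⟨(R ∩ A').card, by omega⟩
    have hj2 : (R ∩ A').card = j' := by omega
    have eU : L ∪ (Z ∩ A') = insert f (L ∪ (Z ∩ A)) := by
      ext x
      simp only [mem_union, mem_inter, mem_insert]
      by_cases hxf : x = f
      · subst hxf; simp [hfZ, hfA']
      · constructor
        · rintro (h | ⟨h, g⟩)
          · exact Or.inr (Or.inl h)
          · exact Or.inr (Or.inr ⟨h, (hmem x h hxf).2 g⟩)
        · rintro (h | h | ⟨h, g⟩)
          · exact absurd h hxf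
          · exact Or.inl h
          · exact Or.inr ⟨h, (hmem x h hxf).1 g⟩
    have eD : R ∪ (Z \ A) = insert f (R ∪ (Z \ A')) := by
      ext x
      simp only [mem_union, mem_sdiff, mem_insert]
      by_cases hxf : x = f
      · subst hxf; simp [hfZ, hfA]
      · constructor
        · rintro (h | ⟨h, g⟩)
          · exact Or.inr (Or.inl h)
          · exact Or.inr (Or.inr ⟨h, fun g' => g ((hmem x h hxf).2 g')⟩)
        · rintro (h | h | ⟨h, g⟩)
          · exact absurd h hxf
          · exact Or.inl h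
          · exact Or.inr ⟨h, fun g' => g ((hmem x h hxf).1 g')⟩
    have hfP : f ∉ L ∪ (Z ∩ A) := by
      simp only [mem_union, mem_inter, not_or]; exact ⟨hfL, fun g => hfA g.2⟩
    have hfQ : f ∉ R ∪ (Z \ A') := by
      simp only [mem_union, mem_sdiff, not_or]; exact ⟨hfR, fun g => g.2 hfA'⟩
    have g1 : F1.card ≤ Ball (L ∪ (Z ∩ A)).card ((L \ A).card + 1) *
        Ball (R ∪ (Z \ A')).card j' := by
      apply prod_bound
      · intro B hB C hC g1 g2
        rw [hF1, mem_filter] at hB hC
        exact cover_inj_f ((hF.1 B hB.1).trans hcov) ((hF.1 C hC.1).trans hcov)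
          (by simp [hB.2, hC.2]) g1 g2
      · intro B hB
        rw [hF1, mem_filter] at hB
        have h6 := U_ineq b hF hs hA' hB.1
        rw [eU, insert_sdiff_of_mem _ hB.2] at h6
        omega
      · intro B hB
        rw [hF1, mem_filter] at hB
        have h6 := D_ineq b hF hs hA hB.1
        rw [eD, insert_inter_of_mem hB.2, card_insert_of_notMem (by
          intro g; exact hfQ (mem_inter.1 g).1)] at h6
        omega
    have g0 : F0.card ≤ Ball (L ∪ (Z ∩ A)).card (L \ A).card *
        Ball (R ∪ (Z \ A')).card (j' + 1) := by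
      apply prod_bound
      · intro B hB C hC g1 g2
        rw [hF0, mem_filter] at hB hC
        exact cover_inj_f ((hF.1 B hB.1).trans hcov) ((hF.1 C hC.1).trans hcov)
          (by simp [hB.2, hC.2]) g1 g2
      · intro B hB
        rw [hF0, mem_filter] at hB
        have h6 := U_ineq b hF hs hA' hB.1
        rw [eU, insert_sdiff_of_notMem _ hB.2, card_insert_of_notMem (by
          intro g; exact hfP (mem_sdiff.1 g).1)] at h6
        omega
      · intro B hB
        rw [hF0, mem_filter] at hB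
        have h6 := D_ineq b hF hs hA hB.1
        rw [eD, insert_inter_of_notMem hB.2] at h6
        omega
    have e1 : (Z ∩ A).card = 2 * (L \ A).card + 1 := by omega
    have e2 : (Z \ A').card = 2 * j' + 1 := by omega
    rw [cP, cQ, e1, e2] at g1 g0
    have hov := overlap t (L \ A).card s j'
    have htot : F.card ≤ Ball (t + 2 * (L \ A).card + 1) ((L \ A).card + 1) *
        Ball (s + 2 * j' + 1) j' + Ball (t + 2 * (L \ A).card + 1) (L \ A).card *
        Ball (s + 2 * j' + 1) (j' + 1) := by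
      rw [hsplit]
      have := Nat.add_le_add g1 g0
      rw [← add_assoc, ← add_assoc] at this
      exact this
    rcases hov with hov | hov
    · exact ⟨(L \ A).card, j' + 1, by omega, htot.trans hov⟩
    · exact ⟨(L \ A).card + 1, j', by omega, htot.trans hov⟩

lemma odd_case (b : Blk X L Z R t s) (hF : Fam F X t s) (hs : Sh F X) {h : ℕ}
    (hm : Z.card = 2 * h + 1) (hT : 10 * (Z.card + 2) * (h + 1) + h ≤ t + s) :
    ∃ i j, i + j = h ∧ F.card ≤ Ball (t + 2 * i) i * (2 * Ball (s + 2 * j) j) := by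
  by_cases hex : ∃ A ∈ F, ∃ A' ∈ F, (L \ A).card + (R ∩ A).card = h ∧
      (L \ A').card + (R ∩ A').card = h ∧ Z ∩ A ≠ Z ∩ A'
  · obtain ⟨A, hA, A', hA', hl, hl', hne⟩ := hex
    rcases le_total (Z ∩ A).card (Z ∩ A').card with hle | hle
    · exact odd_two b hF hs hm hA hA' hl hl' hne hle
    · exact odd_two b hF hs hm hA' hA hl' hl hne.symm hle
  · have hlow := low_bound (ε := 1) b hF hs hm le_rfl hT
    have htop : (F.filter (fun A => (L \ A).card + (R ∩ A).card = h)).card ≤ Mx t s h := by
      rcases (F.filter (fun A => (L \ A).card + (R ∩ A).card = h)).eq_empty_or_nonempty with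
        he | hne
      · rw [he]; simp
      · obtain ⟨A, hA⟩ := hne
        rw [mem_filter] at hA
        obtain ⟨hA, hlA⟩ := hA
        have hsame : ∀ B ∈ F, (L \ B).card + (R ∩ B).card = h → Z ∩ B = Z ∩ A := by
          intro B hB hlB
          by_contra hc
          exact hex ⟨B, hB, A, hA, hlB, hlA, hc⟩
        have h1 : F.filter (fun A => (L \ A).card + (R ∩ A).card = h) ⊆
            Ty F L R (L \ A).card (R ∩ A).card := by
          intro B hB
          rw [mem_filter] at hB
          rw [Ty, mem_filter]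
          have h2 := self_ineq b hF hs hB.1
          have h3 := self_ineq b hF hs hA
          rw [hsame B hB.1 hB.2] at h2
          exact ⟨hB.1, by omega, by omega⟩
        have h2 : (Co F L Z R (L \ A).card (R ∩ A).card).card ≤ 1 := by
          apply card_le_one.2
          intro S hS S' hS'
          obtain ⟨B, hB, rfl⟩ := mem_image.1 hS
          obtain ⟨B', hB', rfl⟩ := mem_image.1 hS'
          rw [Ty, mem_filter] at hB hB'
          rw [hsame B hB.1 (by omega), hsame B' hB'.1 (by omega)]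
        have h3 := card_Ty_le b hF.1 (L \ A).card (R ∩ A).card
        have h4 : t.choose (L \ A).card * s.choose (R ∩ A).card ≤ Mx t s h := le_Mx hlA
        calc _ ≤ (Ty F L R (L \ A).card (R ∩ A).card).card := card_le_card h1
          _ ≤ _ := h3
          _ ≤ Mx t s h * 1 := Nat.mul_le_mul h4 h2
          _ = Mx t s h := mul_one _
    obtain ⟨i, j, hij, hM⟩ := Mx_le_Ball (t := t) (s := s) (h := h)
    refine ⟨i, j, hij, ?_⟩
    calc F.card ≤ Mx t s h + Mx t s h := hlow.trans (Nat.add_le_add_right htop _)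
      _ ≤ Ball (t + 2 * i) i * Ball (s + 2 * j) j + Ball (t + 2 * i) i * Ball (s + 2 * j) j :=
          Nat.add_le_add hM hM
      _ = _ := by ring

end Pool.Agent.MP_867aae_co.H75
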